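import Pool.Agent.Run7.h518.SW.Discs

/-!
# The derivatives in the distance from the line (helper518)
-/

set_option autoImplicit false

namespace Run7.h518.SW

open Finset MeasureTheory Complex Metric Topology
open Pool.Agent.H306R2 hiding wt
open Pool.Agent.Y746.OA Pool.Agent.Y746.CS

noncomputable section

lemma iter_diff {f : ℂ → ℂ} {U : Set ℂ} (hU : IsOpen U) (hf : DifferentiableOn ℂ f U) (m : ℕ) :
    DifferentiableOn ℂ (iteratedDeriv m f) U := by
  induction m with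
  | zero =>
    rw [iteratedDeriv_zero]
    exact hf
  | succ m ih =>
    rw [iteratedDeriv_succ]
    exact ih.deriv hU

lemma iter_real {f : ℂ → ℂ} {g : ℝ → ℝ} {U : Set ℂ} {α β : ℝ} (hU : IsOpen U)
    (hf : DifferentiableOn ℂ f U) (hI : ∀ x : ℝ, α < x → x < β → (x:ℂ) ∈ U)
    (h : ∀ x : ℝ, α < x → x < β → f x = ((g x : ℝ) : ℂ)) (m : ℕ) :
    ∀ x : ℝ, α < x → x < β → iteratedDeriv m g x = (iteratedDeriv m f x).re := by
  induction m with
  | zero =>
    intro x h1 h2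
    rw [iteratedDeriv_zero, iteratedDeriv_zero, h x h1 h2, Complex.ofReal_re]
  | succ m ih =>
    intro x h1 h2
    rw [iteratedDeriv_succ, iteratedDeriv_succ]
    have hd : HasDerivAt (iteratedDeriv m f) (deriv (iteratedDeriv m f) x) (x:ℂ) :=
      ((iter_diff hU hf m).differentiableAt (hU.mem_nhds (hI x h1 h2))).hasDerivAt
    have h3 := hd.real_of_complex
    have h4 : iteratedDeriv m g =ᶠ[𝓝 x] fun y : ℝ => (iteratedDeriv m f y).re := by
      filter_upwards [Ioo_mem_nhds h1 h2] with y hy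
      exact ih y hy.1 hy.2
    exact (h3.congr_of_eventuallyEq h4).deriv

lemma iter_real_diff {f : ℂ → ℂ} {g : ℝ → ℝ} {U : Set ℂ} {α β : ℝ} (hU : IsOpen U)
    (hf : DifferentiableOn ℂ f U) (hI : ∀ x : ℝ, α < x → x < β → (x:ℂ) ∈ U)
    (h : ∀ x : ℝ, α < x → x < β → f x = ((g x : ℝ) : ℂ)) (m : ℕ) {x : ℝ} (h1 : α < x) (h2 : x < β) :
    DifferentiableAt ℝ (iteratedDeriv m g) x := by
  have hd : HasDerivAt (iteratedDeriv m f) (deriv (iteratedDeriv m f) x) (x:ℂ) :=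
    ((iter_diff hU hf m).differentiableAt (hU.mem_nhds (hI x h1 h2))).hasDerivAt
  have h3 := hd.real_of_complex
  have h4 : iteratedDeriv m g =ᶠ[𝓝 x] fun y : ℝ => (iteratedDeriv m f y).re := by
    filter_upwards [Ioo_mem_nhds h1 h2] with y hy
    exact iter_real hU hf hI h m y hy.1 hy.2
  exact (h3.congr_of_eventuallyEq h4).differentiableAt

lemma mem_UU {x : ℝ} (h1 : 0 < x) (h2 : x < 1 / 4) : (x:ℂ) ∈ UU := by
  refine ⟨by simpa using h1, by simpa using h2, ?_⟩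
  rw [Complex.norm_real, Real.norm_of_nonneg h1.le]
  linarith

/-- **All the derivatives, all the lines and all the windows at once.** -/
theorem all_deriv (k l : ℕ) : ∃ c : ℝ, 0 < c ∧ ∀ D : ℕ, ∃ (F : ℕ) (C T0 : ℝ), 2 ≤ C ∧
    Real.exp (Real.exp 2) ≤ T0 ∧ ∀ T : ℝ, T0 ≤ T →
    (∀ δ : ℝ, C * Real.log (Real.log T) / Real.log T ≤ δ → δ ≤ 1 / 30 →
      Real.log T ^ F ≤ T ^ (c * δ)) ∧
    ∀ (a : Fin k → ℝ) (b : Fin l → ℝ), (∀ j, |a j| ≤ T / 4) → (∀ j, |b j| ≤ T / 4) →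
    volume {t | t ∈ Set.Ioc 0 T ∧ ∃ δ : ℝ, C * Real.log (Real.log T) / Real.log T ≤ δ ∧
      δ ≤ 1 / 30 ∧ ∃ H : ℝ, Real.log T ^ F ≤ H ∧ H ≤ T ^ (c * δ) ∧
      ∃ m : ℕ, m ≤ D ∧ ∃ g : ℝ → ℝ,
        (∀ x : ℝ, 0 < x → x < 1 / 4 → Ec a b H t (x:ℂ) = ((g x : ℝ) : ℂ)) ∧
        ¬ (DifferentiableAt ℝ (iteratedDeriv m g) δ ∧
          |iteratedDeriv m g δ| ≤ 1 / Real.log T ^ D)} ≤
      ENNReal.ofReal (T / Real.log T ^ D) := by
  obtain ⟨c, hc, hc1, h⟩ := all_discs k l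
  refine ⟨c, hc, fun D => ?_⟩
  obtain ⟨F, C, T1, hC, hT1, g⟩ := h (2 * D + 1)
  obtain ⟨T2, hT2, g2⟩ := Ec_good k l
  set K : ℝ := (D.factorial : ℝ) * 4 ^ D with hK
  refine ⟨F, C, max (max T1 T2) (Real.exp K), hC,
    hT1.trans ((le_max_left _ _).trans (le_max_left _ _)), fun T hT => ?_⟩
  have hTT1 : T1 ≤ T := ((le_max_left _ _).trans (le_max_left _ _)).trans hT
  have hTT2 : T2 ≤ T := ((le_max_right _ _).trans (le_max_left _ _)).trans hT
  have hTK : Real.exp K ≤ T := (le_max_right _ _).trans hT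
  have hT4 : 4 ≤ T := hT2.trans hTT2
  have hTp : 0 < T := by linarith
  have hT1' : 1 ≤ T := by linarith
  have hKL : K ≤ Real.log T := (Real.le_log_iff_exp_le hTp).2 hTK
  obtain ⟨gA, gB⟩ := g T hTT1
  refine ⟨gA, fun a b ha hb => ?_⟩
  have hpar := fun (δ : ℝ) (hδ : C * Real.log (Real.log T) / Real.log T ≤ δ) =>
    params hC (hT1.trans hTT1) hδ
  have hL3 : 3 ≤ Real.log T := (hpar _ le_rfl).1
  set L : ℝ := Real.log T with hL
  have hL0 : 0 < L := by linarith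
  have hL1 : 1 ≤ L := by linarith
  have hfin : ENNReal.ofReal (T / L ^ (2 * D + 1)) ≤ ENNReal.ofReal (T / L ^ D) := by
    refine ENNReal.ofReal_le_ofReal ?_
    refine div_le_div_of_nonneg_left hTp.le (by positivity) ?_
    exact pow_le_pow_right₀ hL1 (by omega)
  refine le_trans (measure_mono ?_) ((gB a b ha hb).trans hfin)
  rintro t ⟨ht, δ, hδ, hδ1, H, hFH, hH, m, hm, f, hf, hlt⟩
  refine ⟨ht, δ, hδ, hδ1, H, hFH, hH, ?_⟩
  by_contra hcon
  push Not at hcon
  obtain ⟨-, -, hδ0, h2δ⟩ := hpar δ hδ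
  have hHT : H ≤ T := by
    refine hH.trans ?_
    calc T ^ (c * δ) ≤ T ^ (1:ℝ) := by
          refine Real.rpow_le_rpow_of_exponent_le hT1' ?_
          nlinarith
      _ = T := Real.rpow_one T
  have hH0 : 0 < H := (by positivity : 0 < L ^ F).trans_le hFH
  have hg := (g2 T hTT2 a b (fun j => (ha j).trans (by linarith))
    (fun j => (hb j).trans (by linarith)) H t hH0 hHT ht.1.le ht.2).1
  have hr : 0 < 1 / (4 * L) := by positivity
  have hr1 : 1 / (4 * L) ≤ 1 / 12 := by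
    rw [div_le_div_iff₀ (by positivity) (by norm_num)]
    linarith
  have hr2 : 1 / (4 * L) < δ := by
    rw [div_le_iff₀ hδ0] at h2δ
    rw [div_lt_iff₀ (by positivity)]
    nlinarith
  have hball : closedBall (δ:ℂ) (1 / (4 * L)) ⊆ UU := by
    intro w hw
    rw [mem_closedBall, dist_eq_norm] at hw
    have h1 := Complex.abs_re_le_norm (w - δ)
    rw [Complex.sub_re, Complex.ofReal_re, abs_le] at h1
    have h2 : ‖w‖ ≤ ‖w - δ‖ + ‖(δ:ℂ)‖ := by
      have := norm_add_le (w - δ) (δ:ℂ)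
      rwa [sub_add_cancel] at this
    rw [Complex.norm_real, Real.norm_of_nonneg hδ0.le] at h2
    refine ⟨?_, ?_, ?_⟩ <;> linarith [h1.1, h1.2]
  have hdc : DiffContOnCl ℂ (Ec a b H t) (ball (δ:ℂ) (1 / (4 * L))) := by
    refine DifferentiableOn.diffContOnCl ?_
    rw [closure_ball _ hr.ne']
    exact hg.mono hball
  have h1 := Complex.norm_iteratedDeriv_le_of_forall_mem_sphere_norm_le m hr hdc
    (C := 1 / L ^ (2 * D + 1)) (fun z hz => hcon z (by
      rw [mem_sphere, dist_eq_norm] at hz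
      exact hz.le))
  have h2 := iter_real UU_open hg (fun x => mem_UU) hf m δ hδ0 (by linarith)
  have h3 := Complex.abs_re_le_norm (iteratedDeriv m (Ec a b H t) (δ:ℂ))
  rw [← h2] at h3
  have h4 : (m.factorial : ℝ) * (1 / L ^ (2 * D + 1)) / (1 / (4 * L)) ^ m ≤ 1 / L ^ D := by
    have e1 : (m.factorial : ℝ) * (1 / L ^ (2 * D + 1)) / (1 / (4 * L)) ^ m =
        ((m.factorial : ℝ) * 4 ^ m) * L ^ m / L ^ (2 * D + 1) := by
      rw [one_div_pow, mul_pow]
      field_simp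
    have e2 : ((m.factorial : ℝ) * 4 ^ m) ≤ K := by
      rw [hK]
      refine mul_le_mul ?_ ?_ (by positivity) (by positivity)
      · exact_mod_cast Nat.factorial_le hm
      · exact pow_le_pow_right₀ (by norm_num) hm
    have e3 : L ^ m ≤ L ^ D := pow_le_pow_right₀ hL1 hm
    rw [e1, div_le_div_iff₀ (by positivity) (by positivity), one_mul]
    calc (m.factorial : ℝ) * 4 ^ m * L ^ m * L ^ D ≤ L * L ^ D * L ^ D := by
          refine mul_le_mul_of_nonneg_right ?_ (by positivity)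
          exact mul_le_mul (e2.trans hKL) e3 (by positivity) hL0.le
      _ = L ^ (2 * D + 1) := by ring
  exact hlt ⟨iter_real_diff UU_open hg (fun x => mem_UU) hf m hδ0 (by linarith),
    h3.trans (h1.trans h4)⟩

end

end Run7.h518.SW
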