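import Pool.Agent.Run7.h518.SW.Off
import Pool.Agent.Y746.CS.Alg

/-!
# The mean of the correlations of a shifted product over a square (helper518)
-/

set_option autoImplicit false

namespace Run7.h518.SW

open Finset MeasureTheory Complex Pool.Agent.H306R2 Pool.Agent.Y746.OA Pool.Agent.Y746.CS

noncomputable section

/-- the twist by `n^(-iu)` -/
def twc (u : ℝ) (A : ArithmeticFunction ℂ) : ArithmeticFunction ℂ :=
  ⟨fun n => A n * (n:ℂ) ^ (-((u:ℂ) * I)), by simp⟩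

lemma twc_apply (u : ℝ) (A : ArithmeticFunction ℂ) (n : ℕ) :
    twc u A n = A n * (n:ℂ) ^ (-((u:ℂ) * I)) := rfl

lemma twc_le (u : ℝ) {A : ArithmeticFunction ℂ} {f : ℕ → ℝ} (h : ∀ n, ‖A n‖ ≤ f n) (n : ℕ) :
    ‖twc u A n‖ ≤ f n := by
  rcases Nat.eq_zero_or_pos n with h0 | h0
  · subst h0
    have h1 := h 0
    rw [ArithmeticFunction.map_zero] at h1 ⊢
    exact h1
  · rw [twc_apply, norm_mul, Complex.norm_natCast_cpow_of_pos h0]
    simpa using h n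

/-- the exponential `e^(-iuL)` -/
def ex (L u : ℝ) : ℂ := Complex.exp (((-(u * L) : ℝ) : ℂ) * I)

lemma ex_norm (L u : ℝ) : ‖ex L u‖ = 1 := Complex.norm_exp_ofReal_mul_I _

lemma ex_cont (L : ℝ) : Continuous (ex L) := by
  unfold ex
  fun_prop

lemma ex_zero (u : ℝ) : ex 0 u = 1 := by
  unfold ex
  simp

lemma cpow_ex {n : ℕ} (hn : 1 ≤ n) (u : ℝ) : (n:ℂ) ^ (-((u:ℂ) * I)) = ex (Real.log n) u := by
  have hn0 : (n:ℂ) ≠ 0 := by exact_mod_cast (by omega : n ≠ 0)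
  rw [Complex.cpow_def_of_ne_zero hn0, ← Complex.natCast_log, ex]
  congr 1
  push_cast
  ring

lemma ex_mul (L L' u : ℝ) : ex L u * ex L' u = ex (L + L') u := by
  unfold ex
  rw [← Complex.exp_add]
  congr 1
  push_cast
  ring

lemma ex_conj (L u : ℝ) : (starRingEnd ℂ) (ex L u) = ex (-L) u := by
  unfold ex
  rw [← Complex.exp_conj]
  congr 1
  simp only [map_mul, Complex.conj_ofReal, Complex.conj_I]
  push_cast
  ring

/-- the weight -/
def w (δ : ℝ) (n : ℕ) : ℂ := (((n:ℝ) ^ (-1 - 2 * δ) : ℝ) : ℂ)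

lemma w_norm (δ : ℝ) (n : ℕ) : ‖w δ n‖ = (n:ℝ) ^ (-1 - 2 * δ) := by
  unfold w
  rw [Complex.norm_real, Real.norm_of_nonneg (by positivity)]

/-- the coefficient of a pair of factorisations -/
def cc (A B : ArithmeticFunction ℂ) (δ : ℝ) (n : ℕ) (x y : ℕ × ℕ) : ℂ :=
  A x.1 * B x.2 * (starRingEnd ℂ) (B y.1) * (starRingEnd ℂ) (A y.2) * w δ n

/-- the difference of the logarithms -/
def Lg (x y : ℕ × ℕ) : ℝ := Real.log x.1 - Real.log y.1

/-- the `n`-th term -/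
def gn (A B : ArithmeticFunction ℂ) (δ : ℝ) (n : ℕ) (p : ℝ × ℝ) : ℂ :=
  (twc p.1 A * twc p.2 B : ArithmeticFunction ℂ) n *
    (starRingEnd ℂ) ((twc p.1 B * twc p.2 A : ArithmeticFunction ℂ) n) * w δ n

lemma pos_of_mem {n : ℕ} {x : ℕ × ℕ} (hx : x ∈ n.divisorsAntidiagonal) :
    1 ≤ x.1 ∧ 1 ≤ x.2 ∧ x.1 * x.2 = n ∧ 1 ≤ n := by
  rw [Nat.mem_divisorsAntidiagonal] at hx
  obtain ⟨h1, h2⟩ := hx
  refine ⟨?_, ?_, h1, by omega⟩
  · rcases Nat.eq_zero_or_pos x.1 with h | h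
    · rw [h, zero_mul] at h1; omega
    · exact h
  · rcases Nat.eq_zero_or_pos x.2 with h | h
    · rw [h, mul_zero] at h1; omega
    · exact h

lemma gn_eq (A B : ArithmeticFunction ℂ) (δ : ℝ) (n : ℕ) (p : ℝ × ℝ) :
    gn A B δ n p = ∑ x ∈ n.divisorsAntidiagonal, ∑ y ∈ n.divisorsAntidiagonal,
      cc A B δ n x y * (ex (Lg x y) p.1 * (starRingEnd ℂ) (ex (Lg x y) p.2)) := by
  unfold gn
  rw [ArithmeticFunction.mul_apply, ArithmeticFunction.mul_apply, map_sum, sum_mul_sum, sum_mul]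
  refine sum_congr rfl fun x hx => ?_
  rw [sum_mul]
  refine sum_congr rfl fun y hy => ?_
  obtain ⟨x1, x2, x3, hn⟩ := pos_of_mem hx
  obtain ⟨y1, y2, y3, -⟩ := pos_of_mem hy
  rw [twc_apply, twc_apply, twc_apply, twc_apply, cpow_ex x1, cpow_ex x2, cpow_ex y1, cpow_ex y2,
    map_mul, map_mul, map_mul, ex_conj, ex_conj, ex_conj]
  have hlog : Real.log x.1 + Real.log x.2 = Real.log y.1 + Real.log y.2 := by
    have a1 : (x.1:ℝ) ≠ 0 := by exact_mod_cast (by omega : x.1 ≠ 0)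
    have a2 : (x.2:ℝ) ≠ 0 := by exact_mod_cast (by omega : x.2 ≠ 0)
    have a3 : (y.1:ℝ) ≠ 0 := by exact_mod_cast (by omega : y.1 ≠ 0)
    have a4 : (y.2:ℝ) ≠ 0 := by exact_mod_cast (by omega : y.2 ≠ 0)
    rw [← Real.log_mul a1 a2, ← Real.log_mul a3 a4]
    congr 1
    exact_mod_cast x3.trans y3.symm
  have e1 : ex (Real.log x.1) p.1 * ex (-Real.log y.1) p.1 = ex (Lg x y) p.1 := by
    rw [ex_mul]
    rfl
  have e2 : ex (Real.log x.2) p.2 * ex (-Real.log y.2) p.2 = ex (-Lg x y) p.2 := by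
    rw [ex_mul]
    congr 1
    unfold Lg
    linarith
  rw [← e1, ← e2]
  unfold cc
  ring

lemma gn_cont (A B : ArithmeticFunction ℂ) (δ : ℝ) (n : ℕ) : Continuous (gn A B δ n) := by
  have h : gn A B δ n = fun p => ∑ x ∈ n.divisorsAntidiagonal, ∑ y ∈ n.divisorsAntidiagonal,
      cc A B δ n x y * (ex (Lg x y) p.1 * (starRingEnd ℂ) (ex (Lg x y) p.2)) := by
    funext p
    exact gn_eq A B δ n p
  rw [h]
  refine continuous_finsetSum _ fun x _ => continuous_finsetSum _ fun y _ => ?_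
  have h1 := ex_cont (Lg x y)
  have h2 : Continuous fun p : ℝ × ℝ => ex (Lg x y) p.1 := h1.comp continuous_fst
  have h3 : Continuous fun p : ℝ × ℝ => ex (Lg x y) p.2 := h1.comp continuous_snd
  exact continuous_const.mul (h2.mul (Complex.continuous_conj.comp h3))

/-- the bound of the `n`-th term -/
def ub (P : ℕ) (δ : ℝ) (n : ℕ) : ℝ := dv ((P + P : ℕ) : ℝ) n ^ 2 * (n:ℝ) ^ (-1 - 2 * δ)

lemma conv_le {P : ℕ} {A B : ArithmeticFunction ℂ} (hA : ∀ n, ‖A n‖ ≤ dv P n)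
    (hB : ∀ n, ‖B n‖ ≤ dv P n) (n : ℕ) : ‖(A * B : ArithmeticFunction ℂ) n‖ ≤ dv ((P + P : ℕ) : ℝ) n := by
  have h := norm_mul_le' (A' := dA P) (B' := dA P) hA hB n
  rw [dA_mul] at h
  push_cast
  exact h

lemma gn_le {P : ℕ} {A B : ArithmeticFunction ℂ} (hA : ∀ n, ‖A n‖ ≤ dv P n)
    (hB : ∀ n, ‖B n‖ ≤ dv P n) (δ : ℝ) (n : ℕ) (p : ℝ × ℝ) : ‖gn A B δ n p‖ ≤ ub P δ n := by
  unfold gn ub
  rw [norm_mul, norm_mul, RCLike.norm_conj, w_norm, sq]
  have h1 := conv_le (twc_le p.1 hA) (twc_le p.2 hB) n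
  have h2 := conv_le (twc_le p.1 hB) (twc_le p.2 hA) n
  have h3 := mul_le_mul h1 h2 (norm_nonneg _) ((norm_nonneg _).trans h1)
  exact mul_le_mul_of_nonneg_right h3 (by positivity)

lemma sum2' (P : ℕ) {δ : ℝ} (hδ : 0 < δ) (hδ1 : δ ≤ 1) (F : Finset ℕ) :
    ∑ n ∈ F, dv P n ^ 2 * (n:ℝ) ^ (-1 - 2 * δ) ≤ (2 / δ) ^ (P ^ 2) := by
  refine le_trans (sum_le_sum fun n _ => ?_) (sum2 P hδ hδ1 F)
  refine mul_le_mul_of_nonneg_left ?_ (by positivity)
  rcases Nat.eq_zero_or_pos n with h | h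
  · subst h
    rw [Nat.cast_zero, Real.zero_rpow (by linarith), Real.zero_rpow (by linarith)]
  · exact Real.rpow_le_rpow_of_exponent_le (by exact_mod_cast h) (by linarith)

lemma sq_summable (P : ℕ) {δ : ℝ} (hδ : 0 < δ) (hδ1 : δ ≤ 1) :
    Summable fun n : ℕ => dv P n ^ 2 * (n:ℝ) ^ (-1 - 2 * δ) :=
  summable_of_sum_le (fun n => by positivity) fun F => sum2' P hδ hδ1 F

lemma ub_summable (P : ℕ) {δ : ℝ} (hδ : 0 < δ) (hδ1 : δ ≤ 1) : Summable (ub P δ) :=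
  sq_summable (P + P) hδ hδ1

lemma ub_nonneg (P : ℕ) (δ : ℝ) (n : ℕ) : 0 ≤ ub P δ n := by
  unfold ub
  positivity

/-- the sum -/
def DD (A B : ArithmeticFunction ℂ) (δ : ℝ) (p : ℝ × ℝ) : ℂ := ∑' n : ℕ, gn A B δ n p

/-- the measure on the square -/
def mu (H : ℝ) : Measure (ℝ × ℝ) :=
  (volume.restrict (Set.Ioc 0 H)).prod (volume.restrict (Set.Ioc 0 H))

instance mu_fin (H : ℝ) : IsFiniteMeasure (mu H) := by
  unfold mu
  infer_instance

lemma DD_cont {P : ℕ} {A B : ArithmeticFunction ℂ} (hA : ∀ n, ‖A n‖ ≤ dv P n)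
    (hB : ∀ n, ‖B n‖ ≤ dv P n) {δ : ℝ} (hδ : 0 < δ) (hδ1 : δ ≤ 1) : Continuous (DD A B δ) :=
  continuous_tsum (gn_cont A B δ) (ub_summable P hδ hδ1) fun n p => gn_le hA hB δ n p

lemma DD_int {P : ℕ} {A B : ArithmeticFunction ℂ} (hA : ∀ n, ‖A n‖ ≤ dv P n)
    (hB : ∀ n, ‖B n‖ ≤ dv P n) {δ : ℝ} (hδ : 0 < δ) (hδ1 : δ ≤ 1) (H : ℝ) :
    Integrable (DD A B δ) (mu H) := by
  refine Integrable.of_bound (DD_cont hA hB hδ hδ1).aestronglyMeasurable (∑' n, ub P δ n) ?_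
  filter_upwards with p
  exact tsum_of_norm_bounded (ub_summable P hδ hδ1).hasSum fun n => gn_le hA hB δ n p

lemma gn_int {P : ℕ} {A B : ArithmeticFunction ℂ} (hA : ∀ n, ‖A n‖ ≤ dv P n)
    (hB : ∀ n, ‖B n‖ ≤ dv P n) (δ : ℝ) (n : ℕ) (H : ℝ) :
    Integrable (gn A B δ n) (mu H) := by
  refine Integrable.of_bound (gn_cont A B δ n).aestronglyMeasurable (ub P δ n) ?_
  filter_upwards with p
  exact gn_le hA hB δ n p

lemma DD_hasSum {P : ℕ} {A B : ArithmeticFunction ℂ} (hA : ∀ n, ‖A n‖ ≤ dv P n)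
    (hB : ∀ n, ‖B n‖ ≤ dv P n) {δ : ℝ} (hδ : 0 < δ) (hδ1 : δ ≤ 1) (H : ℝ) :
    HasSum (fun n => ∫ p, gn A B δ n p ∂(mu H)) (∫ p, DD A B δ p ∂(mu H)) := by
  refine hasSum_integral_of_summable_integral_norm (fun n => gn_int hA hB δ n H) ?_
  refine Summable.of_nonneg_of_le (fun n => integral_nonneg fun p => norm_nonneg _) (fun n => ?_)
    ((ub_summable P hδ hδ1).mul_right ((mu H).real Set.univ))
  have h := norm_integral_le_of_norm_le_const (μ := mu H) (f := fun p => ‖gn A B δ n p‖)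
    (C := ub P δ n) (by
      filter_upwards with p
      rw [norm_norm]
      exact gn_le hA hB δ n p)
  exact (le_abs_self _).trans h

/-- the integral of the exponential -/
def IL (H L : ℝ) : ℂ := ∫ u in Set.Ioc 0 H, ex L u

lemma IL_zero {H : ℝ} (hH : 0 ≤ H) : IL H 0 = H := by
  unfold IL
  simp_rw [ex_zero]
  rw [setIntegral_const]
  simp [hH]

lemma IL_le_H {H : ℝ} (hH : 0 ≤ H) (L : ℝ) : ‖IL H L‖ ≤ H := by
  unfold IL
  have h := norm_setIntegral_le_of_norm_le_const (μ := volume) (s := Set.Ioc 0 H) (f := ex L)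
    (C := 1) (by rw [Real.volume_Ioc]; exact ENNReal.ofReal_lt_top)
    (fun u _ => (ex_norm L u).le)
  rw [one_mul, Real.volume_real_Ioc_of_le hH, sub_zero] at h
  exact h

lemma IL_le_L {H : ℝ} (hH : 0 ≤ H) {L : ℝ} (hL : L ≠ 0) : ‖IL H L‖ ≤ 2 / |L| := by
  unfold IL
  rw [← intervalIntegral.integral_of_le hH]
  have hc : (-(L:ℂ) * I) ≠ 0 := by
    refine mul_ne_zero (neg_ne_zero.2 ?_) I_ne_zero
    exact_mod_cast hL
  have h1 : ∀ u : ℝ, ex L u = Complex.exp ((-(L:ℂ) * I) * u) := by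
    intro u
    unfold ex
    congr 1
    push_cast
    ring
  simp_rw [h1]
  rw [integral_exp_mul_complex hc, norm_div]
  have h2 : ‖(-(L:ℂ) * I)‖ = |L| := by
    rw [norm_mul, norm_neg, Complex.norm_I, mul_one, Complex.norm_real, Real.norm_eq_abs]
  rw [h2]
  refine div_le_div_of_nonneg_right ?_ (abs_nonneg _)
  refine (norm_sub_le _ _).trans ?_
  rw [← h1, ← h1, ex_norm, ex_norm]
  norm_num

lemma IL_sq {H : ℝ} (hH : 0 < H) {L : ℝ} (hL : L ≠ 0) : ‖IL H L‖ ^ 2 / H ^ 2 ≤ 2 / H * (1 / |L|) := by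
  have h1 := IL_le_H hH.le L
  have h2 := IL_le_L hH.le hL
  have h3 : ‖IL H L‖ ^ 2 ≤ H * (2 / |L|) := by
    rw [sq]
    exact mul_le_mul h1 h2 (norm_nonneg _) hH.le
  calc ‖IL H L‖ ^ 2 / H ^ 2 ≤ H * (2 / |L|) / H ^ 2 := div_le_div_of_nonneg_right h3 (by positivity)
    _ = _ := by field_simp

lemma ex_integral (H L : ℝ) : ∫ p, ex L p.1 * (starRingEnd ℂ) (ex L p.2) ∂(mu H) =
    ((‖IL H L‖ ^ 2 : ℝ) : ℂ) := by
  unfold mu
  rw [integral_prod_mul (fun u => ex L u) (fun u => (starRingEnd ℂ) (ex L u)), integral_conj]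
  unfold IL
  rw [Complex.mul_conj, Complex.normSq_eq_norm_sq]

lemma ex_int (H L : ℝ) : Integrable (fun p : ℝ × ℝ => ex L p.1 * (starRingEnd ℂ) (ex L p.2)) (mu H) := by
  have h1 := ex_cont L
  have h2 : Continuous fun p : ℝ × ℝ => ex L p.1 := h1.comp continuous_fst
  have h3 : Continuous fun p : ℝ × ℝ => ex L p.2 := h1.comp continuous_snd
  refine Integrable.of_bound (h2.mul (Complex.continuous_conj.comp h3)).aestronglyMeasurable 1 ?_
  filter_upwards with p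
  rw [norm_mul, RCLike.norm_conj, ex_norm, ex_norm, one_mul]

lemma gn_integral (A B : ArithmeticFunction ℂ) (δ : ℝ) (n : ℕ) (H : ℝ) :
    ∫ p, gn A B δ n p ∂(mu H) = ∑ x ∈ n.divisorsAntidiagonal, ∑ y ∈ n.divisorsAntidiagonal,
      cc A B δ n x y * ((‖IL H (Lg x y)‖ ^ 2 : ℝ) : ℂ) := by
  simp_rw [gn_eq]
  rw [integral_finsetSum _ fun x _ => integrable_finsetSum _ fun y _ => (ex_int H _).const_mul _]
  refine sum_congr rfl fun x _ => ?_
  rw [integral_finsetSum _ fun y _ => (ex_int H _).const_mul _]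
  refine sum_congr rfl fun y _ => ?_
  rw [integral_const_mul, ex_integral]

lemma cc_norm {P : ℕ} {A B : ArithmeticFunction ℂ} (hA : ∀ n, ‖A n‖ ≤ dv P n)
    (hB : ∀ n, ‖B n‖ ≤ dv P n) (δ : ℝ) (n : ℕ) (x y : ℕ × ℕ) :
    ‖cc A B δ n x y‖ ≤ dv P x.1 * dv P x.2 * dv P y.1 * dv P y.2 * (n:ℝ) ^ (-1 - 2 * δ) := by
  unfold cc
  rw [norm_mul, norm_mul, norm_mul, norm_mul, RCLike.norm_conj, RCLike.norm_conj, w_norm]
  have a1 := (norm_nonneg _).trans (hA x.1)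
  have a2 := (norm_nonneg _).trans (hA x.2)
  have a3 := (norm_nonneg _).trans (hA y.1)
  have a4 := (norm_nonneg _).trans (hA y.2)
  refine mul_le_mul_of_nonneg_right ?_ (by positivity)
  refine mul_le_mul (mul_le_mul (mul_le_mul (hA _) (hB _) (norm_nonneg _) a1) (hB _)
    (norm_nonneg _) (by positivity)) (hA _) (norm_nonneg _) (by positivity)

/-- the diagonal term -/
def dg (A B : ArithmeticFunction ℂ) (δ : ℝ) (n : ℕ) : ℂ :=
  ∑ x ∈ n.divisorsAntidiagonal, cc A B δ n x x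

lemma term_bd {P : ℕ} {A B : ArithmeticFunction ℂ} (hA : ∀ n, ‖A n‖ ≤ dv P n)
    (hB : ∀ n, ‖B n‖ ≤ dv P n) (δ : ℝ) (n : ℕ) {H : ℝ} (hH : 0 < H) :
    ‖(1 / (H:ℂ) ^ 2) * ∫ p, gn A B δ n p ∂(mu H) - dg A B δ n‖ ≤
      2 / H * ∑ x ∈ n.divisorsAntidiagonal, ∑ y ∈ n.divisorsAntidiagonal, ff P δ n x y := by
  have hH0 : (H:ℂ) ≠ 0 := by exact_mod_cast hH.ne'
  rw [gn_integral, dg, mul_sum, ← sum_sub_distrib, mul_sum]
  refine (norm_sum_le _ _).trans (sum_le_sum fun x hx => ?_)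
  have h1 : cc A B δ n x x = ∑ y ∈ n.divisorsAntidiagonal,
      if x.1 = y.1 then cc A B δ n x y else 0 := by
    rw [sum_eq_single x]
    · rw [if_pos rfl]
    · intro y hy hyx
      rw [if_neg]
      intro h
      apply hyx
      obtain ⟨x1, x2, x3, hn⟩ := pos_of_mem hx
      obtain ⟨y1, y2, y3, -⟩ := pos_of_mem hy
      refine (Prod.ext h ?_).symm
      rw [← y3, h] at x3
      exact Nat.eq_of_mul_eq_mul_left y1 x3
    · intro h
      exact absurd hx h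
  rw [h1, mul_sum, ← sum_sub_distrib, mul_sum]
  refine (norm_sum_le _ _).trans (sum_le_sum fun y hy => ?_)
  obtain ⟨x1, x2, x3, hn⟩ := pos_of_mem hx
  obtain ⟨y1, y2, y3, -⟩ := pos_of_mem hy
  unfold ff
  split_ifs with h
  · have h2 : Lg x y = 0 := by
      unfold Lg
      rw [h, sub_self]
    rw [h2, IL_zero hH.le, Complex.norm_real, Real.norm_of_nonneg hH.le, mul_zero]
    have h3 : (1 / (H:ℂ) ^ 2) * (cc A B δ n x y * ((H ^ 2 : ℝ) : ℂ)) - cc A B δ n x y = 0 := by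
      push_cast
      field_simp
      ring
    rw [h3, norm_zero]
  · have h2 : Lg x y ≠ 0 := by
      unfold Lg
      intro h3
      apply h
      have h4 : Real.log x.1 = Real.log y.1 := by linarith
      have a1 : (0:ℝ) < x.1 := by exact_mod_cast x1
      have a2 : (0:ℝ) < y.1 := by exact_mod_cast y1
      exact_mod_cast Real.log_injOn_pos a1 a2 h4
    rw [sub_zero, norm_mul, norm_mul, norm_div, norm_one, norm_pow, Complex.norm_real,
      Real.norm_of_nonneg hH.le, Complex.norm_real, Real.norm_of_nonneg (by positivity)]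
    have h3 := IL_sq hH h2
    have h4 := cc_norm hA hB δ n x y
    calc 1 / H ^ 2 * (‖cc A B δ n x y‖ * ‖IL H (Lg x y)‖ ^ 2) =
        ‖cc A B δ n x y‖ * (‖IL H (Lg x y)‖ ^ 2 / H ^ 2) := by ring
      _ ≤ (dv P x.1 * dv P x.2 * dv P y.1 * dv P y.2 * (n:ℝ) ^ (-1 - 2 * δ)) *
          (2 / H * (1 / |Lg x y|)) :=
          mul_le_mul h4 h3 (by positivity) ((norm_nonneg _).trans h4)
      _ = _ := by
          unfold Lg
          ring

/-- the mean value -/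
def dd (A B : ArithmeticFunction ℂ) (δ : ℝ) : ℂ :=
  ∑' n : ℕ, A n * (starRingEnd ℂ) (B n) * w δ n

lemma ab_le {P : ℕ} {A B : ArithmeticFunction ℂ} (hA : ∀ n, ‖A n‖ ≤ dv P n)
    (hB : ∀ n, ‖B n‖ ≤ dv P n) (δ : ℝ) (n : ℕ) :
    ‖A n * (starRingEnd ℂ) (B n) * w δ n‖ ≤ dv P n ^ 2 * (n:ℝ) ^ (-1 - 2 * δ) := by
  rw [norm_mul, norm_mul, RCLike.norm_conj, w_norm, sq]
  have h := mul_le_mul (hA n) (hB n) (norm_nonneg _) ((norm_nonneg _).trans (hA n))
  exact mul_le_mul_of_nonneg_right h (by positivity)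

lemma ab_hasSum {P : ℕ} {A B : ArithmeticFunction ℂ} (hA : ∀ n, ‖A n‖ ≤ dv P n)
    (hB : ∀ n, ‖B n‖ ≤ dv P n) {δ : ℝ} (hδ : 0 < δ) (hδ1 : δ ≤ 1) :
    HasSum (fun n : ℕ => A n * (starRingEnd ℂ) (B n) * w δ n) (dd A B δ) :=
  (Summable.of_norm_bounded (sq_summable P hδ hδ1) fun n => ab_le hA hB δ n).hasSum

lemma dd_norm {P : ℕ} {A B : ArithmeticFunction ℂ} (hA : ∀ n, ‖A n‖ ≤ dv P n)
    (hB : ∀ n, ‖B n‖ ≤ dv P n) {δ : ℝ} (hδ : 0 < δ) (hδ1 : δ ≤ 1) :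
    ‖dd A B δ‖ ≤ (2 / δ) ^ (P ^ 2) :=
  (tsum_of_norm_bounded (sq_summable P hδ hδ1).hasSum fun n => ab_le hA hB δ n).trans
    ((sq_summable P hδ hδ1).tsum_le_of_sum_le fun F => sum2' P hδ hδ1 F)

/-- the pointwise product with the conjugate -/
def hc (A B : ArithmeticFunction ℂ) : ArithmeticFunction ℂ :=
  ⟨fun n => A n * (starRingEnd ℂ) (B n), by simp⟩

lemma hc_apply (A B : ArithmeticFunction ℂ) (n : ℕ) : hc A B n = A n * (starRingEnd ℂ) (B n) := rfl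

lemma w_cpow {δ : ℝ} {n : ℕ} (hn : n ≠ 0) : w δ n = ((n:ℂ) ^ (((1 + 2 * δ : ℝ)) : ℂ))⁻¹ := by
  unfold w
  have hn0 : (0:ℝ) ≤ n := Nat.cast_nonneg n
  rw [show (-1 - 2 * δ : ℝ) = -(1 + 2 * δ) by ring, Real.rpow_neg hn0, Complex.ofReal_inv,
    Complex.ofReal_cpow hn0, Complex.ofReal_natCast]

lemma hc_term (A B : ArithmeticFunction ℂ) (δ : ℝ) (n : ℕ) :
    LSeries.term (fun n => hc A B n) (((1 + 2 * δ : ℝ)) : ℂ) n =
      A n * (starRingEnd ℂ) (B n) * w δ n := by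
  rcases eq_or_ne n 0 with h | h
  · subst h
    rw [LSeries.term_zero, ArithmeticFunction.map_zero, zero_mul, zero_mul]
  · rw [LSeries.term_of_ne_zero h, hc_apply, w_cpow h, div_eq_mul_inv]

lemma dg_term (A B : ArithmeticFunction ℂ) (δ : ℝ) (n : ℕ) :
    LSeries.term (fun n => (hc A B * hc B A : ArithmeticFunction ℂ) n) (((1 + 2 * δ : ℝ)) : ℂ) n =
      dg A B δ n := by
  unfold dg
  rcases eq_or_ne n 0 with h | h
  · subst h
    rw [LSeries.term_zero, Nat.divisorsAntidiagonal_zero, sum_empty]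
  · rw [LSeries.term_of_ne_zero h, ArithmeticFunction.mul_apply, sum_div]
    refine sum_congr rfl fun x _ => ?_
    unfold cc
    rw [w_cpow h, hc_apply, hc_apply, div_eq_mul_inv]
    ring

lemma dg_hasSum {P : ℕ} {A B : ArithmeticFunction ℂ} (hA : ∀ n, ‖A n‖ ≤ dv P n)
    (hB : ∀ n, ‖B n‖ ≤ dv P n) {δ : ℝ} (hδ : 0 < δ) (hδ1 : δ ≤ 1) :
    HasSum (fun n => dg A B δ n) (dd A B δ * (starRingEnd ℂ) (dd A B δ)) := by
  have h1 : LSeriesHasSum (fun n => hc A B n) (((1 + 2 * δ : ℝ)) : ℂ) (dd A B δ) := by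
    unfold LSeriesHasSum
    have h := ab_hasSum hA hB hδ hδ1
    have e : LSeries.term (fun n => hc A B n) (((1 + 2 * δ : ℝ)) : ℂ) =
        fun n : ℕ => A n * (starRingEnd ℂ) (B n) * w δ n := by
      funext n
      exact hc_term A B δ n
    rw [e]
    exact h
  have hcd : dd B A δ = (starRingEnd ℂ) (dd A B δ) := by
    unfold dd
    rw [conj_tsum]
    refine tsum_congr fun n => ?_
    rw [map_mul, map_mul, Complex.conj_conj]
    unfold w
    rw [Complex.conj_ofReal]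
    ring
  have h2 : LSeriesHasSum (fun n => hc B A n) (((1 + 2 * δ : ℝ)) : ℂ) (dd B A δ) := by
    unfold LSeriesHasSum
    have h := ab_hasSum hB hA hδ hδ1
    have e : LSeries.term (fun n => hc B A n) (((1 + 2 * δ : ℝ)) : ℂ) =
        fun n : ℕ => B n * (starRingEnd ℂ) (A n) * w δ n := by
      funext n
      exact hc_term B A δ n
    rw [e]
    exact h
  have h3 := ArithmeticFunction.LSeriesHasSum_mul h1 h2
  rw [hcd] at h3
  unfold LSeriesHasSum at h3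
  have e : LSeries.term (fun n => (hc A B * hc B A : ArithmeticFunction ℂ) n)
      (((1 + 2 * δ : ℝ)) : ℂ) = fun n => dg A B δ n := by
    funext n
    exact dg_term A B δ n
  rw [← e]
  exact h3

/-- **The mean of the correlations over the square.** -/
theorem avg {P : ℕ} (hP : 1 ≤ P) {A B : ArithmeticFunction ℂ} (hA : ∀ n, ‖A n‖ ≤ dv P n)
    (hB : ∀ n, ‖B n‖ ≤ dv P n) {δ : ℝ} (hδ : 0 < δ) (hδ1 : δ ≤ 1) {H : ℝ} (hH : 0 < H) :
    ‖(1 / (H:ℂ) ^ 2) * ∫ p, DD A B δ p ∂(mu H) - dd A B δ * (starRingEnd ℂ) (dd A B δ)‖ ≤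
      12 * (2 / δ) ^ (2 * P ^ 2 + P ^ 4 + 1) / H := by
  set f : ℕ → ℝ := fun n => 2 / H * ∑ x ∈ n.divisorsAntidiagonal,
    ∑ y ∈ n.divisorsAntidiagonal, ff P δ n x y with hf
  have hf0 : ∀ n, 0 ≤ f n := by
    intro n
    rw [hf]
    exact mul_nonneg (by positivity) (sum_nonneg fun x _ => sum_nonneg fun y _ => ff_nonneg _ _ _ _ _)
  have hf00 : f 0 = 0 := by
    rw [hf]
    simp
  have hfb : ∀ S : Finset ℕ, ∑ n ∈ S, f n ≤ 12 * (2 / δ) ^ (2 * P ^ 2 + P ^ 4 + 1) / H := by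
    intro S
    obtain ⟨N, hN⟩ := S.exists_nat_subset_range
    have h1 : ∑ n ∈ S, f n ≤ ∑ n ∈ Icc 1 N, f n := by
      calc ∑ n ∈ S, f n ≤ ∑ n ∈ range (N + 1), f n := by
            refine sum_le_sum_of_subset_of_nonneg ?_ fun n _ _ => hf0 n
            intro n hn
            have := mem_range.1 (hN hn)
            exact mem_range.2 (by omega)
        _ = ∑ n ∈ Icc 1 N, f n := by
            symm
            refine sum_subset ?_ ?_
            · intro n hn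
              rw [mem_Icc] at hn
              exact mem_range.2 (by omega)
            · intro n hn hn'
              rw [mem_range] at hn
              rw [mem_Icc] at hn'
              have : n = 0 := by omega
              rw [this, hf00]
    refine h1.trans ?_
    rw [hf, ← mul_sum]
    have h2 := off hP hδ hδ1 N
    calc 2 / H * _ ≤ 2 / H * (6 * (2 / δ) ^ (2 * P ^ 2 + P ^ 4 + 1)) :=
          mul_le_mul_of_nonneg_left h2 (by positivity)
      _ = _ := by ring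
  have hfs : Summable f := summable_of_sum_le hf0 hfb
  have h1 := ((DD_hasSum hA hB hδ hδ1 H).mul_left (1 / (H:ℂ) ^ 2)).sub (dg_hasSum hA hB hδ hδ1)
  rw [← h1.tsum_eq]
  exact (tsum_of_norm_bounded hfs.hasSum fun n => term_bd hA hB δ n hH).trans
    (hfs.tsum_le_of_sum_le hfb)

end

end Run7.h518.SW
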