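import Mathlib

/-!
# A maximal inequality for means over windows (helper518)

The chaining of Rademacher and Menshov over the dyadic lengths.
-/

set_option autoImplicit false

namespace Run7.h518.SW

open Finset MeasureTheory Complex

noncomputable section

/-- the integral over a window -/
def sw (G : ℝ → ℂ) (h x : ℝ) : ℂ := ∫ u in (0:ℝ)..h, G (x + u)

lemma bdd_int {G : ℝ → ℂ} (hG : Measurable G) {M : ℝ} (hM : ∀ t, ‖G t‖ ≤ M) (x a b : ℝ) :
    IntervalIntegrable (fun u => G (x + u)) volume a b := by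
  have h1 : Measurable fun u => G (x + u) := hG.comp (measurable_const.add measurable_id)
  rw [intervalIntegrable_iff]
  exact Measure.integrableOn_of_bounded (M := M) (by
    rw [Real.volume_uIoc]
    exact ENNReal.ofReal_ne_top) h1.aestronglyMeasurable
    (Filter.Eventually.of_forall fun u => hM _)

lemma sw_add {G : ℝ → ℂ} (hG : Measurable G) {M : ℝ} (hM : ∀ t, ‖G t‖ ≤ M) (h1 h2 x : ℝ) :
    sw G (h1 + h2) x = sw G h1 x + sw G h2 (x + h1) := by
  unfold sw
  have e1 : ∫ u in (0:ℝ)..h2, G (x + h1 + u) = ∫ u in h1..(h1 + h2), G (x + u) := by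
    have h := intervalIntegral.integral_comp_add_left (a := 0) (b := h2) (fun u => G (x + u)) h1
    rw [add_zero] at h
    rw [← h]
    refine intervalIntegral.integral_congr fun u _ => ?_
    show G (x + h1 + u) = G (x + (h1 + u))
    rw [add_assoc]
  rw [e1, intervalIntegral.integral_add_adjacent_intervals (bdd_int hG hM x 0 h1)
    (bdd_int hG hM x h1 (h1 + h2))]

lemma sw_meas {G : ℝ → ℂ} (hG : Measurable G) {h : ℝ} (hh : 0 ≤ h) : Measurable (sw G h) := by
  unfold sw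
  simp_rw [intervalIntegral.integral_of_le hh]
  have h1 : StronglyMeasurable (Function.uncurry fun t u : ℝ => G (t + u)) :=
    (hG.comp (measurable_fst.add measurable_snd)).stronglyMeasurable
  exact (StronglyMeasurable.integral_prod_right (ν := volume.restrict (Set.Ioc 0 h)) h1).measurable

lemma sw_le {G : ℝ → ℂ} {M : ℝ} (hM : ∀ t, ‖G t‖ ≤ M) {h : ℝ} (hh : 0 ≤ h) (x : ℝ) :
    ‖sw G h x‖ ≤ M * h := by
  unfold sw
  have h1 := intervalIntegral.norm_integral_le_of_norm_le_const (a := 0) (b := h)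
    (f := fun u => G (x + u)) (C := M) fun u _ => hM _
  rwa [sub_zero, abs_of_nonneg hh] at h1

/-- the mean square over the unit interval -/
def q0 (G : ℝ → ℂ) (x : ℝ) : ℝ := ∫ u in (0:ℝ)..1, ‖G (x + u)‖ ^ 2

lemma nsq_int {G : ℝ → ℂ} (hG : Measurable G) {M : ℝ} (hM : ∀ t, ‖G t‖ ≤ M) (x a b : ℝ) :
    IntervalIntegrable (fun u => ‖G (x + u)‖ ^ 2) volume a b := by
  have h1 : Measurable fun u => ‖G (x + u)‖ ^ 2 :=
    ((hG.comp (measurable_const.add measurable_id)).norm).pow_const 2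
  rw [intervalIntegrable_iff]
  exact Measure.integrableOn_of_bounded (M := M ^ 2) (by
    rw [Real.volume_uIoc]
    exact ENNReal.ofReal_ne_top) h1.aestronglyMeasurable
    (Filter.Eventually.of_forall fun u => by
      rw [Real.norm_of_nonneg (by positivity)]
      exact pow_le_pow_left₀ (norm_nonneg _) (hM _) 2)

lemma nn_int {G : ℝ → ℂ} (hG : Measurable G) {M : ℝ} (hM : ∀ t, ‖G t‖ ≤ M) (x a b : ℝ) :
    IntervalIntegrable (fun u => ‖G (x + u)‖) volume a b := (bdd_int hG hM x a b).norm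

lemma sw_unit {G : ℝ → ℂ} (hG : Measurable G) {M : ℝ} (hM : ∀ t, ‖G t‖ ≤ M) (x : ℝ) {h : ℝ}
    (h0 : 0 ≤ h) (h1 : h ≤ 1) : ‖sw G h x‖ ^ 2 ≤ q0 G x := by
  set I1 : ℝ := ∫ u in (0:ℝ)..h, ‖G (x + u)‖ with hI1
  set I2 : ℝ := ∫ u in (0:ℝ)..h, ‖G (x + u)‖ ^ 2 with hI2
  have e1 : ‖sw G h x‖ ≤ I1 := intervalIntegral.norm_integral_le_integral_norm h0
  have e2 : I2 ≤ q0 G x := by
    refine intervalIntegral.integral_mono_interval le_rfl h0 h1 ?_ (nsq_int hG hM x 0 1)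
    exact Filter.Eventually.of_forall fun u => by positivity
  have e3 : 0 ≤ ∫ u in (0:ℝ)..h, (‖G (x + u)‖ - I1) ^ 2 :=
    intervalIntegral.integral_nonneg h0 fun u _ => by positivity
  have e4 : ∫ u in (0:ℝ)..h, (‖G (x + u)‖ - I1) ^ 2 = I2 - 2 * I1 * I1 + I1 ^ 2 * h := by
    have e5 : ∀ u, (‖G (x + u)‖ - I1) ^ 2 = (‖G (x + u)‖ ^ 2 - 2 * I1 * ‖G (x + u)‖) + I1 ^ 2 := by
      intro u
      ring
    simp_rw [e5]
    have i1 := nsq_int hG hM x 0 h
    have i2 : IntervalIntegrable (fun u => 2 * I1 * ‖G (x + u)‖) volume 0 h :=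
      (nn_int hG hM x 0 h).const_mul _
    rw [intervalIntegral.integral_add (i1.sub i2) intervalIntegrable_const,
      intervalIntegral.integral_sub i1 i2, intervalIntegral.integral_const_mul,
      intervalIntegral.integral_const, sub_zero, smul_eq_mul]
    ring
  rw [e4] at e3
  have e6 : 0 ≤ I1 := (norm_nonneg _).trans e1
  have e7 : I1 ^ 2 * h ≤ I1 ^ 2 := mul_le_of_le_one_right (by positivity) h1
  have e8 : ‖sw G h x‖ ^ 2 ≤ I1 ^ 2 := pow_le_pow_left₀ (norm_nonneg _) e1 2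
  nlinarith

/-- the sums of squares over the dyadic windows -/
def QQ (G : ℝ → ℂ) : ℕ → ℝ → ℝ
  | 0, x => q0 G x
  | J + 1, x => QQ G J x + QQ G J (x + 2 ^ J) + ‖sw G (2 ^ (J + 1)) x‖ ^ 2

lemma QQ_nonneg (G : ℝ → ℂ) (J : ℕ) (x : ℝ) : 0 ≤ QQ G J x := by
  induction J generalizing x with
  | zero =>
    exact intervalIntegral.integral_nonneg zero_le_one fun u _ => by positivity
  | succ J ih =>
    have h1 := ih x
    have h2 := ih (x + 2 ^ J)
    show 0 ≤ QQ G J x + QQ G J (x + 2 ^ J) + ‖sw G (2 ^ (J + 1)) x‖ ^ 2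
    positivity

lemma QQ_top {G : ℝ → ℂ} (hG : Measurable G) {M : ℝ} (hM : ∀ t, ‖G t‖ ≤ M) (J : ℕ) (x : ℝ) :
    ‖sw G (2 ^ J) x‖ ^ 2 ≤ QQ G J x := by
  cases J with
  | zero =>
    rw [pow_zero]
    exact sw_unit hG hM x zero_le_one le_rfl
  | succ J =>
    have h1 := QQ_nonneg G J x
    have h2 := QQ_nonneg G J (x + 2 ^ J)
    show _ ≤ QQ G J x + QQ G J (x + 2 ^ J) + ‖sw G (2 ^ (J + 1)) x‖ ^ 2
    linarith

/-- **The maximal inequality over the dyadic scales.** -/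
theorem chain {G : ℝ → ℂ} (hG : Measurable G) {M : ℝ} (hM : ∀ t, ‖G t‖ ≤ M) (J : ℕ) (x : ℝ)
    {h : ℝ} (h0 : 0 ≤ h) (h1 : h ≤ 2 ^ J) : ‖sw G h x‖ ^ 2 ≤ (J + 1) * QQ G J x := by
  induction J generalizing x h with
  | zero =>
    rw [pow_zero] at h1
    simp only [Nat.cast_zero, zero_add, one_mul]
    exact sw_unit hG hM x h0 h1
  | succ J ih =>
    have a1 := QQ_nonneg G J x
    have a2 := QQ_nonneg G J (x + 2 ^ J)
    have a4 : 0 ≤ ‖sw G (2 ^ (J + 1)) x‖ ^ 2 := by positivity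
    have a5 : QQ G (J + 1) x = QQ G J x + QQ G J (x + 2 ^ J) + ‖sw G (2 ^ (J + 1)) x‖ ^ 2 := rfl
    have hJ : (0:ℝ) ≤ J := Nat.cast_nonneg J
    rcases le_or_gt h (2 ^ J) with h2 | h2
    · have h3 := ih x h0 h2
      rw [a5]
      push_cast
      nlinarith
    · have h3 : h = 2 ^ J + (h - 2 ^ J) := by ring
      have h4 : 0 ≤ h - 2 ^ J := by linarith
      have h5 : h - 2 ^ J ≤ 2 ^ J := by
        rw [pow_succ] at h1
        linarith
      have h6 := ih (x + 2 ^ J) h4 h5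
      have h7 := QQ_top hG hM J x
      have h8 : ‖sw G h x‖ ≤ ‖sw G (2 ^ J) x‖ + ‖sw G (h - 2 ^ J) (x + 2 ^ J)‖ := by
        conv_lhs => rw [h3]
        rw [sw_add hG hM]
        exact norm_add_le _ _
      set α := ‖sw G (2 ^ J) x‖ with hα
      set β := ‖sw G (h - 2 ^ J) (x + 2 ^ J)‖ with hβ
      have h9 : ‖sw G h x‖ ^ 2 ≤ (α + β) ^ 2 := pow_le_pow_left₀ (norm_nonneg _) h8 2
      have hJ1 : (0:ℝ) < J + 1 := by positivity
      have h10 : (α + β) ^ 2 ≤ (J + 2) * α ^ 2 + (J + 2) / (J + 1) * β ^ 2 := by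
        have e : (J + 2) * α ^ 2 + (J + 2) / (J + 1) * β ^ 2 - (α + β) ^ 2 =
            ((J + 1) * α - β) ^ 2 / (J + 1) := by
          field_simp
          ring
        have e2 : 0 ≤ ((J + 1) * α - β) ^ 2 / (J + 1) := by positivity
        linarith
      have h11 : (J + 2) / (J + 1) * β ^ 2 ≤ (J + 2) * QQ G J (x + 2 ^ J) := by
        calc (J + 2) / (J + 1) * β ^ 2 ≤ (J + 2) / (J + 1) * ((J + 1) * QQ G J (x + 2 ^ J)) :=
              mul_le_mul_of_nonneg_left h6 (by positivity)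
          _ = _ := by field_simp
      rw [a5]
      push_cast
      nlinarith

lemma QQ_meas {G : ℝ → ℂ} (hG : Measurable G) (J : ℕ) : Measurable (QQ G J) := by
  induction J with
  | zero =>
    show Measurable (q0 G)
    unfold q0
    simp_rw [intervalIntegral.integral_of_le zero_le_one]
    have h1 : StronglyMeasurable (Function.uncurry fun t u : ℝ => ‖G (t + u)‖ ^ 2) :=
      (((hG.comp (measurable_fst.add measurable_snd)).norm).pow_const 2).stronglyMeasurable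
    exact (StronglyMeasurable.integral_prod_right (ν := volume.restrict (Set.Ioc 0 1)) h1).measurable
  | succ J ih =>
    have h1 : Measurable fun x => QQ G J (x + 2 ^ J) := ih.comp (measurable_id.add measurable_const)
    have h2 : Measurable fun x => ‖sw G (2 ^ (J + 1)) x‖ ^ 2 :=
      ((sw_meas hG (by positivity)).norm).pow_const 2
    exact (ih.add h1).add h2

lemma QQ_bdd {G : ℝ → ℂ} {M : ℝ} (hM : ∀ t, ‖G t‖ ≤ M) (J : ℕ) :
    ∃ R : ℝ, ∀ x, QQ G J x ≤ R := by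
  induction J with
  | zero =>
    refine ⟨M ^ 2, fun x => ?_⟩
    have h1 := intervalIntegral.norm_integral_le_of_norm_le_const (a := 0) (b := 1)
      (f := fun u => ‖G (x + u)‖ ^ 2) (C := M ^ 2) fun u _ => by
        rw [Real.norm_of_nonneg (by positivity)]
        exact pow_le_pow_left₀ (norm_nonneg _) (hM _) 2
    have h2 : QQ G 0 x = ∫ u in (0:ℝ)..1, ‖G (x + u)‖ ^ 2 := rfl
    rw [h2]
    refine (Real.le_norm_self _).trans (h1.trans ?_)
    rw [sub_zero, abs_one, mul_one]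
  | succ J ih =>
    obtain ⟨R, hR⟩ := ih
    refine ⟨R + R + (M * 2 ^ (J + 1)) ^ 2, fun x => ?_⟩
    have h1 : ‖sw G (2 ^ (J + 1)) x‖ ^ 2 ≤ (M * 2 ^ (J + 1)) ^ 2 :=
      pow_le_pow_left₀ (norm_nonneg _) (sw_le hM (by positivity) x) 2
    have h2 : QQ G (J + 1) x = QQ G J x + QQ G J (x + 2 ^ J) + ‖sw G (2 ^ (J + 1)) x‖ ^ 2 := rfl
    rw [h2]
    linarith [hR x, hR (x + 2 ^ J)]

lemma QQ_integrable {G : ℝ → ℂ} (hG : Measurable G) {M : ℝ} (hM : ∀ t, ‖G t‖ ≤ M) (J : ℕ)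
    (m T : ℝ) : Integrable (fun t => QQ G J (t + m)) (volume.restrict (Set.Ioc 0 T)) := by
  obtain ⟨R, hR⟩ := QQ_bdd hM J
  refine Integrable.of_bound (((QQ_meas hG J).comp
    (measurable_id.add measurable_const)).aestronglyMeasurable) R
    (Filter.Eventually.of_forall fun t => ?_)
  rw [Real.norm_of_nonneg (QQ_nonneg _ _ _)]
  exact hR _

/-- **The mean of the sums of squares.** -/
theorem QQ_mean {G : ℝ → ℂ} (hG : Measurable G) {M : ℝ} (hM : ∀ t, ‖G t‖ ≤ M) {T X A ε : ℝ}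
    (h0 : ∀ m : ℝ, 0 ≤ m → m + 1 ≤ X → ∫ t in Set.Ioc 0 T, q0 G (t + m) ≤ A)
    (h1 : ∀ m h : ℝ, 0 ≤ m → 1 ≤ h → m + h ≤ X →
      ∫ t in Set.Ioc 0 T, ‖sw G h (t + m)‖ ^ 2 ≤ A * h + ε * h ^ 2) (hε : 0 ≤ ε) (J : ℕ) (m : ℝ)
    (hm : 0 ≤ m) (hX : m + 2 ^ J ≤ X) :
    ∫ t in Set.Ioc 0 T, QQ G J (t + m) ≤ 2 ^ J * ((J + 1) * A + 2 ^ (J + 1) * ε) := by
  induction J generalizing m with
  | zero =>
    rw [pow_zero] at hX
    have h2 := h0 m hm hX
    have h3 : ∫ t in Set.Ioc 0 T, QQ G 0 (t + m) = ∫ t in Set.Ioc 0 T, q0 G (t + m) := rfl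
    rw [h3]
    simp only [Nat.cast_zero, zero_add, pow_one, pow_zero, one_mul]
    linarith
  | succ J ih =>
    have e0 : (2:ℝ) ^ (J + 1) = 2 ^ J + 2 ^ J := by
      rw [pow_succ]
      ring
    have hp : (1:ℝ) ≤ 2 ^ J := one_le_pow₀ (by norm_num)
    have i1 := QQ_integrable hG hM J m T
    have i2 := QQ_integrable hG hM J (m + 2 ^ J) T
    have i3 : Integrable (fun t => ‖sw G (2 ^ (J + 1)) (t + m)‖ ^ 2)
        (volume.restrict (Set.Ioc 0 T)) := by
      refine Integrable.of_bound ((((sw_meas hG (by positivity)).comp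
        (measurable_id.add measurable_const)).norm.pow_const 2).aestronglyMeasurable)
        ((M * 2 ^ (J + 1)) ^ 2) (Filter.Eventually.of_forall fun t => ?_)
      rw [Real.norm_of_nonneg (by positivity)]
      exact pow_le_pow_left₀ (norm_nonneg _) (sw_le hM (by positivity) _) 2
    have e1 : ∫ t in Set.Ioc 0 T, QQ G (J + 1) (t + m) =
        (∫ t in Set.Ioc 0 T, QQ G J (t + m)) + (∫ t in Set.Ioc 0 T, QQ G J (t + (m + 2 ^ J))) +
          ∫ t in Set.Ioc 0 T, ‖sw G (2 ^ (J + 1)) (t + m)‖ ^ 2 := by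
      have i12 : Integrable (fun t => QQ G J (t + m) + QQ G J (t + (m + 2 ^ J)))
        (volume.restrict (Set.Ioc 0 T)) := i1.add i2
      rw [← integral_add i1 i2, ← integral_add i12 i3]
      refine integral_congr_ae (Filter.Eventually.of_forall fun t => ?_)
      show QQ G J (t + m) + QQ G J (t + m + 2 ^ J) + ‖sw G (2 ^ (J + 1)) (t + m)‖ ^ 2 = _
      rw [add_assoc t m]
    have b1 := ih m hm (by rw [e0] at hX; linarith)
    have b2 := ih (m + 2 ^ J) (by linarith) (by rw [e0] at hX; linarith)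
    have b3 := h1 m (2 ^ (J + 1)) hm (by rw [e0]; linarith) hX
    rw [e1]
    have e2 : (2:ℝ) ^ (J + 1 + 1) = 4 * 2 ^ J := by
      rw [pow_succ, pow_succ]
      ring
    rw [e2]
    rw [e0] at b1 b2 b3 ⊢
    push_cast
    nlinarith [mul_nonneg (sq_nonneg ((2:ℝ) ^ J)) hε]

end

end Run7.h518.SW
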