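import Pool.Agent.Run7.h518.SW.Pow
import Pool.Agent.H306R2.EPLim

/-!
# The mean value of |zeta|^(2k) in closed form (helper518)
-/

set_option autoImplicit false

namespace Run7.h518.SW

open Finset MeasureTheory Complex Filter Topology
open Pool.Agent.H306R2 hiding wt
open Pool.Agent.Y746.OA Pool.Agent.Y746.CS

noncomputable section

lemma tw1_zero_pp {p : ℕ} (hp : p.Prime) (n : ℕ) : tw1 1 0 (p ^ n) = 1 := by
  rw [tw1_val 0 (pow_ne_zero n hp.ne_zero)]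
  simp

lemma Tk_zero_succ (k : ℕ) : Tk (0 : Fin (k + 1) → ℝ) = Tk (0 : Fin k → ℝ) * tw1 1 0 := by
  unfold Tk
  rw [Fin.prod_univ_succ, mul_comm]
  rfl

lemma Tk_zero_pp (k : ℕ) {p : ℕ} (hp : p.Prime) (m : ℕ) :
    Tk (0 : Fin (k + 1) → ℝ) (p ^ m) = (((m + k).choose k : ℕ) : ℂ) := by
  induction k generalizing m with
  | zero =>
    rw [Tk_zero_succ]
    have h : Tk (0 : Fin 0 → ℝ) = 1 := by
      unfold Tk
      simp
    rw [h, one_mul, tw1_zero_pp hp]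
    simp
  | succ k ih =>
    rw [Tk_zero_succ, mul_pp _ _ hp]
    simp_rw [tw1_zero_pp hp, mul_one, ih]
    rw [Finset.Nat.sum_antidiagonal_eq_sum_range_succ
      (fun i _ => (((i + k).choose k : ℕ) : ℂ))]
    have h := Nat.sum_range_add_choose m k
    rw [← Nat.cast_sum]
    congr 1

/-- the local sum `∑ C(m+k-1,m)^2 x^m` -/
def loc (k : ℕ) (x : ℝ) : ℝ := ∑' m : ℕ, (((m + k - 1).choose m : ℕ) : ℝ) ^ 2 * x ^ m

lemma Tk_zero_pp' {k : ℕ} (hk : 1 ≤ k) {p : ℕ} (hp : p.Prime) (m : ℕ) :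
    Tk (0 : Fin k → ℝ) (p ^ m) = (((m + k - 1).choose m : ℕ) : ℂ) := by
  obtain ⟨K, rfl⟩ : ∃ K, k = K + 1 := ⟨k - 1, by omega⟩
  rw [Tk_zero_pp K hp m, show m + (K + 1) - 1 = m + K by omega, Nat.choose_symm_add]

lemma local_eq {k : ℕ} (hk : 1 ≤ k) {p : ℕ} (hp : p.Prime) (δ : ℝ) :
    ∑' e : ℕ, Tk (0 : Fin k → ℝ) (p ^ e) *
      (starRingEnd ℂ) (Tk (0 : Fin k → ℝ) (p ^ e)) * w δ (p ^ e) =
      ((loc k ((p:ℝ) ^ (-(1 + 2 * δ))) : ℝ) : ℂ) := by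
  have hp0 : (0:ℝ) < p := by exact_mod_cast hp.pos
  unfold loc
  rw [Complex.ofReal_tsum]
  refine tsum_congr fun e => ?_
  rw [Tk_zero_pp' hk hp]
  have hw : w δ (p ^ e) = ((((p:ℝ) ^ (-(1 + 2 * δ))) ^ e : ℝ) : ℂ) := by
    unfold w
    congr 1
    rw [Nat.cast_pow, ← Real.rpow_natCast, ← Real.rpow_mul hp0.le,
      ← Real.rpow_natCast, ← Real.rpow_mul hp0.le]
    congr 1
    ring
  rw [hw, Complex.conj_natCast]
  push_cast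
  ring

/-- the main term -/
def MM (k : ℕ) (δ : ℝ) : ℝ := ‖riemannZeta (1 + 2 * δ)‖ ^ (k ^ 2) *
  ∏' p : Nat.Primes, ((1 - (p:ℝ) ^ (-(1 + 2 * δ))) ^ (k ^ 2) * loc k ((p:ℝ) ^ (-(1 + 2 * δ))))

lemma loc_nonneg (k : ℕ) {x : ℝ} (hx : 0 ≤ x) : 0 ≤ loc k x :=
  tsum_nonneg fun _ => by positivity

lemma x_pos (p : Nat.Primes) (s : ℝ) : 0 < ((p:ℕ):ℝ) ^ (-s) :=
  Real.rpow_pos_of_pos (by exact_mod_cast p.2.pos) _

lemma x_lt (p : Nat.Primes) {s : ℝ} (hs : 0 < s) : ((p:ℕ):ℝ) ^ (-s) < 1 :=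
  Real.rpow_lt_one_of_one_lt_of_neg (by exact_mod_cast p.2.one_lt) (by linarith)

lemma dd_real (k : ℕ) (δ : ℝ) :
    dd (Tk (0 : Fin k → ℝ)) (Tk (0 : Fin k → ℝ)) δ =
      ((‖dd (Tk (0 : Fin k → ℝ)) (Tk (0 : Fin k → ℝ)) δ‖ : ℝ) : ℂ) := by
  have h : dd (Tk (0 : Fin k → ℝ)) (Tk (0 : Fin k → ℝ)) δ =
      ((∑' n : ℕ, ‖Tk (0 : Fin k → ℝ) n‖ ^ 2 * (n:ℝ) ^ (-1 - 2 * δ) : ℝ) : ℂ) := by
    unfold dd
    rw [Complex.ofReal_tsum]
    refine tsum_congr fun n => ?_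
    rw [Complex.mul_conj, Complex.normSq_eq_norm_sq]
    unfold w
    push_cast
    rfl
  have h0 : (0:ℝ) ≤ ∑' n : ℕ, ‖Tk (0 : Fin k → ℝ) n‖ ^ 2 * (n:ℝ) ^ (-1 - 2 * δ) :=
    tsum_nonneg fun n => by positivity
  rw [h, Complex.norm_real, Real.norm_of_nonneg h0]

theorem dd_closed {k : ℕ} (hk : 1 ≤ k) {δ : ℝ} (hδ : 0 < δ) (hδ1 : δ ≤ 1) :
    dd (Tk (0 : Fin k → ℝ)) (Tk (0 : Fin k → ℝ)) δ = ((MM k δ : ℝ) : ℂ) := by
  have hre : 1 < (1 + 2 * (δ:ℂ)).re := by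
    simp
    exact hδ
  have hζ := riemannZeta_eulerProduct_hasProd hre
  have hz0 : riemannZeta (1 + 2 * δ) ≠ 0 := riemannZeta_ne_zero_of_one_lt_re hre
  have h1 := ((hζ.inv₀ hz0).pow (k ^ 2)).mul (dd_euler (0 : Fin k → ℝ) (0 : Fin k → ℝ) hδ hδ1)
  have h2 := h1.norm
  have h3 : HasProd (fun p : Nat.Primes => (1 - (p:ℝ) ^ (-(1 + 2 * δ))) ^ (k ^ 2) *
      loc k ((p:ℝ) ^ (-(1 + 2 * δ))))
      ‖((riemannZeta (1 + 2 * δ))⁻¹) ^ (k ^ 2) *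
        dd (Tk (0 : Fin k → ℝ)) (Tk (0 : Fin k → ℝ)) δ‖ := by
    refine h2.congr_fun ?_
    intro p
    have hx0 := x_pos p (1 + 2 * δ)
    have hx1 := x_lt p (s := 1 + 2 * δ) (by linarith)
    rw [local_eq hk p.2, norm_mul, norm_pow, inv_inv, Complex.norm_real,
      Real.norm_of_nonneg (loc_nonneg k hx0.le)]
    have e : (1 - (p:ℂ) ^ (-(1 + 2 * (δ:ℂ)))) = ((1 - (p:ℝ) ^ (-(1 + 2 * δ)) : ℝ) : ℂ) := by
      rw [Complex.ofReal_sub, Complex.ofReal_one, Complex.ofReal_cpow (Nat.cast_nonneg _)]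
      push_cast
      rfl
    rw [e, Complex.norm_real, Real.norm_of_nonneg (by linarith)]
  rw [dd_real]
  congr 1
  unfold MM
  rw [h3.tprod_eq, norm_mul, norm_pow, norm_inv]
  have hz1 : ‖riemannZeta (1 + 2 * δ)‖ ≠ 0 := norm_ne_zero_iff.2 hz0
  rw [inv_pow, ← mul_assoc, mul_inv_cancel₀ (pow_ne_zero _ hz1), one_mul]

/-! ### the sums for `k = 3, 4` -/

lemma choose_cast (m : ℕ) :
    (((m + 2).choose 2 : ℕ) : ℝ) = (m + 1) * (m + 2) / 2 ∧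
    (((m + 3).choose 3 : ℕ) : ℝ) = (m + 1) * (m + 2) * (m + 3) / 6 ∧
    (((m + 4).choose 4 : ℕ) : ℝ) = (m + 1) * (m + 2) * (m + 3) * (m + 4) / 24 ∧
    (((m + 5).choose 5 : ℕ) : ℝ) = (m + 1) * (m + 2) * (m + 3) * (m + 4) * (m + 5) / 120 ∧
    (((m + 6).choose 6 : ℕ) : ℝ) =
      (m + 1) * (m + 2) * (m + 3) * (m + 4) * (m + 5) * (m + 6) / 720 := by
  have h : ∀ j : ℕ, (((m + 1).ascFactorial j : ℕ) : ℝ) =
      ((j.factorial : ℕ) : ℝ) * (((m + j).choose j : ℕ) : ℝ) := by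
    intro j
    have := Nat.ascFactorial_eq_factorial_mul_choose m j
    exact_mod_cast this
  have h2 := h 2
  have h3 := h 3
  have h4 := h 4
  have h5 := h 5
  have h6 := h 6
  simp only [Nat.ascFactorial_succ, Nat.ascFactorial_zero, Nat.factorial] at h2 h3 h4 h5 h6
  push_cast at h2 h3 h4 h5 h6
  refine ⟨?_, ?_, ?_, ?_, ?_⟩ <;> nlinarith [h2, h3, h4, h5, h6]

lemma loc3 {x : ℝ} (hx : |x| < 1) : loc 3 x = (1 + 4 * x + x ^ 2) / (1 - x) ^ 5 := by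
  have hx' : ‖x‖ < 1 := hx
  have h1 : (1 - x) ≠ 0 := by
    have := (abs_lt.1 hx).2
    linarith
  have s4 := (hasSum_choose_mul_geometric_of_norm_lt_one 4 hx').mul_left 6
  have s3 := (hasSum_choose_mul_geometric_of_norm_lt_one 3 hx').mul_left 6
  have s2 := hasSum_choose_mul_geometric_of_norm_lt_one 2 hx'
  have s := (s4.sub s3).add s2
  have e : (fun m : ℕ => (((m + 3 - 1).choose m : ℕ) : ℝ) ^ 2 * x ^ m) = fun m : ℕ =>
      6 * (((m + 4).choose 4 : ℕ) * x ^ m) - 6 * (((m + 3).choose 3 : ℕ) * x ^ m) +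
      ((m + 2).choose 2 : ℕ) * x ^ m := by
    funext m
    obtain ⟨c2, c3, c4, -, -⟩ := choose_cast m
    rw [show m + 3 - 1 = m + 2 by omega, Nat.choose_symm_add, c2, c3, c4]
    ring
  unfold loc
  rw [e, s.tsum_eq]
  field_simp
  ring

lemma loc4 {x : ℝ} (hx : |x| < 1) :
    loc 4 x = (1 + 9 * x + 9 * x ^ 2 + x ^ 3) / (1 - x) ^ 7 := by
  have hx' : ‖x‖ < 1 := hx
  have h1 : (1 - x) ≠ 0 := by
    have := (abs_lt.1 hx).2
    linarith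
  have s6 := (hasSum_choose_mul_geometric_of_norm_lt_one 6 hx').mul_left 20
  have s5 := (hasSum_choose_mul_geometric_of_norm_lt_one 5 hx').mul_left 30
  have s4 := (hasSum_choose_mul_geometric_of_norm_lt_one 4 hx').mul_left 12
  have s3 := hasSum_choose_mul_geometric_of_norm_lt_one 3 hx'
  have s := ((s6.sub s5).add s4).sub s3
  have e : (fun m : ℕ => (((m + 4 - 1).choose m : ℕ) : ℝ) ^ 2 * x ^ m) = fun m : ℕ =>
      20 * (((m + 6).choose 6 : ℕ) * x ^ m) - 30 * (((m + 5).choose 5 : ℕ) * x ^ m) +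
      12 * (((m + 4).choose 4 : ℕ) * x ^ m) - ((m + 3).choose 3 : ℕ) * x ^ m := by
    funext m
    obtain ⟨-, c3, c4, c5, c6⟩ := choose_cast m
    rw [show m + 4 - 1 = m + 3 by omega, Nat.choose_symm_add, c3, c4, c5, c6]
    ring
  unfold loc
  rw [e, s.tsum_eq]
  field_simp
  ring

lemma MM3 {δ : ℝ} (hδ : 0 < δ) : MM 3 δ = ‖riemannZeta (1 + 2 * δ)‖ ^ 9 *
    ∏' p : Nat.Primes, ((1 - (p:ℝ) ^ (-(1 + 2 * δ))) ^ 4 *
      (1 + 4 * (p:ℝ) ^ (-(1 + 2 * δ)) + ((p:ℝ) ^ (-(1 + 2 * δ))) ^ 2)) := by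
  unfold MM
  congr 1
  refine tprod_congr fun p => ?_
  have hx0 := x_pos p (1 + 2 * δ)
  have hx1 := x_lt p (s := 1 + 2 * δ) (by linarith)
  rw [loc3 (by rw [abs_of_pos hx0]; exact hx1)]
  have h : 1 - (p:ℝ) ^ (-(1 + 2 * δ)) ≠ 0 := by linarith
  field_simp
  norm_num

lemma MM4 {δ : ℝ} (hδ : 0 < δ) : MM 4 δ = ‖riemannZeta (1 + 2 * δ)‖ ^ 16 *
    ∏' p : Nat.Primes, ((1 - (p:ℝ) ^ (-(1 + 2 * δ))) ^ 9 *
      (1 + 9 * (p:ℝ) ^ (-(1 + 2 * δ)) + 9 * ((p:ℝ) ^ (-(1 + 2 * δ))) ^ 2 +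
        ((p:ℝ) ^ (-(1 + 2 * δ))) ^ 3)) := by
  unfold MM
  congr 1
  refine tprod_congr fun p => ?_
  have hx0 := x_pos p (1 + 2 * δ)
  have hx1 := x_lt p (s := 1 + 2 * δ) (by linarith)
  rw [loc4 (by rw [abs_of_pos hx0]; exact hx1)]
  have h : 1 - (p:ℝ) ^ (-(1 + 2 * δ)) ≠ 0 := by linarith
  field_simp
  norm_num

/-! ### the limit at the line -/

lemma Tk_zero_val (k n : ℕ) : Tk (0 : Fin k → ℝ) n = ((dv k n : ℝ) : ℂ) := by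
  induction k generalizing n with
  | zero =>
    have h : Tk (0 : Fin 0 → ℝ) = 1 := by
      unfold Tk
      simp
    rw [h, Nat.cast_zero, ← dA_apply, dA_zero, ArithmeticFunction.one_apply,
      ArithmeticFunction.one_apply]
    split_ifs <;> simp
  | succ k ih =>
    rw [Tk_zero_succ, Nat.cast_succ, ← dA_apply, ← dA_mul, ArithmeticFunction.mul_apply,
      ArithmeticFunction.mul_apply, Complex.ofReal_sum]
    refine sum_congr rfl fun x hx => ?_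
    have hx2 : x.2 ≠ 0 := by
      have := Nat.mem_divisorsAntidiagonal.1 hx
      intro h
      rw [h, mul_zero] at this
      exact this.2 this.1.symm
    rw [ih, tw1_apply, dA_apply, dA_apply]
    push_cast
    simp

lemma lc_nat {k : ℕ} (hk : 1 ≤ k) (m : ℕ) : lc k m = (((m + k - 1).choose m : ℕ) : ℝ) := by
  have h1 := Tk_zero_pp' hk Nat.prime_two m
  rw [Tk_zero_val, dv_prime_pow _ Nat.prime_two] at h1
  exact_mod_cast h1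

lemma aF_nat {k : ℕ} (hk : 1 ≤ k) : aF k =
    ∏' p : Nat.Primes, ((1 - 1 / (p:ℝ)) ^ (k ^ 2) * loc k (1 / (p:ℝ))) := by
  unfold aF loc
  refine tprod_congr fun p => ?_
  congr 1
  · rw [show ((k:ℝ)) ^ 2 = ((k ^ 2 : ℕ) : ℝ) by push_cast; rfl, Real.rpow_natCast]
  · refine tsum_congr fun m => ?_
    rw [lc_nat hk]

lemma dd_cf (k : ℕ) {δ : ℝ} :
    dd (Tk (0 : Fin k → ℝ)) (Tk (0 : Fin k → ℝ)) δ =
      ((∑' n : ℕ, cf (fun _ : Fin 1 => (k:ℝ)) (fun _ => 2 * δ) n : ℝ) : ℂ) := by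
  unfold dd
  rw [Complex.ofReal_tsum]
  refine tsum_congr fun n => ?_
  rw [Tk_zero_val, Complex.conj_ofReal]
  unfold cf Gs w
  rw [Fin.prod_univ_one, Fin.sum_univ_one, tw_apply, ← Complex.ofReal_mul, ← Complex.ofReal_mul]
  congr 1
  rcases Nat.eq_zero_or_pos n with h | h
  · subst h
    simp [dv]
  · have hn : (0:ℝ) < n := by exact_mod_cast h
    rw [show -1 - 2 * δ = -(2 * δ) - 1 by ring, Real.rpow_sub hn, Real.rpow_one]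
    ring

/-- **The main term near the line.** -/
theorem MM_tendsto {k : ℕ} (hk : 1 ≤ k) :
    Tendsto (fun δ : ℝ => (2 * δ) ^ (k ^ 2) * MM k δ) (𝓝[>] 0)
      (𝓝 (∏' p : Nat.Primes, ((1 - 1 / (p:ℝ)) ^ (k ^ 2) * loc k (1 / (p:ℝ))))) := by
  have hk0 : (0:ℝ) < k := by exact_mod_cast hk
  have h := cf_tsum_tendsto (fun _ : Fin 1 => (k:ℝ)) (fun _ => hk0) (fun _ => 2) (fun _ => two_pos)
  simp only [Fin.sum_univ_one, Fin.prod_univ_one] at h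
  have h2 := (h.comp tendsto_inv_nhdsGT_zero).const_mul ((2:ℝ) ^ ((k:ℝ) ^ 2))
  have e : (2:ℝ) ^ ((k:ℝ) ^ 2) * (aF k * 2 ^ (-((k:ℝ) * k))) = aF k := by
    rw [← pow_two, Real.rpow_neg two_pos.le]
    have : (2:ℝ) ^ ((k:ℝ) ^ 2) ≠ 0 := (Real.rpow_pos_of_pos two_pos _).ne'
    field_simp
  rw [e, aF_nat hk] at h2
  refine h2.congr' ?_
  have h1 : ∀ᶠ δ : ℝ in 𝓝[>] 0, δ ∈ Set.Ioo (0:ℝ) 1 := Ioo_mem_nhdsGT one_pos
  filter_upwards [h1] with δ hδ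
  have hc := dd_closed hk hδ.1 hδ.2.le
  rw [dd_cf k] at hc
  have hc' : ∑' n : ℕ, cf (fun _ : Fin 1 => (k:ℝ)) (fun _ => 2 * δ) n = MM k δ := by
    exact_mod_cast hc
  simp only [Function.comp, div_inv_eq_mul]
  rw [hc', show ((k:ℝ)) ^ 2 = ((k ^ 2 : ℕ) : ℝ) by push_cast; rfl, Real.rpow_natCast,
    Real.rpow_natCast, mul_pow, inv_pow, div_inv_eq_mul]
  ring

lemma prime_inv (p : Nat.Primes) : |1 / ((p:ℕ):ℝ)| < 1 ∧ 1 - 1 / ((p:ℕ):ℝ) ≠ 0 := by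
  have h := inv_prime p.2
  constructor
  · rw [abs_of_pos h.1]
    linarith [h.2]
  · linarith [h.2]

lemma lim3 : ∏' p : Nat.Primes, ((1 - 1 / (p:ℝ)) ^ (3 ^ 2) * loc 3 (1 / (p:ℝ))) =
    ∏' p : Nat.Primes, ((1 - 1 / (p:ℝ)) ^ 4 * (1 + 4 * (1 / (p:ℝ)) + (1 / (p:ℝ)) ^ 2)) := by
  refine tprod_congr fun p => ?_
  obtain ⟨h1, h2⟩ := prime_inv p
  rw [loc3 h1]
  generalize 1 / ((p:ℕ):ℝ) = x at *
  field_simp
  norm_num

lemma lim4 : ∏' p : Nat.Primes, ((1 - 1 / (p:ℝ)) ^ (4 ^ 2) * loc 4 (1 / (p:ℝ))) =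
    ∏' p : Nat.Primes, ((1 - 1 / (p:ℝ)) ^ 9 * (1 + 9 * (1 / (p:ℝ)) + 9 * (1 / (p:ℝ)) ^ 2 +
      (1 / (p:ℝ)) ^ 3)) := by
  refine tprod_congr fun p => ?_
  obtain ⟨h1, h2⟩ := prime_inv p
  rw [loc4 h1]
  generalize 1 / ((p:ℕ):ℝ) = x at *
  field_simp
  norm_num

end

end Run7.h518.SW
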