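import Pool.Agent.Run7.h518.SW.Lines

/-!
# All the discs around the points of all the lines at once (helper518)
-/

set_option autoImplicit false

namespace Run7.h518.SW

open Finset MeasureTheory Complex Metric
open Pool.Agent.H306R2 hiding wt
open Pool.Agent.Y746.OA Pool.Agent.Y746.CS

noncomputable section

/-- from the points of one circle to the disc -/
lemma disc_step2 {k l : ℕ} (a : Fin k → ℝ) (b : Fin l → ℝ) {T L c c' e0 d δ : ℝ} {D E1 F N : ℕ}
    (hT4 : 4 ≤ T) (hL3 : 3 ≤ L) (hLT : L ≤ T) (he00 : 0 < e0) (h2e : 2 / e0 ≤ L)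
    (he : e0 ≤ 1 / 60) (hc'1 : c' ≤ 1 / 2) (hc'0 : 0 < c') (hc'2 : c' ≤ c / 2)
    (hE1 : 3 * (k + l) ≤ E1) (hE2 : 2 * (k + l + 1) ^ 2 ≤ E1) (hN1 : 1 ≤ N)
    (hN : T ^ (E1 + D + 6) ≤ 2 ^ N)
    (hd0 : 2 * e0 ≤ d) (hdδ : d ≤ δ) (hδd : δ ≤ d + e0 / 8) (hδ : δ ≤ 1 / 30)
    {z₀ : ℂ} (hz₀ : ‖z₀ - δ‖ ≤ 1 / (4 * L))
    {H t : ℝ} (ht : t ∈ Set.Ioc 0 T) (hFH : L ^ F ≤ H) (hH : H ≤ T ^ (c' * δ))
    (hg : DifferentiableOn ℂ (Ec a b H t) UU ∧
      ∀ w ∈ UU, ‖Ec a b H t w‖ ≤ (T ^ 3) ^ (k + l) + (2 / w.re) ^ ((k + l + 1) ^ 2))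
    (hgood : ∀ i < N, t ∉ badp a b T L c (1 / L ^ (D + 4)) F (cp (d:ℂ) (e0 / 2) N i)) :
    ‖Ec a b H t z₀‖ ≤ 1 / L ^ D := by
  have hL0 : 0 < L := by linarith
  have hTp : 0 < T := by linarith
  have hT1 : 1 ≤ T := by linarith
  have hr : (0:ℝ) < e0 / 2 := by linarith
  have hd1 : d ≤ 1 / 30 := hdδ.trans hδ
  have hball : ∀ w ∈ ball (d:ℂ) (3 * (e0 / 2)), w ∈ UU ∧ e0 / 2 ≤ w.re := by
    intro w hw
    rw [mem_ball, dist_eq_norm] at hw
    have h1 := Complex.abs_re_le_norm (w - d)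
    rw [Complex.sub_re, Complex.ofReal_re, abs_le] at h1
    have h2 : ‖w‖ ≤ ‖w - d‖ + ‖(d:ℂ)‖ := by
      have := norm_add_le (w - d) (d:ℂ)
      rwa [sub_add_cancel] at this
    rw [Complex.norm_real, Real.norm_of_nonneg (by linarith)] at h2
    refine ⟨⟨?_, ?_, ?_⟩, ?_⟩ <;> linarith [h1.1, h1.2]
  have hM : ∀ z ∈ ball (d:ℂ) (3 * (e0 / 2)), ‖Ec a b H t z‖ ≤ 2 * T ^ E1 := by
    intro z hz
    obtain ⟨hzU, hze⟩ := hball z hz
    refine (hg.2 z hzU).trans ?_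
    have h1 : (T ^ 3) ^ (k + l) ≤ T ^ E1 := by
      rw [← pow_mul]
      exact pow_le_pow_right₀ hT1 hE1
    have h2 : 2 / z.re ≤ T ^ 2 := by
      have h3 : 2 / z.re ≤ 2 / (e0 / 2) := div_le_div_of_nonneg_left (by norm_num) (by linarith) hze
      have h4 : 2 / (e0 / 2) = 2 * (2 / e0) := by
        field_simp
        try ring
      rw [h4] at h3
      nlinarith
    have h3 : (2 / z.re) ^ ((k + l + 1) ^ 2) ≤ T ^ E1 := by
      have h4 : 0 ≤ 2 / z.re := div_nonneg (by norm_num) (by linarith)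
      refine (pow_le_pow_left₀ h4 h2 _).trans ?_
      rw [← pow_mul]
      exact pow_le_pow_right₀ hT1 hE2
    linarith
  have hη : ∀ j < N, ‖Ec a b H t (cp (d:ℂ) (e0 / 2) N j)‖ ≤ 1 / L ^ (D + 4) := by
    intro i hi
    by_contra hcon
    push Not at hcon
    refine hgood i hi ⟨ht, H, hFH, hH.trans ?_, hcon⟩
    refine Real.rpow_le_rpow_of_exponent_le hT1 ?_
    have h1 := Complex.abs_re_le_norm (cp (d:ℂ) (e0 / 2) N i - d)
    rw [cp_sub _ hr, Complex.sub_re, Complex.ofReal_re, abs_le] at h1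
    have h2 : δ / 2 ≤ (cp (d:ℂ) (e0 / 2) N i).re := by linarith [h1.1]
    have h3 : 0 ≤ c := by linarith
    have h4 : 0 ≤ δ := by linarith
    calc c' * δ ≤ c / 2 * δ := mul_le_mul_of_nonneg_right hc'2 h4
      _ = c * (δ / 2) := by ring
      _ ≤ _ := mul_le_mul_of_nonneg_left h2 h3
  have key := net (f := Ec a b H t) (c := (d:ℂ)) (r := e0 / 2) (M := 2 * T ^ E1)
    (η := 1 / L ^ (D + 4)) hr (by positivity) (by positivity) hN1
    (hg.1.mono fun w hw => (hball w hw).1) hM hη (w := z₀) (by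
      have h1 : ‖(δ:ℂ) - d‖ ≤ e0 / 8 := by
        rw [← Complex.ofReal_sub, Complex.norm_real, Real.norm_of_nonneg (by linarith)]
        linarith
      have h2 : 1 / (4 * L) ≤ e0 / 8 := by
        rw [div_le_iff₀ he00] at h2e
        rw [div_le_div_iff₀ (by positivity) (by norm_num)]
        nlinarith
      have h3 := norm_add_le (z₀ - δ) ((δ:ℂ) - d)
      rw [sub_add_sub_cancel] at h3
      linarith)
  have h1 : 6 * (2 * T ^ E1) / 2 ^ N ≤ 1 / L ^ (D + 4) := by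
    rw [div_le_div_iff₀ (by positivity) (by positivity), one_mul]
    refine le_trans ?_ hN
    have h2 : L ^ (D + 4) ≤ T ^ (D + 4) := pow_le_pow_left₀ hL0.le hLT _
    have h3 : (12:ℝ) ≤ T ^ 2 := by nlinarith
    calc 6 * (2 * T ^ E1) * L ^ (D + 4) = T ^ E1 * (12 * L ^ (D + 4)) := by ring
      _ ≤ T ^ E1 * (T ^ 2 * T ^ (D + 4)) := by gcongr
      _ = T ^ (E1 + D + 6) := by ring
  have h2 : 3 * (1 / L ^ (D + 4)) ≤ 1 / L ^ D := by
    rw [mul_one_div, div_le_div_iff₀ (by positivity) (by positivity), one_mul, pow_add]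
    have h3 : (3:ℝ) ≤ L ^ 4 := by
      calc (3:ℝ) ≤ 3 ^ 4 := by norm_num
        _ ≤ L ^ 4 := pow_le_pow_left₀ (by norm_num) hL3 4
    have h4 : 0 < L ^ D := by positivity
    nlinarith
  linarith

/-- **All the discs, all the lines and all the windows at once.** -/
theorem all_discs (k l : ℕ) : ∃ c : ℝ, 0 < c ∧ c ≤ 1 ∧ ∀ D : ℕ, ∃ (F : ℕ) (C T0 : ℝ), 2 ≤ C ∧
    Real.exp (Real.exp 2) ≤ T0 ∧ ∀ T : ℝ, T0 ≤ T →
    (∀ δ : ℝ, C * Real.log (Real.log T) / Real.log T ≤ δ → δ ≤ 1 / 30 →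
      Real.log T ^ F ≤ T ^ (c * δ)) ∧
    ∀ (a : Fin k → ℝ) (b : Fin l → ℝ), (∀ j, |a j| ≤ T / 4) → (∀ j, |b j| ≤ T / 4) →
    volume {t | t ∈ Set.Ioc 0 T ∧ ∃ δ : ℝ, C * Real.log (Real.log T) / Real.log T ≤ δ ∧
      δ ≤ 1 / 30 ∧ ∃ H : ℝ, Real.log T ^ F ≤ H ∧ H ≤ T ^ (c * δ) ∧
      ∃ z : ℂ, ‖z - δ‖ ≤ 1 / (4 * Real.log T) ∧ 1 / Real.log T ^ D < ‖Ec a b H t z‖} ≤
      ENNReal.ofReal (T / Real.log T ^ D) := by
  obtain ⟨c, hc, h⟩ := untr_D k l
  set c' : ℝ := min c 1 / 2 with hc'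
  have hc'0 : 0 < c' := by
    have := lt_min hc one_pos
    positivity
  have hc'1 : c' ≤ 1 / 2 := by
    have := min_le_right c 1
    linarith
  have hc'2 : c' ≤ c / 2 := by
    have := min_le_left c 1
    linarith
  set κ : ℝ := 2 * max c 1 with hκ
  have hκ2 : 2 ≤ κ := by
    have := le_max_right c 1
    linarith
  have hcκ : c' * κ = c := by
    rw [hc', hκ]
    rcases le_total c 1 with h1 | h1
    · rw [min_eq_left h1, max_eq_right h1]
      ring
    · rw [min_eq_right h1, max_eq_left h1]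
      ring
  refine ⟨c', hc'0, by linarith, fun D => ?_⟩
  obtain ⟨F, C1, T1, hC1, hT1, g⟩ := h (D + 4)
  obtain ⟨T2, hT2, g2⟩ := Ec_good k l
  set E1 : ℕ := 3 * (k + l) + 2 * (k + l + 1) ^ 2 with hE1
  set E : ℕ := E1 + D + 6 with hE
  refine ⟨F, κ * C1, max (max T1 T2) (Real.exp (6 * E)), by nlinarith,
    hT1.trans ((le_max_left _ _).trans (le_max_left _ _)), fun T hT => ?_⟩
  have hTT1 : T1 ≤ T := ((le_max_left _ _).trans (le_max_left _ _)).trans hT
  have hTT2 : T2 ≤ T := ((le_max_right _ _).trans (le_max_left _ _)).trans hT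
  have hTE : Real.exp (6 * E) ≤ T := (le_max_right _ _).trans hT
  have hT4 : 4 ≤ T := hT2.trans hTT2
  have hTp : 0 < T := by linarith
  have hT1' : 1 ≤ T := by linarith
  have hLE : 6 * (E:ℝ) ≤ Real.log T := (Real.le_log_iff_exp_le hTp).2 hTE
  have gT := g T hTT1
  have hbad := fun (a : Fin k → ℝ) (b : Fin l → ℝ) (ha : ∀ j, |a j| ≤ T / 4)
    (hb : ∀ j, |b j| ≤ T / 4) => fun {w : ℂ} => badp_le k l (w := w) hT4 gT a b ha hb
  set L : ℝ := Real.log T with hL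
  set e0 : ℝ := C1 * Real.log L / L with he0
  have hE6 : (6:ℝ) ≤ E := by
    rw [hE]
    push_cast
    have h1 : (0:ℝ) ≤ E1 := Nat.cast_nonneg _
    have h2 : (0:ℝ) ≤ D := Nat.cast_nonneg _
    linarith
  obtain ⟨hL3, -, he00, h2e⟩ := params hC1 (hT1.trans hTT1) (le_refl e0)
  have hL0 : 0 < L := by linarith
  have hL1 : 1 ≤ L := by linarith
  have hLT : L ≤ T := (Real.log_le_sub_one_of_pos hTp).trans (by linarith)
  have hCC : κ * C1 * Real.log L / L = κ * e0 := by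
    rw [he0]
    ring
  rw [hCC]
  have hκe : 2 * e0 ≤ κ * e0 := mul_le_mul_of_nonneg_right hκ2 he00.le
  refine ⟨fun δ hδ hδ1 => ?_, fun a b ha hb => ?_⟩
  · have h1 := (gT e0 le_rfl (by linarith)).1
    refine h1.trans (Real.rpow_le_rpow_of_exponent_le hT1' ?_)
    calc c * e0 = c' * (κ * e0) := by rw [← hcκ]; ring
      _ ≤ c' * δ := mul_le_mul_of_nonneg_left hδ hc'0.le
  by_cases hsm : e0 ≤ 1 / 60
  swap
  · push Not at hsm
    refine le_trans (le_of_eq ?_) zero_le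
    convert measure_empty (μ := (volume : Measure ℝ)) using 2
    ext t
    simp only [Set.mem_ofPred_eq, Set.mem_empty_iff_false, iff_false]
    rintro ⟨-, δ, hδ, hδ1, -⟩
    linarith
  set N : ℕ := ⌈2 * (E:ℝ) * L⌉₊ with hN
  set J : ℕ := ⌈L⌉₊ with hJ
  set dj : ℕ → ℝ := fun j => 2 * e0 + j * (e0 / 8) with hdj
  set Bad : ℕ → ℕ → Set ℝ := fun j i => {t | t ∈ badp a b T L c (1 / L ^ (D + 4)) F
    (cp (dj j : ℂ) (e0 / 2) N i) ∧ dj j ≤ 1 / 30} with hBad
  have hdj0 : ∀ j, 2 * e0 ≤ dj j := by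
    intro j
    rw [hdj]
    simp only
    have : (0:ℝ) ≤ j := Nat.cast_nonneg _
    nlinarith
  have hN1 : 1 ≤ N := by
    have h1 := Nat.le_ceil (2 * (E:ℝ) * L)
    rw [← hN] at h1
    have h2 : (1:ℝ) ≤ 2 * E * L := by nlinarith
    have h3 : (1:ℝ) ≤ N := h2.trans h1
    exact_mod_cast h3
  have hBadm : ∀ j i, volume (Bad j i) ≤ ENNReal.ofReal (T / L ^ (D + 4)) := by
    intro j i
    by_cases hj : dj j ≤ 1 / 30
    · refine (measure_mono (t := badp a b T L c (1 / L ^ (D + 4)) F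
        (cp (dj j : ℂ) (e0 / 2) N i)) fun t ht => ht.1).trans ?_
      have hr : (0:ℝ) < e0 / 2 := by linarith
      have h1 := Complex.abs_re_le_norm (cp (dj j:ℂ) (e0 / 2) N i - dj j)
      rw [cp_sub _ hr, Complex.sub_re, Complex.ofReal_re, abs_le] at h1
      have h2 := Complex.abs_im_le_norm (cp (dj j:ℂ) (e0 / 2) N i - dj j)
      rw [cp_sub _ hr, Complex.sub_im, Complex.ofReal_im, sub_zero] at h2
      have h3 := hdj0 j
      exact hbad a b ha hb (by linarith [h1.1]) (by linarith [h1.2]) (by linarith)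
    · refine le_trans (le_of_eq ?_) zero_le
      convert measure_empty (μ := (volume : Measure ℝ)) using 2
      ext t
      simp only [hBad, Set.mem_ofPred_eq, Set.mem_empty_iff_false, iff_false]
      exact fun h => hj h.2
  have hsub : {t | t ∈ Set.Ioc 0 T ∧ ∃ δ : ℝ, κ * e0 ≤ δ ∧
      δ ≤ 1 / 30 ∧ ∃ H : ℝ, L ^ F ≤ H ∧ H ≤ T ^ (c' * δ) ∧
      ∃ z : ℂ, ‖z - δ‖ ≤ 1 / (4 * L) ∧ 1 / L ^ D < ‖Ec a b H t z‖} ⊆
      ⋃ j ∈ range J, ⋃ i ∈ range N, Bad j i := by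
    rintro t ⟨ht, δ, hδ, hδ1, H, hFH, hH, z₀, hz₀, hlt⟩
    by_contra hcon
    simp only [Set.mem_iUnion, not_exists, mem_range] at hcon
    set j : ℕ := ⌊(δ - 2 * e0) / (e0 / 8)⌋₊ with hj
    have hδ0 : 0 ≤ δ - 2 * e0 := by linarith
    have hq0 : 0 ≤ (δ - 2 * e0) / (e0 / 8) := div_nonneg hδ0 (by linarith)
    have hj1 : (j:ℝ) ≤ (δ - 2 * e0) / (e0 / 8) := Nat.floor_le hq0
    have hj2 : (δ - 2 * e0) / (e0 / 8) < j + 1 := Nat.lt_floor_add_one _
    rw [le_div_iff₀ (by linarith)] at hj1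
    rw [div_lt_iff₀ (by linarith)] at hj2
    have hd1 : dj j ≤ δ := by
      rw [hdj]
      simp only
      linarith
    have hd2 : δ ≤ dj j + e0 / 8 := by
      rw [hdj]
      simp only
      linarith
    have hjJ : j < J := by
      have h1 : 2 ≤ L * e0 := by
        rw [div_le_iff₀ he00] at h2e
        exact h2e
      have h2 : (j:ℝ) < L := by
        by_contra h3
        push Not at h3
        have h4 : L * (e0 / 8) ≤ j * (e0 / 8) := mul_le_mul_of_nonneg_right h3 (by linarith)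
        linarith
      have h3 := Nat.le_ceil L
      exact_mod_cast h2.trans_le h3
    have hHT : H ≤ T := by
      refine hH.trans ?_
      calc T ^ (c' * δ) ≤ T ^ (1:ℝ) := by
            refine Real.rpow_le_rpow_of_exponent_le hT1' ?_
            nlinarith
        _ = T := Real.rpow_one T
    have hH0 : 0 < H := (by positivity : 0 < L ^ F).trans_le hFH
    have hg := g2 T hTT2 a b (fun j => (ha j).trans (by linarith))
      (fun j => (hb j).trans (by linarith)) H t hH0 hHT ht.1.le ht.2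
    have hNN : T ^ (E1 + D + 6) ≤ 2 ^ N := two_pow_ge hTp hL0.le E
    have key := disc_step2 a b (c := c) (c' := c') (d := dj j) (δ := δ) (D := D) (E1 := E1) (F := F)
      (N := N) hT4 hL3 hLT he00 h2e hsm hc'1 hc'0 hc'2 (by omega) (by omega) hN1 hNN (hdj0 j) hd1
      hd2 hδ1 hz₀ ht hFH hH hg (fun i hi hmem => hcon j hjJ i hi ⟨hmem, hd1.trans hδ1⟩)
    linarith
  refine (measure_mono hsub).trans ?_
  refine (measure_biUnion_finset_le _ _).trans ?_
  have h1 : ∀ j ∈ range J, volume (⋃ i ∈ range N, Bad j i) ≤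
      (N:ENNReal) * ENNReal.ofReal (T / L ^ (D + 4)) := by
    intro j _
    refine (measure_biUnion_finset_le _ _).trans ?_
    refine (sum_le_card_nsmul _ _ _ fun i _ => hBadm j i).trans (le_of_eq ?_)
    rw [card_range, nsmul_eq_mul]
  refine (sum_le_card_nsmul _ _ _ h1).trans ?_
  rw [card_range, nsmul_eq_mul, ← mul_assoc, ← ENNReal.ofReal_natCast, ← ENNReal.ofReal_natCast,
    ← ENNReal.ofReal_mul (Nat.cast_nonneg _), ← ENNReal.ofReal_mul (by positivity)]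
  refine ENNReal.ofReal_le_ofReal ?_
  have hJ2 : (J:ℝ) ≤ 2 * L := by
    have := Nat.ceil_lt_add_one hL0.le
    linarith
  have hN2 : (N:ℝ) ≤ 3 * E * L := by
    have h2 : 0 ≤ 2 * (E:ℝ) * L := by positivity
    have := Nat.ceil_lt_add_one h2
    nlinarith
  have hJN : (J:ℝ) * N ≤ L ^ 3 := by
    calc (J:ℝ) * N ≤ (2 * L) * (3 * E * L) :=
          mul_le_mul hJ2 hN2 (Nat.cast_nonneg _) (by positivity)
      _ = (6 * E) * L ^ 2 := by ring
      _ ≤ L * L ^ 2 := mul_le_mul_of_nonneg_right hLE (by positivity)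
      _ = L ^ 3 := by ring
  calc (J:ℝ) * N * (T / L ^ (D + 4)) ≤ L ^ 3 * (T / L ^ (D + 4)) :=
        mul_le_mul_of_nonneg_right hJN (by positivity)
    _ = T / L ^ (D + 1) := by
        rw [show D + 4 = (D + 1) + 3 by ring, pow_add L (D + 1) 3]
        field_simp
    _ ≤ T / L ^ D := by
        refine div_le_div_of_nonneg_left hTp.le (by positivity) ?_
        exact pow_le_pow_right₀ hL1 (by omega)

end

end Run7.h518.SW
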