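import Pool.Agent.Run7.h518.SW.Trunc

/-!
# The Euler product of the first term of the recipe (helper518)
-/

set_option autoImplicit false

namespace Run7.h518.SW

open Finset MeasureTheory Complex
open Pool.Agent.H306R2 hiding wt
open Pool.Agent.Y746.OA Pool.Agent.Y746.CS

noncomputable section

/-! ### power series at a prime -/

/-- the series of the values at the powers of `p` -/
def GS (A : ArithmeticFunction ℂ) (p : ℕ) (z S : ℂ) : Prop :=
  (Summable fun e : ℕ => ‖A (p ^ e) * z ^ e‖) ∧ HasSum (fun e : ℕ => A (p ^ e) * z ^ e) S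

lemma mul_pp (A B : ArithmeticFunction ℂ) {p : ℕ} (hp : p.Prime) (m : ℕ) :
    (A * B) (p ^ m) = ∑ x ∈ antidiagonal m, A (p ^ x.1) * B (p ^ x.2) := by
  rw [ArithmeticFunction.mul_apply]
  rw [Nat.sum_divisorsAntidiagonal (fun i j => A i * B j), Nat.divisors_prime_pow hp, sum_map]
  simp only [Function.Embedding.coeFn_mk]
  rw [Nat.sum_antidiagonal_eq_sum_range_succ (fun i j => A (p ^ i) * B (p ^ j))]
  refine sum_congr rfl fun i hi => ?_
  rw [mem_range] at hi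
  rw [Nat.pow_div (by omega) hp.pos]

lemma GS_one {p : ℕ} (hp : p.Prime) (z : ℂ) : GS 1 p z 1 := by
  have e : ∀ n : ℕ, n ≠ 0 → (1 : ArithmeticFunction ℂ) (p ^ n) * z ^ n = 0 := by
    intro n hn
    rw [ArithmeticFunction.one_apply_ne, zero_mul]
    intro h
    have := Nat.one_lt_pow hn hp.one_lt
    omega
  constructor
  · refine summable_of_ne_finset_zero (s := {0}) fun n hn => ?_
    rw [mem_singleton] at hn
    rw [e n hn, norm_zero]
  · have h := hasSum_single (f := fun n : ℕ => (1 : ArithmeticFunction ℂ) (p ^ n) * z ^ n) 0 e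
    simpa using h

lemma GS_mul {A B : ArithmeticFunction ℂ} {p : ℕ} (hp : p.Prime) {z S S' : ℂ} (hA : GS A p z S)
    (hB : GS B p z S') : GS (A * B) p z (S * S') := by
  obtain ⟨a1, a2⟩ := hA
  obtain ⟨b1, b2⟩ := hB
  have e : (fun n : ℕ => (A * B) (p ^ n) * z ^ n) = fun n : ℕ => ∑ x ∈ antidiagonal n,
      (A (p ^ x.1) * z ^ x.1) * (B (p ^ x.2) * z ^ x.2) := by
    funext n
    rw [mul_pp A B hp, sum_mul]
    refine sum_congr rfl fun x hx => ?_
    rw [Finset.HasAntidiagonal.mem_antidiagonal] at hx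
    rw [← hx, pow_add]
    ring
  have h1 := summable_norm_sum_mul_antidiagonal_of_summable_norm a1 b1
  constructor
  · refine h1.congr fun n => ?_
    rw [← congrFun e n]
  · have h2 := tsum_mul_tsum_eq_tsum_sum_antidiagonal_of_summable_norm a1 b1
    rw [a2.tsum_eq, b2.tsum_eq] at h2
    rw [h2, e]
    exact h1.of_norm.hasSum

lemma GS_tw1 (c : ℝ) {p : ℕ} (hp : p.Prime) {z : ℂ} (hz : ‖z‖ < 1) :
    GS (tw1 1 c) p z (1 - (p:ℂ) ^ (-((c:ℂ) * I)) * z)⁻¹ := by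
  have hn : ‖(p:ℂ) ^ (-((c:ℂ) * I)) * z‖ < 1 := by
    rw [norm_mul, Complex.norm_natCast_cpow_of_pos hp.pos]
    simpa using hz
  have e : (fun n : ℕ => tw1 1 c (p ^ n) * z ^ n) = fun n : ℕ => ((p:ℂ) ^ (-((c:ℂ) * I)) * z) ^ n := by
    funext n
    have h1 : dv 1 (p ^ n) = 1 := by
      have := dA_one_apply (Nat.one_le_iff_ne_zero.mpr (pow_ne_zero n hp.ne_zero))
      rwa [dA_apply] at this
    have h2 : ((p ^ n : ℕ) : ℂ) ^ (-((c:ℂ) * I)) = ((p:ℂ) ^ (-((c:ℂ) * I))) ^ n := by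
      rw [Nat.cast_pow, ← Complex.cpow_nat_mul, mul_comm, Complex.natCast_cpow_natCast_mul]
    rw [tw1_apply, h1, h2, mul_pow]
    push_cast
    ring
  constructor
  · have h := summable_geometric_of_lt_one (norm_nonneg _) hn
    refine h.congr fun n => ?_
    rw [congrFun e n, norm_pow]
  · rw [e]
    exact hasSum_geometric_of_norm_lt_one hn

/-- the series of a product of twists -/
lemma GS_Tk {k : ℕ} (a : Fin k → ℝ) {p : ℕ} (hp : p.Prime) {z : ℂ} (hz : ‖z‖ < 1) :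
    GS (Tk a) p z (∏ j, (1 - (p:ℂ) ^ (-((a j : ℂ) * I)) * z)⁻¹) := by
  unfold Tk
  have h : ∀ S : Finset (Fin k), GS (∏ j ∈ S, tw1 1 (a j)) p z
      (∏ j ∈ S, (1 - (p:ℂ) ^ (-((a j : ℂ) * I)) * z)⁻¹) := by
    intro S
    induction S using Finset.induction_on with
    | empty =>
      rw [prod_empty, prod_empty]
      exact GS_one hp z
    | insert j S hj ih =>
      rw [prod_insert hj, prod_insert hj]
      exact GS_mul hp (GS_tw1 (a j) hp hz) ih
  exact h univ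

/-! ### the mean over the circle -/

/-- `e^(2 π i θ)` -/
def e1 (θ : ℝ) : ℂ := Complex.exp (2 * Real.pi * θ * I)

lemma e1_norm (θ : ℝ) : ‖e1 θ‖ = 1 := by
  have h : (2 * (Real.pi:ℂ) * θ * I) = ((2 * Real.pi * θ : ℝ) : ℂ) * I := by
    push_cast
    ring
  rw [e1, h, Complex.norm_exp_ofReal_mul_I]

lemma e1_neg (θ : ℝ) : e1 (-θ) = (e1 θ)⁻¹ := by
  unfold e1
  rw [← Complex.exp_neg]
  congr 1
  push_cast
  ring

lemma e1_cont : Continuous e1 := by
  unfold e1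
  fun_prop

/-- the means of the characters -/
lemma e1_int (m n : ℕ) : ∫ θ in (0:ℝ)..1, e1 θ ^ m * e1 (-θ) ^ n = if m = n then 1 else 0 := by
  have h0 : ∀ θ : ℝ, e1 θ ^ m * e1 (-θ) ^ n =
      Complex.exp ((2 * Real.pi * ((m:ℂ) - n) * I) * θ) := by
    intro θ
    unfold e1
    rw [← Complex.exp_nat_mul, ← Complex.exp_nat_mul, ← Complex.exp_add]
    congr 1
    push_cast
    ring
  simp_rw [h0]
  split_ifs with h
  · subst h
    simp
  · have hc : (2 * (Real.pi:ℂ) * ((m:ℂ) - n) * I) ≠ 0 := by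
      have h1 : ((m:ℂ) - n) ≠ 0 := by
        rw [sub_ne_zero]
        exact_mod_cast h
      have h2 : (Real.pi:ℂ) ≠ 0 := by exact_mod_cast Real.pi_ne_zero
      exact mul_ne_zero (mul_ne_zero (mul_ne_zero two_ne_zero h2) h1) I_ne_zero
    rw [integral_exp_mul_complex hc]
    have h3 : Complex.exp (2 * (Real.pi:ℂ) * ((m:ℂ) - n) * I * ((1:ℝ):ℂ)) = 1 := by
      rw [Complex.exp_eq_one_iff]
      refine ⟨(m:ℤ) - n, ?_⟩
      push_cast
      ring
    rw [h3]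
    simp

/-- **Parseval.** -/
lemma parseval {α β : ℕ → ℂ} (hα : Summable fun n => ‖α n‖) (hβ : Summable fun n => ‖β n‖) :
    ∫ θ in (0:ℝ)..1, (∑' m : ℕ, α m * e1 θ ^ m) * (∑' n : ℕ, β n * e1 (-θ) ^ n) =
      ∑' n : ℕ, α n * β n := by
  set g : ℕ × ℕ → ℝ → ℂ := fun q θ => (α q.1 * e1 θ ^ q.1) * (β q.2 * e1 (-θ) ^ q.2) with hg
  have hn1 : ∀ (m : ℕ) (θ : ℝ), ‖α m * e1 θ ^ m‖ = ‖α m‖ := by
    intro m θ
    rw [norm_mul, norm_pow, e1_norm, one_pow, mul_one]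
  have hn2 : ∀ (m : ℕ) (θ : ℝ), ‖β m * e1 (-θ) ^ m‖ = ‖β m‖ := by
    intro m θ
    rw [norm_mul, norm_pow, e1_norm, one_pow, mul_one]
  have h1 : ∀ θ : ℝ, (∑' m : ℕ, α m * e1 θ ^ m) * (∑' n : ℕ, β n * e1 (-θ) ^ n) =
      ∑' q : ℕ × ℕ, g q θ := by
    intro θ
    exact tsum_mul_tsum_of_summable_norm (by simpa only [hn1] using hα)
      (by simpa only [hn2] using hβ)
  simp_rw [h1]
  rw [intervalIntegral.integral_of_le zero_le_one]
  have hsum : Summable fun q : ℕ × ℕ => ‖α q.1‖ * ‖β q.2‖ :=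
    hα.mul_of_nonneg hβ (fun _ => norm_nonneg _) (fun _ => norm_nonneg _)
  have hcont : ∀ q, Continuous (g q) := by
    intro q
    have c1 := e1_cont
    have c2 : Continuous fun θ : ℝ => e1 (-θ) := c1.comp continuous_neg
    exact (continuous_const.mul (c1.pow _)).mul (continuous_const.mul (c2.pow _))
  have hgn : ∀ q θ, ‖g q θ‖ = ‖α q.1‖ * ‖β q.2‖ := by
    intro q θ
    rw [hg]
    simp only
    rw [norm_mul, hn1, hn2]
  have hint : ∀ q, Integrable (g q) (volume.restrict (Set.Ioc (0:ℝ) 1)) := by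
    intro q
    refine Integrable.of_bound (hcont q).aestronglyMeasurable (‖α q.1‖ * ‖β q.2‖)
      (Filter.Eventually.of_forall fun θ => (hgn q θ).le)
  have h2 := hasSum_integral_of_summable_integral_norm (F := g) hint (by
    refine hsum.congr fun q => ?_
    simp_rw [hgn]
    rw [setIntegral_const, Real.volume_real_Ioc_of_le zero_le_one, sub_zero, one_smul])
  have h3 : ∀ q : ℕ × ℕ, ∫ θ in Set.Ioc (0:ℝ) 1, g q θ =
      if q.1 = q.2 then α q.1 * β q.2 else 0 := by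
    intro q
    have e : ∀ θ : ℝ, g q θ = (α q.1 * β q.2) * (e1 θ ^ q.1 * e1 (-θ) ^ q.2) := by
      intro θ
      rw [hg]
      ring
    simp_rw [e]
    rw [← intervalIntegral.integral_of_le zero_le_one, intervalIntegral.integral_const_mul, e1_int]
    split_ifs <;> simp
  rw [← h2.tsum_eq]
  simp_rw [h3]
  have hinj : Function.Injective fun n : ℕ => (n, n) := fun m n h => (Prod.mk.inj h).1
  rw [← hinj.tsum_eq]
  · simp
  · intro q hq
    rw [Function.mem_support] at hq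
    have : q.1 = q.2 := by
      by_contra h
      exact hq (if_neg h)
    exact ⟨q.1, Prod.ext rfl this⟩

/-! ### the Euler product -/

lemma tw1_val (c : ℝ) {n : ℕ} (hn : n ≠ 0) : tw1 1 c n = (n:ℂ) ^ (-((c:ℂ) * I)) := by
  have h1 : dv 1 n = 1 := by
    have := dA_one_apply (Nat.one_le_iff_ne_zero.mpr hn)
    rwa [dA_apply] at this
  rw [tw1_apply, h1]
  push_cast
  ring

lemma tw1_mult (c : ℝ) : (tw1 1 c).IsMultiplicative := by
  constructor
  · rw [tw1_val c one_ne_zero]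
    simp
  · intro m n _
    rcases eq_or_ne m 0 with h | h
    · subst h
      simp
    rcases eq_or_ne n 0 with h' | h'
    · subst h'
      simp
    rw [tw1_val c (mul_ne_zero h h'), tw1_val c h, tw1_val c h', Nat.cast_mul,
      Complex.natCast_mul_natCast_cpow]

lemma Tk_mult {k : ℕ} (a : Fin k → ℝ) : (Tk a).IsMultiplicative := by
  unfold Tk
  have h : ∀ S : Finset (Fin k), (∏ j ∈ S, tw1 1 (a j)).IsMultiplicative := by
    intro S
    induction S using Finset.induction_on with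
    | empty =>
      rw [prod_empty]
      exact ArithmeticFunction.isMultiplicative_one
    | insert j S hj ih =>
      rw [prod_insert hj]
      exact (tw1_mult (a j)).mul ih
  exact h univ

/-- the Euler product of the diagonal sum -/
lemma dd_euler {k l : ℕ} (a : Fin k → ℝ) (b : Fin l → ℝ) {δ : ℝ} (hδ : 0 < δ) (hδ1 : δ ≤ 1) :
    HasProd (fun p : Nat.Primes => ∑' e : ℕ, Tk a ((p:ℕ) ^ e) *
      (starRingEnd ℂ) (Tk b ((p:ℕ) ^ e)) * w δ ((p:ℕ) ^ e)) (dd (Tk a) (Tk b) δ) := by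
  set P : ℕ := k + l + 1 with hP
  have hA : ∀ n, ‖Tk a n‖ ≤ dv P n := fun n => (Tk_le a n).trans
    (dv_mono (Nat.cast_nonneg k) (by exact_mod_cast (by omega : k ≤ P)) n)
  have hB : ∀ n, ‖Tk b n‖ ≤ dv P n := fun n => (Tk_le b n).trans
    (dv_mono (Nat.cast_nonneg l) (by exact_mod_cast (by omega : l ≤ P)) n)
  have hs : Summable fun n : ℕ => ‖Tk a n * (starRingEnd ℂ) (Tk b n) * w δ n‖ :=
    Summable.of_nonneg_of_le (fun n => norm_nonneg _) (fun n => ab_le hA hB δ n)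
      (sq_summable P hδ hδ1)
  refine EulerProduct.eulerProduct_hasProd (f := fun n : ℕ => Tk a n * (starRingEnd ℂ) (Tk b n) *
    w δ n) ?_ ?_ hs ?_
  · rw [(Tk_mult a).map_one, (Tk_mult b).map_one]
    unfold w
    simp
  · intro m n hmn
    rw [(Tk_mult a).map_mul_of_coprime hmn, (Tk_mult b).map_mul_of_coprime hmn, map_mul]
    have h : w δ (m * n) = w δ m * w δ n := by
      unfold w
      rw [Nat.cast_mul, Real.mul_rpow (Nat.cast_nonneg m) (Nat.cast_nonneg n)]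
      push_cast
      ring
    rw [h]
    ring
  · simp

/-- the factor at `p` of the arithmetic factor of the moment conjecture -/
def Ap {k : ℕ} (z z' : Fin k → ℂ) (p : ℕ) : ℂ :=
  (∏ i, ∏ j, (1 - (p:ℂ) ^ (-1 - z i + z' j))) *
    ∫ θ in (0:ℝ)..1, ∏ j, ((1 - e1 θ / (p:ℂ) ^ (1 / 2 + z j))⁻¹ *
      (1 - e1 (-θ) / (p:ℂ) ^ (1 / 2 - z' j))⁻¹)

/-- the local factor as a mean over the circle -/
lemma local_factor {k : ℕ} (a b : Fin k → ℝ) {δ : ℝ} (hδ : 0 < δ) {p : ℕ} (hp : p.Prime) :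
    ∑' e : ℕ, Tk a (p ^ e) * (starRingEnd ℂ) (Tk b (p ^ e)) * w δ (p ^ e) =
      ∫ θ in (0:ℝ)..1, ∏ j, ((1 - e1 θ / (p:ℂ) ^ ((1:ℂ) / 2 + (δ + a j * I)))⁻¹ *
        (1 - e1 (-θ) / (p:ℂ) ^ ((1:ℂ) / 2 - (-δ + b j * I)))⁻¹) := by
  have hp0 : (0:ℝ) < p := by exact_mod_cast hp.pos
  have hp1 : (1:ℝ) < p := by exact_mod_cast hp.one_lt
  have hpc : (p:ℂ) ≠ 0 := by exact_mod_cast hp.ne_zero
  set r : ℝ := (p:ℝ) ^ (-(1 / 2 + δ)) with hr
  have hr0 : 0 < r := Real.rpow_pos_of_pos hp0 _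
  have hr1 : r < 1 := Real.rpow_lt_one_of_one_lt_of_neg hp1 (by linarith)
  have hrn : ‖(r:ℂ)‖ < 1 := by rw [Complex.norm_real, Real.norm_of_nonneg hr0.le]; exact hr1
  have hrc : (r:ℂ) = (p:ℂ) ^ (-((1:ℂ) / 2 + δ)) := by
    rw [hr, Complex.ofReal_cpow hp0.le]
    push_cast
    rfl
  have hw : ∀ e : ℕ, w δ (p ^ e) = (r:ℂ) ^ e * (r:ℂ) ^ e := by
    intro e
    unfold w
    rw [← mul_pow, ← Complex.ofReal_mul, ← Complex.ofReal_pow]
    congr 1
    rw [hr, ← Real.rpow_add hp0, Nat.cast_pow, ← Real.rpow_natCast, ← Real.rpow_mul hp0.le,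
      ← Real.rpow_natCast, ← Real.rpow_mul hp0.le]
    congr 1
    ring
  have gz : ∀ θ : ℝ, ‖(r:ℂ) * e1 θ‖ < 1 := by
    intro θ
    rw [norm_mul, e1_norm, mul_one]
    exact hrn
  have ga := (GS_Tk a hp hrn).1
  have gb := (GS_Tk b hp hrn).1
  have hβ : Summable fun e : ℕ => ‖(starRingEnd ℂ) (Tk b (p ^ e)) * (r:ℂ) ^ e‖ := by
    refine gb.congr fun e => ?_
    rw [norm_mul, norm_mul, RCLike.norm_conj]
  have h1 := parseval ga hβ
  have h2 : ∑' e : ℕ, Tk a (p ^ e) * (starRingEnd ℂ) (Tk b (p ^ e)) * w δ (p ^ e) =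
      ∑' e : ℕ, (Tk a (p ^ e) * (r:ℂ) ^ e) * ((starRingEnd ℂ) (Tk b (p ^ e)) * (r:ℂ) ^ e) := by
    refine tsum_congr fun e => ?_
    rw [hw]
    ring
  rw [h2, ← h1]
  refine intervalIntegral.integral_congr fun θ _ => ?_
  show (∑' m : ℕ, Tk a (p ^ m) * (r:ℂ) ^ m * e1 θ ^ m) *
    (∑' n : ℕ, (starRingEnd ℂ) (Tk b (p ^ n)) * (r:ℂ) ^ n * e1 (-θ) ^ n) = _
  have t1 : ∑' m : ℕ, Tk a (p ^ m) * (r:ℂ) ^ m * e1 θ ^ m =
      ∏ j, (1 - (p:ℂ) ^ (-((a j : ℂ) * I)) * ((r:ℂ) * e1 θ))⁻¹ := by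
    rw [← (GS_Tk a hp (gz θ)).2.tsum_eq]
    refine tsum_congr fun m => ?_
    rw [mul_pow]
    ring
  have t2 : ∑' n : ℕ, (starRingEnd ℂ) (Tk b (p ^ n)) * (r:ℂ) ^ n * e1 (-θ) ^ n =
      (starRingEnd ℂ) (∏ j, (1 - (p:ℂ) ^ (-((b j : ℂ) * I)) * ((r:ℂ) * e1 θ))⁻¹) := by
    rw [← (GS_Tk b hp (gz θ)).2.tsum_eq, conj_tsum]
    refine tsum_congr fun n => ?_
    have h3 : (starRingEnd ℂ) (e1 θ) = e1 (-θ) := by
      unfold e1
      rw [← Complex.exp_conj]
      congr 1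
      simp only [map_mul, Complex.conj_ofReal, Complex.conj_I, map_ofNat]
      push_cast
      ring
    have h5 : (starRingEnd ℂ) (Tk b (p ^ n) * ((r:ℂ) * e1 θ) ^ n) =
        (starRingEnd ℂ) (Tk b (p ^ n)) * ((r:ℂ) * e1 (-θ)) ^ n := by
      rw [map_mul]
      congr 1
      rw [map_pow (starRingEnd ℂ), map_mul, Complex.conj_ofReal, h3]
    rw [h5, mul_pow]
    ring
  rw [t1, t2, map_prod, ← prod_mul_distrib]
  refine prod_congr rfl fun j _ => ?_
  have u1 : (p:ℂ) ^ (-((a j : ℂ) * I)) * ((r:ℂ) * e1 θ) =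
      e1 θ / (p:ℂ) ^ ((1:ℂ) / 2 + (δ + a j * I)) := by
    rw [hrc, div_eq_mul_inv (e1 θ), ← Complex.cpow_neg, ← mul_assoc, ← Complex.cpow_add _ _ hpc,
      mul_comm (e1 θ)]
    congr 2
    ring
  have u2 : (starRingEnd ℂ) ((p:ℂ) ^ (-((b j : ℂ) * I)) * ((r:ℂ) * e1 θ)) =
      e1 (-θ) / (p:ℂ) ^ ((1:ℂ) / 2 - (-δ + b j * I)) := by
    have h3 : (starRingEnd ℂ) (e1 θ) = e1 (-θ) := by
      unfold e1
      rw [← Complex.exp_conj]
      congr 1
      simp only [map_mul, Complex.conj_ofReal, Complex.conj_I, map_ofNat]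
      push_cast
      ring
    have h4 : (starRingEnd ℂ) ((p:ℂ) ^ (-((b j : ℂ) * I))) = (p:ℂ) ^ ((b j : ℂ) * I) := by
      rw [cpow_ex hp.one_le, ex_conj]
      have h5 := cpow_ex hp.one_le (-(b j))
      have h6 : ex (Real.log p) (-(b j)) = ex (-Real.log p) (b j) := by
        unfold ex
        congr 2
        ring_nf
      rw [← h6, ← h5]
      congr 1
      push_cast
      ring
    rw [map_mul, map_mul, Complex.conj_ofReal, h3, h4, hrc, div_eq_mul_inv (e1 (-θ)),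
      ← Complex.cpow_neg, ← mul_assoc, ← Complex.cpow_add _ _ hpc, mul_comm (e1 (-θ))]
    congr 2
    ring
  rw [map_inv₀, map_sub, map_one, u1, u2]

/-- **The first term of the recipe as an Euler product.** -/
theorem dd_G {k : ℕ} (a b : Fin k → ℝ) {δ : ℝ} (hδ : 0 < δ) (hδ1 : δ ≤ 1) :
    (∏' p : Nat.Primes, Ap (fun j => (δ:ℂ) + a j * I) (fun j => -(δ:ℂ) + b j * I) p) *
      ∏ i, ∏ j, riemannZeta (1 + ((δ:ℂ) + a i * I) - (-(δ:ℂ) + b j * I)) =
        dd (Tk a) (Tk b) δ := by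
  have hre : ∀ i j, 1 < (1 + ((δ:ℂ) + a i * I) - (-(δ:ℂ) + b j * I)).re := by
    intro i j
    simp
    linarith
  have hZ : HasProd (fun p : Nat.Primes => ∏ i, ∏ j,
      (1 - (p:ℂ) ^ (-(1 + ((δ:ℂ) + a i * I) - (-(δ:ℂ) + b j * I))))⁻¹)
      (∏ i, ∏ j, riemannZeta (1 + ((δ:ℂ) + a i * I) - (-(δ:ℂ) + b j * I))) :=
    hasProd_prod fun i _ => hasProd_prod fun j _ => riemannZeta_eulerProduct_hasProd (hre i j)
  set Z : ℂ := ∏ i, ∏ j, riemannZeta (1 + ((δ:ℂ) + a i * I) - (-(δ:ℂ) + b j * I)) with hZd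
  have hZ0 : Z ≠ 0 := by
    rw [hZd]
    refine prod_ne_zero_iff.2 fun i _ => prod_ne_zero_iff.2 fun j _ => ?_
    exact riemannZeta_ne_zero_of_one_lt_re (hre i j)
  have h1 := (hZ.inv₀ hZ0).mul (dd_euler a b hδ hδ1)
  have h2 : HasProd (fun p : Nat.Primes => Ap (fun j => (δ:ℂ) + a j * I)
      (fun j => -(δ:ℂ) + b j * I) p) (Z⁻¹ * dd (Tk a) (Tk b) δ) := by
    refine h1.congr_fun ?_
    intro p
    unfold Ap
    rw [local_factor a b hδ p.2]
    congr 1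
    simp only [prod_inv_distrib, inv_inv]
    refine prod_congr rfl fun i _ => prod_congr rfl fun j _ => ?_
    congr 2
    ring
  rw [h2.tprod_eq]
  field_simp

end

end Run7.h518.SW
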