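import Pool.Agent.Run7.h518.SW.Hol

/-!
# The deviation is holomorphic near the line (helper518)
-/

set_option autoImplicit false

namespace Run7.h518.SW

open Finset MeasureTheory Complex
open Pool.Agent.H306R2 hiding wt
open Pool.Agent.Y746.OA Pool.Agent.Y746.CS

noncomputable section

/-- a domain near the line -/
def UU : Set ℂ := {w : ℂ | 0 < w.re ∧ w.re < 1 / 4 ∧ ‖w‖ < 1}

lemma UU_open : IsOpen UU := by
  have h1 : IsOpen {w : ℂ | 0 < w.re} := isOpen_lt continuous_const Complex.continuous_re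
  have h2 : IsOpen {w : ℂ | w.re < 1 / 4} := isOpen_lt Complex.continuous_re continuous_const
  have h3 : IsOpen {w : ℂ | ‖w‖ < 1} := isOpen_lt continuous_norm continuous_const
  exact h1.inter (h2.inter h3)

lemma Ec_good (k l : ℕ) : ∃ T0 : ℝ, 4 ≤ T0 ∧ ∀ T : ℝ, T0 ≤ T →
    ∀ (a : Fin k → ℝ) (b : Fin l → ℝ), (∀ j, |a j| ≤ T) → (∀ j, |b j| ≤ T) →
    ∀ H t : ℝ, 0 < H → H ≤ T → 0 ≤ t → t ≤ T →
    DifferentiableOn ℂ (Ec a b H t) UU ∧
    ∀ w ∈ UU, ‖Ec a b H t w‖ ≤ (T ^ 3) ^ (k + l) + (2 / w.re) ^ ((k + l + 1) ^ 2) := by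
  obtain ⟨T0, hT0, h⟩ := Zc_norm k l
  refine ⟨T0, hT0, fun T hT a b ha hb H t hH hHT ht htT => ?_⟩
  have hT4 : 4 ≤ T := hT0.trans hT
  have hZ : ∀ w ∈ UU, ∀ u ∈ Set.Ioc 0 H, ‖Zc a b w (t + u)‖ ≤ (T ^ 3) ^ (k + l) := by
    intro w hw u hu
    refine h T hT a b ha hb w (t + u) hw.1.le hw.2.1.le hw.2.2.le ?_
    rw [abs_of_nonneg (by linarith [hu.1])]
    linarith [hu.2]
  constructor
  · unfold Ec
    refine DifferentiableOn.sub (DifferentiableOn.const_mul ?_ _) ?_
    · have e : (fun w : ℂ => ∫ u in Set.Ioc 0 H, Zc a b w (t + u)) =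
          fun w : ℂ => ∫ u, (Set.Ioc 0 H).indicator (fun u => Zc a b w (t + u)) u := by
        funext w
        rw [integral_indicator measurableSet_Ioc]
      rw [e]
      refine (Pool.Agent.H269.integral_analytic UU UU_open
        (fun w u => (Set.Ioc 0 H).indicator (fun u => Zc a b w (t + u)) u) ?_ ?_
        ((Set.Ioc 0 H).indicator fun _ => (1:ℝ)) ?_ ?_).1
      · intro u
        by_cases hu : u ∈ Set.Ioc 0 H
        · simp only [Set.indicator_of_mem hu]
          exact fun w hw => (Zc_diff a b hw.2.1 (t + u)).differentiableWithinAt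
        · simp only [Set.indicator_of_notMem hu]
          exact differentiableOn_const _
      · intro w hw
        refine AEStronglyMeasurable.indicator ?_ measurableSet_Ioc
        exact ((Zc_cont a b hw.2.1).comp (continuous_const.add continuous_id)).aestronglyMeasurable
      · exact (integrable_indicator_iff measurableSet_Ioc).2 (integrableOn_const (by
          rw [Real.volume_Ioc]
          exact ENNReal.ofReal_ne_top) (by simp))
      · intro z hz
        refine ⟨1, (T ^ 3) ^ (k + l), one_pos, fun w _ hw u => ?_⟩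
        by_cases hu : u ∈ Set.Ioc 0 H
        · simp only [Set.indicator_of_mem hu]
          rw [mul_one]
          exact hZ w hw u hu
        · simp only [Set.indicator_of_notMem hu]
          simp
    · exact fun w hw => (Dc_diff a b hw.1).differentiableWithinAt
  · intro w hw
    unfold Ec
    refine (norm_sub_le _ _).trans (add_le_add ?_ ?_)
    · have h1 := norm_setIntegral_le_of_norm_le_const (μ := volume) (s := Set.Ioc (0:ℝ) H)
        (f := fun u => Zc a b w (t + u)) (C := (T ^ 3) ^ (k + l))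
        (by rw [Real.volume_Ioc]; exact ENNReal.ofReal_lt_top) (hZ w hw)
      rw [Real.volume_real_Ioc_of_le hH.le, sub_zero] at h1
      rw [norm_mul, norm_div, norm_one, Complex.norm_real, Real.norm_of_nonneg hH.le, one_div,
        inv_mul_le_iff₀ hH, mul_comm H]
      exact h1
    · have e : w = ((w.re : ℝ) : ℂ) + ((w.im : ℝ) : ℂ) * I := (Complex.re_add_im w).symm
      rw [e, Dc_eq]
      have h1 := dd_norm (Tk_dv (fun j => a j + w.im) (P := k + l + 1) (by omega))
        (Tk_dv (fun j => b j - w.im) (P := k + l + 1) (by omega)) hw.1 (by linarith [hw.2.1])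
      simpa using h1

end

end Run7.h518.SW
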