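import Mathlib

/-!
# A holomorphic function is small in a disc if it is small at few points of a circle (helper518)
-/

set_option autoImplicit false

namespace Run7.h518.SW

open Finset Complex Metric

noncomputable section

/-- the first root of unity of order `N` -/
def rt (N : ℕ) : ℂ := Complex.exp (2 * Real.pi * I / N)

/-- equidistributed points on the circle -/
def cp (c : ℂ) (r : ℝ) (N j : ℕ) : ℂ := c + r * rt N ^ j

lemma rt_norm (N : ℕ) : ‖rt N‖ = 1 := by
  have h : (2 * (Real.pi:ℂ) * I / N) = ((2 * Real.pi / N : ℝ) : ℂ) * I := by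
    push_cast
    ring
  rw [rt, h, Complex.norm_exp_ofReal_mul_I]

lemma rt_ne (N : ℕ) : rt N ≠ 0 := Complex.exp_ne_zero _

lemma cp_sub (c : ℂ) {r : ℝ} (hr : 0 < r) (N j : ℕ) : ‖cp c r N j - c‖ = r := by
  unfold cp
  rw [add_sub_cancel_left, norm_mul, norm_pow, rt_norm, one_pow, mul_one, Complex.norm_real,
    Real.norm_of_nonneg hr.le]

lemma roots {N : ℕ} (hN : 1 ≤ N) {m n : ℕ} (hm : m < N) (hn : n < N) :
    ∑ j ∈ range N, (rt N ^ j) ^ m * ((rt N ^ j) ^ n)⁻¹ = if m = n then (N:ℂ) else 0 := by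
  have hN0 : N ≠ 0 := by omega
  have hp : IsPrimitiveRoot (rt N) N := Complex.isPrimitiveRoot_exp N hN0
  have h0 := rt_ne N
  have e : ∀ j : ℕ, (rt N ^ j) ^ m * ((rt N ^ j) ^ n)⁻¹ = (rt N ^ m * (rt N ^ n)⁻¹) ^ j := by
    intro j
    rw [mul_pow, inv_pow, ← pow_mul, ← pow_mul, ← pow_mul, ← pow_mul, mul_comm j m, mul_comm j n]
  simp_rw [e]
  split_ifs with h
  · subst h
    rw [mul_inv_cancel₀ (pow_ne_zero _ h0)]
    simp
  · set x : ℂ := rt N ^ m * (rt N ^ n)⁻¹ with hx
    have hx1 : x ≠ 1 := by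
      intro h1
      rw [hx, mul_inv_eq_one₀ (pow_ne_zero _ h0)] at h1
      exact h (hp.pow_inj hm hn h1)
    have hxN : x ^ N = 1 := by
      rw [hx, mul_pow, inv_pow, ← pow_mul, ← pow_mul, mul_comm m N, mul_comm n N, pow_mul, pow_mul,
        hp.pow_eq_one, one_pow, one_pow, inv_one, mul_one]
    rw [geom_sum_eq hx1, hxN, sub_self, zero_div]

/-- **Few points of a circle suffice.** -/
theorem net {f : ℂ → ℂ} {c : ℂ} {r M η : ℝ} (hr : 0 < r) (hM0 : 0 ≤ M) (hη0 : 0 ≤ η) {N : ℕ}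
    (hN : 1 ≤ N)
    (hf : DifferentiableOn ℂ f (ball c (3 * r))) (hM : ∀ z ∈ ball c (3 * r), ‖f z‖ ≤ M)
    (hη : ∀ j < N, ‖f (cp c r N j)‖ ≤ η) {w : ℂ} (hw : ‖w - c‖ ≤ r / 2) :
    ‖f w‖ ≤ 2 * η + 6 * M / 2 ^ N := by
  set a : ℕ → ℂ := fun n => (n.factorial : ℂ)⁻¹ * iteratedDeriv n f c with ha
  have hcb : closedBall c (2 * r) ⊆ ball c (3 * r) := closedBall_subset_ball (by linarith)
  have hdc : DiffContOnCl ℂ f (ball c (2 * r)) := by
    refine DifferentiableOn.diffContOnCl ?_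
    rw [closure_ball _ (by positivity)]
    exact hf.mono hcb
  have han : ∀ n, ‖a n‖ ≤ M / (2 * r) ^ n := by
    intro n
    have h := Complex.norm_iteratedDeriv_le_of_forall_mem_sphere_norm_le n (by positivity) hdc
      (fun z hz => hM z (hcb (sphere_subset_closedBall hz)))
    have hf0 : (0:ℝ) < n.factorial := by exact_mod_cast n.factorial_pos
    rw [ha]
    simp only
    rw [norm_mul, norm_inv, Complex.norm_natCast, inv_mul_le_iff₀ hf0]
    refine h.trans (le_of_eq ?_)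
    ring
  have hsum : ∀ z ∈ ball c (3 * r), HasSum (fun n : ℕ => a n * (z - c) ^ n) (f z) := by
    intro z hz
    have h := Complex.hasSum_taylorSeries_on_ball hf hz
    have e : (fun n : ℕ => a n * (z - c) ^ n) =
        fun n : ℕ => (n.factorial : ℂ)⁻¹ • (z - c) ^ n • iteratedDeriv n f c := by
      funext n
      rw [ha]
      simp only [smul_eq_mul]
      ring
    rw [e]
    exact h
  have hrem : ∀ z, ‖z - c‖ ≤ r →
      ‖f z - ∑ n ∈ range N, a n * (z - c) ^ n‖ ≤ 2 * M / 2 ^ N := by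
    intro z hz
    have hzb : z ∈ ball c (3 * r) := by
      rw [mem_ball, dist_eq_norm]
      linarith
    have h1 := (hasSum_nat_add_iff' N).2 (hsum z hzb)
    have h2 : HasSum (fun n : ℕ => M / 2 ^ N * (1 / 2 : ℝ) ^ n) (M / 2 ^ N * 2) :=
      hasSum_geometric_two.mul_left _
    have h3 := h1.norm_le_of_bounded h2 (by
      intro n
      rw [norm_mul, norm_pow]
      have h4 := han (n + N)
      have h5 : ‖z - c‖ ^ (n + N) ≤ r ^ (n + N) := pow_le_pow_left₀ (norm_nonneg _) hz _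
      calc ‖a (n + N)‖ * ‖z - c‖ ^ (n + N) ≤ M / (2 * r) ^ (n + N) * r ^ (n + N) :=
            mul_le_mul h4 h5 (by positivity) (by positivity)
        _ = M / 2 ^ N * (1 / 2) ^ n := by
            rw [mul_pow, pow_add 2 n N, one_div_pow]
            field_simp)
    refine h3.trans (le_of_eq ?_)
    ring
  set η' : ℝ := η + 2 * M / 2 ^ N with hη'
  have hη'0 : 0 ≤ η' := by positivity
  have hg : ∀ j < N, ‖∑ m ∈ range N, a m * (cp c r N j - c) ^ m‖ ≤ η' := by
    intro j hj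
    have h1 := hrem (cp c r N j) (cp_sub c hr N j).le
    have h2 := norm_sub_norm_le (∑ m ∈ range N, a m * (cp c r N j - c) ^ m) (f (cp c r N j))
    rw [norm_sub_rev] at h2
    linarith [hη j hj]
  have hNp : (0:ℝ) < N := by exact_mod_cast hN
  have hcoef : ∀ n < N, ‖a n‖ * r ^ n ≤ η' := by
    intro n hn
    have e1 : ∀ j, (∑ m ∈ range N, a m * (cp c r N j - c) ^ m) * ((rt N ^ j) ^ n)⁻¹ =
        ∑ m ∈ range N, (a m * r ^ m) * ((rt N ^ j) ^ m * ((rt N ^ j) ^ n)⁻¹) := by
      intro j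
      rw [sum_mul]
      refine sum_congr rfl fun m _ => ?_
      unfold cp
      rw [add_sub_cancel_left, mul_pow]
      ring
    have e : ∑ j ∈ range N, (∑ m ∈ range N, a m * (cp c r N j - c) ^ m) * ((rt N ^ j) ^ n)⁻¹ =
        (N:ℂ) * (a n * r ^ n) := by
      simp_rw [e1]
      rw [sum_comm]
      simp_rw [← mul_sum]
      rw [sum_congr rfl fun m hm => by rw [roots hN (mem_range.1 hm) hn]]
      simp only [mul_ite, mul_zero]
      rw [sum_ite_eq' (range N) n, if_pos (mem_range.2 hn)]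
      ring
    have h1 : ‖(N:ℂ) * (a n * r ^ n)‖ ≤ N * η' := by
      rw [← e]
      refine (norm_sum_le _ _).trans ?_
      refine (sum_le_card_nsmul _ _ η' fun j hj => ?_).trans (le_of_eq (by
        rw [card_range, nsmul_eq_mul]))
      rw [norm_mul, norm_inv, norm_pow, norm_pow, rt_norm, one_pow, one_pow, inv_one, mul_one]
      exact hg j (mem_range.1 hj)
    rw [norm_mul, norm_mul, norm_pow, Complex.norm_natCast, Complex.norm_real,
      Real.norm_of_nonneg hr.le] at h1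
    exact le_of_mul_le_mul_left h1 hNp
  have h1 := hrem w (by linarith)
  have h2 : ‖∑ n ∈ range N, a n * (w - c) ^ n‖ ≤ η' * 2 := by
    refine (norm_sum_le _ _).trans ?_
    have h3 : ∀ n ∈ range N, ‖a n * (w - c) ^ n‖ ≤ η' * (1 / 2) ^ n := by
      intro n hn
      have h4 := hcoef n (mem_range.1 hn)
      have h5 : ‖w - c‖ ^ n ≤ (r / 2) ^ n := pow_le_pow_left₀ (norm_nonneg _) hw n
      rw [norm_mul, norm_pow]
      calc ‖a n‖ * ‖w - c‖ ^ n ≤ ‖a n‖ * (r / 2) ^ n := mul_le_mul_of_nonneg_left h5 (norm_nonneg _)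
        _ = (‖a n‖ * r ^ n) * (1 / 2) ^ n := by
            rw [div_pow, one_div_pow]
            ring
        _ ≤ η' * (1 / 2) ^ n := mul_le_mul_of_nonneg_right h4 (by positivity)
    refine (sum_le_sum h3).trans ?_
    rw [← mul_sum]
    refine mul_le_mul_of_nonneg_left ?_ hη'0
    have h6 := Summable.sum_le_tsum (range N) (fun n _ => by positivity : ∀ n ∉ range N,
      (0:ℝ) ≤ (1 / 2) ^ n) summable_geometric_two
    rwa [tsum_geometric_two] at h6
  have h3 : ‖f w‖ ≤ ‖f w - ∑ n ∈ range N, a n * (w - c) ^ n‖ +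
      ‖∑ n ∈ range N, a n * (w - c) ^ n‖ := by
    have := norm_add_le (f w - ∑ n ∈ range N, a n * (w - c) ^ n)
      (∑ n ∈ range N, a n * (w - c) ^ n)
    rwa [sub_add_cancel] at this
  calc ‖f w‖ ≤ 2 * M / 2 ^ N + η' * 2 := by linarith
    _ = 2 * η + 6 * M / 2 ^ N := by
        rw [hη']
        ring

end

end Run7.h518.SW
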