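import Pool.Agent.Run7.h518.SW.Pow
import Pool.Agent.Run7.h518.SW.Net
import Pool.Agent.H269.GN.G061
import Pool.Agent.H306R2.ZetaGrowth

/-!
# The means over the windows as holomorphic functions (helper518)
-/

set_option autoImplicit false

namespace Run7.h518.SW

open Finset MeasureTheory Complex
open Pool.Agent.H306R2 hiding wt
open Pool.Agent.Y746.OA Pool.Agent.Y746.CS

noncomputable section

/-- the shifted product at a complex distance from the line -/
def Zc {k l : ℕ} (a : Fin k → ℝ) (b : Fin l → ℝ) (w : ℂ) (u : ℝ) : ℂ :=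
  (∏ j, riemannZeta (1 / 2 + w + ((u + a j : ℝ) : ℂ) * I)) *
    ∏ j, riemannZeta (1 / 2 + w - ((u + b j : ℝ) : ℂ) * I)

lemma Zc_eq {k l : ℕ} (a : Fin k → ℝ) (b : Fin l → ℝ) (δ y u : ℝ) :
    Zc a b ((δ:ℂ) + y * I) u = ZZ δ (fun j => a j + y) (fun j => b j - y) u := by
  unfold Zc ZZ sp
  rw [map_prod]
  congr 1
  · refine prod_congr rfl fun j _ => ?_
    congr 1
    push_cast
    ring
  · refine prod_congr rfl fun j _ => ?_
    rw [← riemannZeta_conj]
    congr 1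
    simp only [map_add, map_mul, Complex.conj_ofReal, Complex.conj_I]
    push_cast
    ring

/-- the diagonal sum at a complex distance from the line -/
def Dc {k l : ℕ} (a : Fin k → ℝ) (b : Fin l → ℝ) (w : ℂ) : ℂ :=
  LSeries (fun n => hc (Tk a) (Tk b) n) (1 + 2 * w)

lemma Dc_eq {k l : ℕ} (a : Fin k → ℝ) (b : Fin l → ℝ) (δ y : ℝ) :
    Dc a b ((δ:ℂ) + y * I) = dd (Tk fun j => a j + y) (Tk fun j => b j - y) δ := by
  unfold Dc LSeries dd
  refine tsum_congr fun n => ?_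
  rcases eq_or_ne n 0 with h | h
  · subst h
    rw [LSeries.term_zero, ArithmeticFunction.map_zero, zero_mul, zero_mul]
  · have hn0 : (n:ℂ) ≠ 0 := by exact_mod_cast h
    have h1 : 1 ≤ n := Nat.one_le_iff_ne_zero.2 h
    have e1 : (Tk fun j => b j - y) = Tk fun j => b j + (-y) := by
      simp only [sub_eq_add_neg]
    rw [LSeries.term_of_ne_zero h, hc_apply, e1, Tk_shift, Tk_shift, twc_apply, twc_apply, map_mul,
      w_cpow h, cpow_ex h1, cpow_ex h1, ex_conj]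
    have e2 : ex (-Real.log n) (-y) = ex (Real.log n) y := by
      unfold ex
      congr 2
      ring_nf
    have e3 : (n:ℂ) ^ (1 + 2 * ((δ:ℂ) + y * I)) =
        (n:ℂ) ^ (((1 + 2 * δ : ℝ)) : ℂ) * (n:ℂ) ^ ((y:ℂ) * I) * (n:ℂ) ^ ((y:ℂ) * I) := by
      rw [← Complex.cpow_add _ _ hn0, ← Complex.cpow_add _ _ hn0]
      congr 1
      push_cast
      ring
    have e4 : ex (Real.log n) y = ((n:ℂ) ^ ((y:ℂ) * I))⁻¹ := by
      rw [← cpow_ex h1, Complex.cpow_neg]
    rw [e2, e3, e4, div_eq_mul_inv, mul_inv, mul_inv]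
    ring

lemma Tk_dv {k : ℕ} (a : Fin k → ℝ) {P : ℕ} (h : k ≤ P) (n : ℕ) : ‖Tk a n‖ ≤ dv P n :=
  (Tk_le a n).trans (dv_mono (Nat.cast_nonneg k) (by exact_mod_cast h) n)

lemma Dc_diff {k l : ℕ} (a : Fin k → ℝ) (b : Fin l → ℝ) {w : ℂ} (hw : 0 < w.re) :
    DifferentiableAt ℂ (Dc a b) w := by
  set δ : ℝ := min (w.re / 2) 1 with hδ
  have hδ0 : 0 < δ := lt_min (by linarith) one_pos
  have hδ1 : δ ≤ 1 := min_le_right _ _
  have hδw : δ < w.re := lt_of_le_of_lt (min_le_left _ _) (by linarith)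
  have hs : LSeriesSummable (fun n => hc (Tk a) (Tk b) n) (((1 + 2 * δ : ℝ)) : ℂ) := by
    have h := (ab_hasSum (Tk_dv a (P := k + l + 1) (by omega)) (Tk_dv b (P := k + l + 1) (by omega))
      hδ0 hδ1).summable
    refine h.congr fun n => ?_
    rw [hc_term]
  have h1 := hs.abscissaOfAbsConv_le
  have h2 : LSeries.abscissaOfAbsConv (fun n => hc (Tk a) (Tk b) n) < ((1 + 2 * w).re : EReal) := by
    refine lt_of_le_of_lt h1 ?_
    rw [EReal.coe_lt_coe_iff]
    simp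
    exact hδw
  have h3 := (LSeries_hasDerivAt h2).differentiableAt
  have h4 : DifferentiableAt ℂ (fun z : ℂ => 1 + 2 * z) w := by fun_prop
  exact h3.comp w h4

/-- a bound for zeta in the strip -/
lemma zb : ∃ K : ℝ, 1 ≤ K ∧ ∀ s : ℂ, 1 / 2 ≤ s.re → s.re ≤ 3 / 4 →
    ‖riemannZeta s‖ ≤ K * (‖s‖ + 1) ^ 2 := by
  have hcomp : IsCompact (Set.Icc (1/2:ℝ) (3/4) ×ℂ Set.Icc (-1/2:ℝ) (1/2)) :=
    isCompact_Icc.reProdIm isCompact_Icc
  have hcont : ContinuousOn riemannZeta (Set.Icc (1/2:ℝ) (3/4) ×ℂ Set.Icc (-1/2:ℝ) (1/2)) := by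
    intro s hs
    refine (differentiableAt_riemannZeta ?_).continuousAt.continuousWithinAt
    intro h
    subst h
    have := hs.1.2
    norm_num at this
  obtain ⟨K, hK⟩ := hcomp.exists_bound_of_continuousOn hcont
  refine ⟨max K 6, le_trans (by norm_num) (le_max_right _ _), fun s h1 h2 => ?_⟩
  have h3 : 1 ≤ (‖s‖ + 1) ^ 2 := by nlinarith [norm_nonneg s]
  by_cases h : |s.im| ≤ 1 / 2
  · have h4 := hK s ⟨⟨h1, h2⟩, by
      rw [abs_le] at h
      constructor <;> linarith⟩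
    have h6 : 0 ≤ max K 6 := le_trans (by norm_num) (le_max_right _ _)
    calc ‖riemannZeta s‖ ≤ max K 6 := h4.trans (le_max_left _ _)
      _ = max K 6 * 1 := (mul_one _).symm
      _ ≤ _ := mul_le_mul_of_nonneg_left h3 h6
  · push Not at h
    have h5 : 1 / 2 ≤ ‖s - 1‖ := by
      have := Complex.abs_im_le_norm (s - 1)
      simp at this
      linarith
    exact (zeta_norm_le h1 h5).trans (mul_le_mul_of_nonneg_right (le_max_right _ _) (by positivity))

/-- the deviation of the mean over a window from the main term -/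
def Ec {k l : ℕ} (a : Fin k → ℝ) (b : Fin l → ℝ) (H t : ℝ) (w : ℂ) : ℂ :=
  (1 / (H:ℂ)) * (∫ u in Set.Ioc 0 H, Zc a b w (t + u)) - Dc a b w

lemma Ec_eq {k l : ℕ} (a : Fin k → ℝ) (b : Fin l → ℝ) (H t δ y : ℝ) :
    Ec a b H t ((δ:ℂ) + y * I) = wm (ZZ δ (fun j => a j + y) (fun j => b j - y)) H t -
      dd (Tk fun j => a j + y) (Tk fun j => b j - y) δ := by
  unfold Ec wm
  simp_rw [Zc_eq, Dc_eq]

lemma Ec_real {k l : ℕ} (a : Fin k → ℝ) (b : Fin l → ℝ) (H t δ : ℝ) :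
    Ec a b H t (δ:ℂ) = wm (ZZ δ a b) H t - dd (Tk a) (Tk b) δ := by
  have h := Ec_eq a b H t δ 0
  simpa using h

lemma arg_re (w : ℂ) (x : ℝ) : (1 / 2 + w + (x:ℂ) * I).re = 1 / 2 + w.re ∧
    (1 / 2 + w - (x:ℂ) * I).re = 1 / 2 + w.re := by
  constructor <;> simp

lemma Zc_norm (k l : ℕ) : ∃ T0 : ℝ, 4 ≤ T0 ∧ ∀ T : ℝ, T0 ≤ T →
    ∀ (a : Fin k → ℝ) (b : Fin l → ℝ), (∀ j, |a j| ≤ T) → (∀ j, |b j| ≤ T) →
    ∀ (w : ℂ) (u : ℝ), 0 ≤ w.re → w.re ≤ 1 / 4 → ‖w‖ ≤ 1 → |u| ≤ 2 * T →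
      ‖Zc a b w u‖ ≤ (T ^ 3) ^ (k + l) := by
  obtain ⟨K, hK, h⟩ := zb
  refine ⟨max 4 (25 * K), le_max_left _ _, fun T hT a b ha hb w u hw0 hw1 hw hu => ?_⟩
  have hT4 : 4 ≤ T := (le_max_left _ _).trans hT
  have hTK : 25 * K ≤ T := (le_max_right _ _).trans hT
  have key : ∀ (s : ℂ) (x : ℝ), (s = 1 / 2 + w + (x:ℂ) * I ∨ s = 1 / 2 + w - (x:ℂ) * I) →
      |x| ≤ 3 * T → ‖riemannZeta s‖ ≤ T ^ 3 := by
    intro s x hs hx
    have hre : s.re = 1 / 2 + w.re := by
      rcases hs with rfl | rfl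
      · exact (arg_re w x).1
      · exact (arg_re w x).2
    have hn : ‖s‖ ≤ 1 / 2 + ‖w‖ + |x| := by
      have h2 : ‖(x:ℂ) * I‖ = |x| := by
        rw [norm_mul, Complex.norm_I, mul_one, Complex.norm_real, Real.norm_eq_abs]
      have h3 : ‖(1/2:ℂ) + w‖ ≤ 1 / 2 + ‖w‖ := by
        refine (norm_add_le _ _).trans (le_of_eq ?_)
        norm_num
      rcases hs with rfl | rfl
      · exact (norm_add_le _ _).trans (by rw [h2]; linarith)
      · exact (norm_sub_le _ _).trans (by rw [h2]; linarith)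
    have h1 := h s (by rw [hre]; linarith) (by rw [hre]; linarith)
    have h2 : ‖s‖ + 1 ≤ 5 * T := by linarith
    have h3 : (‖s‖ + 1) ^ 2 ≤ (5 * T) ^ 2 := pow_le_pow_left₀ (by positivity) h2 2
    calc ‖riemannZeta s‖ ≤ K * (5 * T) ^ 2 :=
          h1.trans (mul_le_mul_of_nonneg_left h3 (by linarith))
      _ = (25 * K) * T ^ 2 := by ring
      _ ≤ T * T ^ 2 := mul_le_mul_of_nonneg_right hTK (by positivity)
      _ = T ^ 3 := by ring
  have hab : ∀ x : ℝ, |x| ≤ T → |u + x| ≤ 3 * T := by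
    intro x hx
    have := abs_add_le u x
    linarith
  unfold Zc
  rw [norm_mul, norm_prod, norm_prod, pow_add]
  refine mul_le_mul ?_ ?_ (prod_nonneg fun j _ => norm_nonneg _) (by positivity)
  · refine (prod_le_prod (fun j _ => norm_nonneg _) fun j _ =>
      key _ (u + a j) (Or.inl rfl) (hab _ (ha j))).trans ?_
    rw [prod_const, card_univ, Fintype.card_fin]
  · refine (prod_le_prod (fun j _ => norm_nonneg _) fun j _ =>
      key _ (u + b j) (Or.inr rfl) (hab _ (hb j))).trans ?_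
    rw [prod_const, card_univ, Fintype.card_fin]

lemma ne_one_of_re {s : ℂ} (h : s.re < 1) : s ≠ 1 := by
  rintro rfl
  simp at h

lemma Zc_diff {k l : ℕ} (a : Fin k → ℝ) (b : Fin l → ℝ) {w : ℂ} (hw : w.re < 1 / 4) (u : ℝ) :
    DifferentiableAt ℂ (fun z => Zc a b z u) w := by
  unfold Zc
  refine DifferentiableAt.mul ?_ ?_
  · refine DifferentiableAt.fun_finsetProd fun j _ => ?_
    have h1 : DifferentiableAt ℂ (fun z : ℂ => 1 / 2 + z + ((u + a j : ℝ) : ℂ) * I) w := by fun_prop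
    exact (differentiableAt_riemannZeta (ne_one_of_re (by
      rw [(arg_re w _).1]
      linarith))).comp w h1
  · refine DifferentiableAt.fun_finsetProd fun j _ => ?_
    have h1 : DifferentiableAt ℂ (fun z : ℂ => 1 / 2 + z - ((u + b j : ℝ) : ℂ) * I) w := by fun_prop
    exact (differentiableAt_riemannZeta (ne_one_of_re (by
      rw [(arg_re w _).2]
      linarith))).comp w h1

lemma Zc_cont {k l : ℕ} (a : Fin k → ℝ) (b : Fin l → ℝ) {w : ℂ} (hw : w.re < 1 / 4) :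
    Continuous fun u : ℝ => Zc a b w u := by
  unfold Zc
  refine Continuous.mul ?_ ?_
  · refine continuous_finsetProd _ fun j _ => ?_
    rw [continuous_iff_continuousAt]
    intro u
    have h1 : ContinuousAt (fun u : ℝ => 1 / 2 + w + ((u + a j : ℝ) : ℂ) * I) u := by fun_prop
    exact ContinuousAt.comp (f := fun u : ℝ => 1 / 2 + w + ((u + a j : ℝ) : ℂ) * I)
      (differentiableAt_riemannZeta (ne_one_of_re (by
        rw [(arg_re w _).1]
        linarith))).continuousAt h1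
  · refine continuous_finsetProd _ fun j _ => ?_
    rw [continuous_iff_continuousAt]
    intro u
    have h1 : ContinuousAt (fun u : ℝ => 1 / 2 + w - ((u + b j : ℝ) : ℂ) * I) u := by fun_prop
    exact ContinuousAt.comp (f := fun u : ℝ => 1 / 2 + w - ((u + b j : ℝ) : ℂ) * I)
      (differentiableAt_riemannZeta (ne_one_of_re (by
        rw [(arg_re w _).2]
        linarith))).continuousAt h1

end

end Run7.h518.SW
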