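import Pool.Agent.Y746.OA.SM

/-!
# The nondiagonal sum

For the variance over short windows of the shifted products of values of zeta (helper518).
-/

set_option autoImplicit false

namespace Run7.h518.SW

open Finset Pool.Agent.H306R2 Pool.Agent.Y746.OA

noncomputable section

lemma lc_add_le {α : ℝ} (hα : 1 ≤ α) (a b : ℕ) : lc α (a + b) ≤ lc α a * lc α b := by
  induction b with
  | zero => simp [lc_zero]
  | succ b ih =>
    have h0 : 0 ≤ α := by linarith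
    rw [← add_assoc, lc_succ, lc_succ, ← mul_assoc]
    refine mul_le_mul ih ?_ (by positivity) (mul_nonneg (lc_nonneg h0 a) (lc_nonneg h0 b))
    push_cast
    rw [div_le_div_iff₀ (by positivity) (by positivity)]
    have h1 : (0:ℝ) ≤ a := Nat.cast_nonneg a
    nlinarith [mul_nonneg h1 (sub_nonneg.2 hα)]

lemma lc_one_le {α : ℝ} (hα : 1 ≤ α) (a : ℕ) : 1 ≤ lc α a := by
  induction a with
  | zero => simp [lc_zero]
  | succ a ih =>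
    rw [lc_succ]
    refine one_le_mul_of_one_le_of_one_le ih ?_
    rw [le_div_iff₀ (by positivity)]
    linarith

lemma dv_mul_le {α : ℝ} (hα : 1 ≤ α) (m n : ℕ) : dv α (m * n) ≤ dv α m * dv α n := by
  have h0 : 0 ≤ α := by linarith
  rcases Nat.eq_zero_or_pos m with hm | hm
  · subst hm
    simp [dv]
  rcases Nat.eq_zero_or_pos n with hn | hn
  · subst hn
    simp [dv]
  have hm' : m ≠ 0 := hm.ne'
  have hn' : n ≠ 0 := hn.ne'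
  simp only [dv, if_neg hm', if_neg hn', if_neg (mul_ne_zero hm' hn')]
  set S : Finset ℕ := m.primeFactors ∪ n.primeFactors with hS
  have e1 : m.factorization.prod (fun _ e => lc α e) = ∏ p ∈ S, lc α (m.factorization p) := by
    refine Finsupp.prod_of_support_subset _ ?_ _ fun p _ => lc_zero α
    rw [Nat.support_factorization]
    exact subset_union_left
  have e2 : n.factorization.prod (fun _ e => lc α e) = ∏ p ∈ S, lc α (n.factorization p) := by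
    refine Finsupp.prod_of_support_subset _ ?_ _ fun p _ => lc_zero α
    rw [Nat.support_factorization]
    exact subset_union_right
  have e3 : (m * n).factorization.prod (fun _ e => lc α e) =
      ∏ p ∈ S, lc α (m.factorization p + n.factorization p) := by
    rw [Finsupp.prod_of_support_subset _ (s := S) ?_ _ fun p _ => lc_zero α]
    · refine prod_congr rfl fun p _ => ?_
      rw [Nat.factorization_mul hm' hn', Finsupp.add_apply]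
    · rw [Nat.support_factorization, Nat.primeFactors_mul hm' hn']
  rw [e1, e2, e3, ← prod_mul_distrib]
  exact prod_le_prod (fun p _ => lc_nonneg h0 _) fun p _ => lc_add_le hα _ _

lemma sum_inj {α β : Type} {S : Finset α} {T : Finset β} {f : α → ℝ} {F : β → ℝ} (φ : α → β)
    (h1 : ∀ x ∈ S, φ x ∈ T) (h2 : ∀ x ∈ S, ∀ y ∈ S, φ x = φ y → x = y) (h3 : ∀ y ∈ T, 0 ≤ F y)
    (h4 : ∀ x ∈ S, f x ≤ F (φ x)) : ∑ x ∈ S, f x ≤ ∑ y ∈ T, F y := by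
  classical
  calc ∑ x ∈ S, f x ≤ ∑ x ∈ S, F (φ x) := sum_le_sum h4
    _ = ∑ y ∈ S.image φ, F y := by
        rw [sum_image fun x hx y hy h => h2 x hx y hy h]
    _ ≤ ∑ y ∈ T, F y := by
        refine sum_le_sum_of_subset_of_nonneg ?_ fun y hy _ => h3 y hy
        intro y hy
        obtain ⟨x, hx, rfl⟩ := mem_image.1 hy
        exact h1 x hx

/-- the sums of the powers of the divisor functions -/
lemma sum2 (P : ℕ) {δ : ℝ} (hδ : 0 < δ) (hδ1 : δ ≤ 1) (F : Finset ℕ) :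
    ∑ n ∈ F, dv P n ^ 2 * (n:ℝ) ^ (-1 - δ) ≤ (2 / δ) ^ (P ^ 2) := by
  refine le_trans (sum_le_sum fun n _ => ?_) (dvJ_sum (P ^ 2) hδ hδ1 F)
  have h := dv_sq_le (κ := (P:ℝ)) (Nat.cast_nonneg P) n
  push_cast
  exact mul_le_mul_of_nonneg_right h (by positivity)

lemma dv4 (P : ℕ) (n : ℕ) : dv P n ^ 4 ≤ dv ((P ^ 4 : ℕ) : ℝ) n := by
  have h := dv_sq_le (κ := (P:ℝ)) (Nat.cast_nonneg P) n
  have h2 := dv_sq_le (κ := (P:ℝ) ^ 2) (by positivity) n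
  have h3 : dv P n ^ 4 = (dv P n ^ 2) ^ 2 := by ring
  rw [h3]
  refine (pow_le_pow_left₀ (by positivity) h 2).trans (h2.trans (le_of_eq ?_))
  congr 1
  push_cast
  ring

lemma sum4 (P : ℕ) {δ : ℝ} (hδ : 0 < δ) (hδ1 : δ ≤ 1) (F : Finset ℕ) :
    ∑ n ∈ F, dv P n ^ 4 * (n:ℝ) ^ (-1 - δ) ≤ (2 / δ) ^ (P ^ 4) := by
  refine le_trans (sum_le_sum fun n _ => ?_) (dvJ_sum (P ^ 4) hδ hδ1 F)
  exact mul_le_mul_of_nonneg_right (dv4 P n) (by positivity)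

/-- `Y^(-2δ) (1 + log Y) ≤ (1 + 1/δ) Y^(-δ)` -/
lemma log_bd {δ : ℝ} (hδ : 0 < δ) {Y : ℕ} (hY : 1 ≤ Y) :
    (Y:ℝ) ^ (-1 - 2 * δ) * (1 + Real.log Y) ≤ (1 + 1 / δ) * (Y:ℝ) ^ (-1 - δ) := by
  have hY0 : (0:ℝ) < Y := by exact_mod_cast hY
  have hY1 : (1:ℝ) ≤ Y := by exact_mod_cast hY
  have h1 : (Y:ℝ) ^ (-1 - 2 * δ) = (Y:ℝ) ^ (-1 - δ) * (Y:ℝ) ^ (-δ) := by
    rw [← Real.rpow_add hY0]
    congr 1
    ring
  have h2 : Real.log Y ≤ (Y:ℝ) ^ δ / δ := Real.log_le_rpow_div hY0.le hδ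
  have h3 : (1:ℝ) ≤ (Y:ℝ) ^ δ := Real.one_le_rpow hY1 hδ.le
  have h4 : (Y:ℝ) ^ (-δ) * (Y:ℝ) ^ δ = 1 := by
    rw [← Real.rpow_add hY0]
    simp
  have h5 : (Y:ℝ) ^ (-δ) * (1 + Real.log Y) ≤ 1 + 1 / δ := by
    have h6 : 0 ≤ (Y:ℝ) ^ (-δ) := by positivity
    calc (Y:ℝ) ^ (-δ) * (1 + Real.log Y) ≤ (Y:ℝ) ^ (-δ) * ((Y:ℝ) ^ δ + (Y:ℝ) ^ δ / δ) := by
          gcongr
      _ = (1 + 1 / δ) * ((Y:ℝ) ^ (-δ) * (Y:ℝ) ^ δ) := by ring
      _ = 1 + 1 / δ := by rw [h4, mul_one]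
  rw [h1, mul_assoc, mul_comm (1 + 1 / δ)]
  exact mul_le_mul_of_nonneg_left h5 (by positivity)

lemma harm (Y : ℕ) (hY : 1 ≤ Y) : ∑ X ∈ Ico 1 Y, 1 / (X:ℝ) ≤ 1 + Real.log Y := by
  have h := harmonic_le_one_add_log Y
  have h2 : ∑ X ∈ Ico 1 Y, 1 / (X:ℝ) ≤ (harmonic Y : ℝ) := by
    rw [harmonic_eq_sum_Icc]
    push_cast
    refine le_trans (le_of_eq ?_) (sum_le_sum_of_subset_of_nonneg (s := Ico 1 Y) ?_ ?_)
    · refine sum_congr rfl fun X _ => ?_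
      rw [one_div]
    · intro X hX
      rw [mem_Ico] at hX
      exact mem_Icc.2 ⟨hX.1, hX.2.le⟩
    · intro X _ _
      positivity
  exact h2.trans h

lemma harm2 (Y : ℕ) (hY : 1 ≤ Y) : ∑ X ∈ Ico 1 Y, 1 / ((Y:ℝ) - X) ≤ 1 + Real.log Y := by
  refine le_trans (le_of_eq ?_) (harm Y hY)
  refine sum_bij' (fun X _ => Y - X) (fun X _ => Y - X) ?_ ?_ ?_ ?_ ?_
  · intro X hX
    rw [mem_Ico] at hX ⊢
    omega
  · intro X hX
    rw [mem_Ico] at hX ⊢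
    omega
  · intro X hX
    rw [mem_Ico] at hX
    omega
  · intro X hX
    rw [mem_Ico] at hX
    omega
  · intro X hX
    rw [mem_Ico] at hX
    rw [Nat.cast_sub (by omega)]

/-- The pairs. -/
lemma pairs (P : ℕ) {δ : ℝ} (hδ : 0 < δ) (hδ1 : δ ≤ 1) (N : ℕ) :
    ∑ Y ∈ Icc 1 N, ∑ X ∈ Ico 1 Y, dv P X ^ 2 * dv P Y ^ 2 * (X:ℝ) ^ (-1 - 2 * δ) *
      (Y:ℝ) ^ (-1 - 2 * δ) * (Y / ((Y:ℝ) - X)) ≤ 3 * (2 / δ) ^ (P ^ 4 + 1) := by
  have hpow : ∀ n : ℕ, 1 ≤ n → (n:ℝ) ^ (-1 - 2 * δ) ≤ (n:ℝ) ^ (-1 - δ) := by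
    intro n hn
    exact Real.rpow_le_rpow_of_exponent_le (by exact_mod_cast hn) (by linarith)
  -- the first part
  have hA : ∑ Y ∈ Icc 1 N, ∑ X ∈ Ico 1 Y, dv P X ^ 4 * (X:ℝ) ^ (-1 - 2 * δ) *
      ((Y:ℝ) ^ (-1 - 2 * δ) * (Y / ((Y:ℝ) - X))) ≤ (2 / δ) ^ (P ^ 4) * (2 / δ) := by
    have h1 : ∀ Y ∈ Icc 1 N, ∀ X ∈ Ico 1 Y, dv P X ^ 4 * (X:ℝ) ^ (-1 - 2 * δ) *
        ((Y:ℝ) ^ (-1 - 2 * δ) * (Y / ((Y:ℝ) - X))) ≤
        (dv P X ^ 4 * (X:ℝ) ^ (-1 - δ)) * (((Y - X : ℕ) : ℝ) ^ (-1 - δ)) := by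
      intro Y hY X hX
      rw [mem_Ico] at hX
      rw [mem_Icc] at hY
      have hX0 : (0:ℝ) < X := by exact_mod_cast hX.1
      have hY0 : (0:ℝ) < Y := by exact_mod_cast hY.1
      have hd : 1 ≤ Y - X := by omega
      have hd0 : (0:ℝ) < ((Y - X : ℕ) : ℝ) := by exact_mod_cast hd
      have hdc : ((Y - X : ℕ) : ℝ) = (Y:ℝ) - X := by rw [Nat.cast_sub hX.2.le]
      have hle : ((Y - X : ℕ) : ℝ) ≤ Y := by rw [hdc]; linarith
      have e1 : (Y:ℝ) ^ (-1 - 2 * δ) * (Y / ((Y:ℝ) - X)) = (Y:ℝ) ^ (-(2 * δ)) / ((Y - X : ℕ) : ℝ) := by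
        rw [hdc, show (-1 - 2 * δ : ℝ) = -(2 * δ) - 1 by ring, Real.rpow_sub hY0, Real.rpow_one]
        field_simp
      have e2 : (Y:ℝ) ^ (-(2 * δ)) / ((Y - X : ℕ) : ℝ) ≤ ((Y - X : ℕ) : ℝ) ^ (-1 - δ) := by
        rw [show (-1 - δ : ℝ) = -δ - 1 by ring, Real.rpow_sub hd0, Real.rpow_one]
        refine div_le_div_of_nonneg_right ?_ hd0.le
        calc (Y:ℝ) ^ (-(2 * δ)) ≤ (Y:ℝ) ^ (-δ) :=
              Real.rpow_le_rpow_of_exponent_le (by exact_mod_cast hY.1) (by linarith)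
          _ ≤ ((Y - X : ℕ) : ℝ) ^ (-δ) := Real.rpow_le_rpow_of_nonpos hd0 hle (by linarith)
      rw [e1]
      refine mul_le_mul ?_ e2 (by positivity) (by positivity)
      exact mul_le_mul_of_nonneg_left (hpow X hX.1) (by positivity)
    refine (sum_le_sum fun Y hY => sum_le_sum fun X hX => h1 Y hY X hX).trans ?_
    have h2 : ∑ Y ∈ Icc 1 N, ∑ X ∈ Ico 1 Y, (dv P X ^ 4 * (X:ℝ) ^ (-1 - δ)) *
        (((Y - X : ℕ) : ℝ) ^ (-1 - δ)) ≤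
        ∑ X ∈ Icc 1 N, ∑ h ∈ Icc 1 N, (dv P X ^ 4 * (X:ℝ) ^ (-1 - δ)) * ((h:ℝ) ^ (-1 - δ)) := by
      rw [sum_sigma', sum_sigma']
      refine sum_inj (fun x : (Σ _ : ℕ, ℕ) => (⟨x.2, x.1 - x.2⟩ : Σ _ : ℕ, ℕ)) ?_ ?_ ?_ ?_
      · intro x hx
        rw [mem_sigma, mem_Icc, mem_Ico] at hx
        rw [mem_sigma, mem_Icc, mem_Icc]
        simp only
        omega
      · rintro ⟨Y, X⟩ hx ⟨Y', X'⟩ hx' h
        rw [mem_sigma, mem_Icc, mem_Ico] at hx hx'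
        simp only [Sigma.mk.injEq, heq_eq_eq] at h hx hx'
        obtain ⟨h1, h2⟩ := h
        subst h1
        have : Y = Y' := by omega
        subst this
        rfl
      · intro x _
        positivity
      · intro x hx
        exact le_rfl
    refine h2.trans ?_
    rw [← sum_mul_sum]
    have h3 := sum4 P hδ hδ1 (Icc 1 N)
    have h4 : ∑ h ∈ Icc 1 N, (h:ℝ) ^ (-1 - δ) ≤ 2 / δ := by
      have h5 := dvJ_sum 1 hδ hδ1 (Icc 1 N)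
      rw [pow_one] at h5
      refine le_trans (le_of_eq (sum_congr rfl fun n hn => ?_)) h5
      rw [mem_Icc] at hn
      have h6 : dv ((1:ℕ):ℝ) n = 1 := by
        have h7 := dA_one_apply hn.1
        rw [dA_apply] at h7
        rw [Nat.cast_one]
        exact h7
      rw [h6, one_mul]
    exact mul_le_mul h3 h4 (sum_nonneg fun _ _ => by positivity) (by positivity)
  -- the second part
  have hB : ∑ Y ∈ Icc 1 N, ∑ X ∈ Ico 1 Y, dv P Y ^ 4 * (X:ℝ) ^ (-1 - 2 * δ) *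
      ((Y:ℝ) ^ (-1 - 2 * δ) * (Y / ((Y:ℝ) - X))) ≤ (2 / δ) ^ (P ^ 4) * (2 * (2 / δ)) := by
    have h1 : ∀ Y ∈ Icc 1 N, ∑ X ∈ Ico 1 Y, dv P Y ^ 4 * (X:ℝ) ^ (-1 - 2 * δ) *
        ((Y:ℝ) ^ (-1 - 2 * δ) * (Y / ((Y:ℝ) - X))) ≤
        (dv P Y ^ 4 * (Y:ℝ) ^ (-1 - δ)) * (2 * (1 + 1 / δ)) := by
      intro Y hY
      rw [mem_Icc] at hY
      have hY0 : (0:ℝ) < Y := by exact_mod_cast hY.1
      have h2 : ∀ X ∈ Ico 1 Y, dv P Y ^ 4 * (X:ℝ) ^ (-1 - 2 * δ) *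
          ((Y:ℝ) ^ (-1 - 2 * δ) * (Y / ((Y:ℝ) - X))) ≤
          (dv P Y ^ 4 * (Y:ℝ) ^ (-1 - 2 * δ)) * (1 / (X:ℝ) + 1 / ((Y:ℝ) - X)) := by
        intro X hX
        rw [mem_Ico] at hX
        have hX0 : (0:ℝ) < X := by exact_mod_cast hX.1
        have hd0 : (0:ℝ) < (Y:ℝ) - X := by
          have : (X:ℝ) < Y := by exact_mod_cast hX.2
          linarith
        have e1 : 1 / (X:ℝ) + 1 / ((Y:ℝ) - X) = (1 / (X:ℝ)) * (Y / ((Y:ℝ) - X)) := by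
          field_simp
          ring
        have e2 : (X:ℝ) ^ (-1 - 2 * δ) ≤ 1 / (X:ℝ) := by
          rw [one_div, ← Real.rpow_neg_one]
          exact Real.rpow_le_rpow_of_exponent_le (by exact_mod_cast hX.1) (by linarith)
        rw [e1]
        have h3 : 0 ≤ (Y / ((Y:ℝ) - X)) := by positivity
        have h4 : 0 ≤ dv P Y ^ 4 * (Y:ℝ) ^ (-1 - 2 * δ) := by positivity
        calc dv P Y ^ 4 * (X:ℝ) ^ (-1 - 2 * δ) * ((Y:ℝ) ^ (-1 - 2 * δ) * (Y / ((Y:ℝ) - X))) =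
            (dv P Y ^ 4 * (Y:ℝ) ^ (-1 - 2 * δ)) * ((X:ℝ) ^ (-1 - 2 * δ) * (Y / ((Y:ℝ) - X))) := by
              ring
          _ ≤ _ := by
              refine mul_le_mul_of_nonneg_left ?_ h4
              exact mul_le_mul_of_nonneg_right e2 h3
      refine (sum_le_sum h2).trans ?_
      rw [← mul_sum, sum_add_distrib, mul_assoc (dv P Y ^ 4), mul_assoc (dv P Y ^ 4)]
      refine mul_le_mul_of_nonneg_left ?_ (by positivity)
      have h3 := harm Y hY.1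
      have h4 := harm2 Y hY.1
      have h5 := log_bd hδ hY.1
      have h6 : 0 ≤ (Y:ℝ) ^ (-1 - 2 * δ) := by positivity
      calc (Y:ℝ) ^ (-1 - 2 * δ) * (∑ X ∈ Ico 1 Y, 1 / (X:ℝ) + ∑ X ∈ Ico 1 Y, 1 / ((Y:ℝ) - X)) ≤
          (Y:ℝ) ^ (-1 - 2 * δ) * (2 * (1 + Real.log Y)) := by
            refine mul_le_mul_of_nonneg_left ?_ h6
            linarith
        _ = 2 * ((Y:ℝ) ^ (-1 - 2 * δ) * (1 + Real.log Y)) := by ring
        _ ≤ 2 * ((1 + 1 / δ) * (Y:ℝ) ^ (-1 - δ)) := by linarith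
        _ = _ := by ring
    refine (sum_le_sum h1).trans ?_
    rw [← sum_mul]
    refine mul_le_mul (sum4 P hδ hδ1 _) ?_ (by positivity) (by positivity)
    have : 1 ≤ 1 / δ := by rw [le_div_iff₀ hδ]; linarith
    have h2 : 2 / δ = 2 * (1 / δ) := by ring
    rw [h2]
    linarith
  have hC : ∑ Y ∈ Icc 1 N, ∑ X ∈ Ico 1 Y, dv P X ^ 2 * dv P Y ^ 2 * (X:ℝ) ^ (-1 - 2 * δ) *
      (Y:ℝ) ^ (-1 - 2 * δ) * (Y / ((Y:ℝ) - X)) ≤
      (1 / 2) * (∑ Y ∈ Icc 1 N, ∑ X ∈ Ico 1 Y, dv P X ^ 4 * (X:ℝ) ^ (-1 - 2 * δ) *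
      ((Y:ℝ) ^ (-1 - 2 * δ) * (Y / ((Y:ℝ) - X)))) +
      (1 / 2) * (∑ Y ∈ Icc 1 N, ∑ X ∈ Ico 1 Y, dv P Y ^ 4 * (X:ℝ) ^ (-1 - 2 * δ) *
      ((Y:ℝ) ^ (-1 - 2 * δ) * (Y / ((Y:ℝ) - X)))) := by
    rw [mul_sum, mul_sum, ← sum_add_distrib]
    refine sum_le_sum fun Y hY => ?_
    rw [mul_sum, mul_sum, ← sum_add_distrib]
    refine sum_le_sum fun X hX => ?_
    rw [mem_Ico] at hX
    have hd0 : (0:ℝ) < (Y:ℝ) - X := by
      have : (X:ℝ) < Y := by exact_mod_cast hX.2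
      linarith
    have h1 : 0 ≤ (X:ℝ) ^ (-1 - 2 * δ) * ((Y:ℝ) ^ (-1 - 2 * δ) * (Y / ((Y:ℝ) - X))) := by
      positivity
    have h2 : dv P X ^ 2 * dv P Y ^ 2 ≤ 1 / 2 * (dv P X ^ 4) + 1 / 2 * (dv P Y ^ 4) := by
      nlinarith [sq_nonneg (dv P X ^ 2 - dv P Y ^ 2)]
    calc dv P X ^ 2 * dv P Y ^ 2 * (X:ℝ) ^ (-1 - 2 * δ) *
        (Y:ℝ) ^ (-1 - 2 * δ) * (Y / ((Y:ℝ) - X)) = (dv P X ^ 2 * dv P Y ^ 2) *
          ((X:ℝ) ^ (-1 - 2 * δ) * ((Y:ℝ) ^ (-1 - 2 * δ) * (Y / ((Y:ℝ) - X)))) := by ring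
      _ ≤ (1 / 2 * (dv P X ^ 4) + 1 / 2 * (dv P Y ^ 4)) *
          ((X:ℝ) ^ (-1 - 2 * δ) * ((Y:ℝ) ^ (-1 - 2 * δ) * (Y / ((Y:ℝ) - X)))) :=
            mul_le_mul_of_nonneg_right h2 h1
      _ = _ := by ring
  have h0 : 0 ≤ (2 / δ) ^ (P ^ 4) * (2 / δ) := by positivity
  rw [pow_succ]
  linarith

/-- the summand -/
def ff (P : ℕ) (δ : ℝ) (n : ℕ) (x y : ℕ × ℕ) : ℝ :=
  if x.1 = y.1 then 0 else dv P x.1 * dv P x.2 * dv P y.1 * dv P y.2 * (n:ℝ) ^ (-1 - 2 * δ) /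
    |Real.log x.1 - Real.log y.1|

lemma ff_nonneg (P : ℕ) (δ : ℝ) (n : ℕ) (x y : ℕ × ℕ) : 0 ≤ ff P δ n x y := by
  unfold ff
  have h := fun m : ℕ => dv_nonneg (α := (P:ℝ)) (Nat.cast_nonneg P) m
  split_ifs
  · exact le_rfl
  · have h1 := h x.1
    have h2 := h x.2
    have h3 := h y.1
    have h4 := h y.2
    positivity

/-- the factor for coprime pairs -/
def pp (P : ℕ) (δ : ℝ) (X Y : ℕ) : ℝ :=
  if X < Y then dv P X ^ 2 * dv P Y ^ 2 * (X:ℝ) ^ (-1 - 2 * δ) *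
      (Y:ℝ) ^ (-1 - 2 * δ) * (Y / ((Y:ℝ) - X)) else 0

lemma pp_nonneg (P : ℕ) (δ : ℝ) (X Y : ℕ) : 0 ≤ pp P δ X Y := by
  unfold pp
  split_ifs with h
  · have hd0 : (0:ℝ) < (Y:ℝ) - X := by
      have : (X:ℝ) < Y := by exact_mod_cast h
      linarith
    positivity
  · exact le_rfl

lemma log_inv {X Y : ℕ} (hX : 1 ≤ X) (h : X < Y) :
    1 / |Real.log X - Real.log Y| ≤ Y / ((Y:ℝ) - X) := by
  have hX0 : (0:ℝ) < X := by exact_mod_cast hX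
  have hXY : (X:ℝ) < Y := by exact_mod_cast h
  have hY0 : (0:ℝ) < Y := by linarith
  have h1 : Real.log X - Real.log Y ≤ X / Y - 1 := by
    rw [← Real.log_div hX0.ne' hY0.ne']
    exact Real.log_le_sub_one_of_pos (by positivity)
  have h2 : ((Y:ℝ) - X) / Y ≤ |Real.log X - Real.log Y| := by
    rw [abs_of_nonpos (by
      have : (X:ℝ) / Y ≤ 1 := by rw [div_le_one hY0]; linarith
      linarith)]
    have : ((Y:ℝ) - X) / Y = 1 - X / Y := by field_simp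
    linarith
  have h3 : 0 < ((Y:ℝ) - X) / Y := by
    have : 0 < (Y:ℝ) - X := by linarith
    positivity
  calc 1 / |Real.log X - Real.log Y| ≤ 1 / (((Y:ℝ) - X) / Y) :=
        one_div_le_one_div_of_le h3 h2
    _ = _ := by rw [one_div_div]

lemma ff_le {P : ℕ} (hP : 1 ≤ P) (δ : ℝ) {g h X Y : ℕ} (hg : 1 ≤ g) (hh : 1 ≤ h) (hX : 1 ≤ X)
    (hY : 1 ≤ Y) (hne : X ≠ Y) :
    ff P δ (g * X * (h * Y)) (g * X, h * Y) (g * Y, h * X) ≤
      (dv P g ^ 2 * (g:ℝ) ^ (-1 - 2 * δ)) * ((dv P h ^ 2 * (h:ℝ) ^ (-1 - 2 * δ)) *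
        (pp P δ X Y + pp P δ Y X)) := by
  have hP' : (1:ℝ) ≤ P := by exact_mod_cast hP
  have hn := fun m : ℕ => dv_nonneg (α := (P:ℝ)) (Nat.cast_nonneg P) m
  have hX0 : (0:ℝ) < X := by exact_mod_cast hX
  have hY0 : (0:ℝ) < Y := by exact_mod_cast hY
  have hg0 : (0:ℝ) < g := by exact_mod_cast hg
  have hh0 : (0:ℝ) < h := by exact_mod_cast hh
  unfold ff
  have hne' : g * X ≠ g * Y := fun h => hne (Nat.eq_of_mul_eq_mul_left hg h)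
  simp only
  rw [if_neg hne']
  have hlog : Real.log ((g * X : ℕ) : ℝ) - Real.log ((g * Y : ℕ) : ℝ) = Real.log X - Real.log Y := by
    push_cast
    rw [Real.log_mul hg0.ne' hX0.ne', Real.log_mul hg0.ne' hY0.ne']
    ring
  rw [hlog]
  have hpw : ((g * X * (h * Y) : ℕ) : ℝ) ^ (-1 - 2 * δ) =
      (g:ℝ) ^ (-1 - 2 * δ) * (h:ℝ) ^ (-1 - 2 * δ) * ((X:ℝ) ^ (-1 - 2 * δ) * (Y:ℝ) ^ (-1 - 2 * δ)) := by
    push_cast
    rw [Real.mul_rpow (by positivity) (by positivity), Real.mul_rpow hg0.le hX0.le,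
      Real.mul_rpow hh0.le hY0.le]
    ring
  have hd : dv P (g * X) * dv P (h * Y) * dv P (g * Y) * dv P (h * X) ≤
      (dv P g * dv P X) * (dv P h * dv P Y) * (dv P g * dv P Y) * (dv P h * dv P X) := by
    have a1 := dv_mul_le hP' g X
    have a2 := dv_mul_le hP' h Y
    have a3 := dv_mul_le hP' g Y
    have a4 := dv_mul_le hP' h X
    have b1 := hn g
    have b2 := hn h
    have b3 := hn X
    have b4 := hn Y
    refine mul_le_mul (mul_le_mul (mul_le_mul a1 a2 (hn _) ?_) a3 (hn _) ?_) a4 (hn _) ?_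
    all_goals positivity
  have hlp : 1 / |Real.log X - Real.log Y| * (dv P X ^ 2 * dv P Y ^ 2 *
      ((X:ℝ) ^ (-1 - 2 * δ) * (Y:ℝ) ^ (-1 - 2 * δ))) ≤ pp P δ X Y + pp P δ Y X := by
    rcases lt_or_gt_of_ne hne with h1 | h1
    · have h2 := log_inv hX h1
      have h3 : pp P δ X Y = (Y / ((Y:ℝ) - X)) * (dv P X ^ 2 * dv P Y ^ 2 *
          ((X:ℝ) ^ (-1 - 2 * δ) * (Y:ℝ) ^ (-1 - 2 * δ))) := by
        unfold pp
        rw [if_pos h1]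
        ring
      have h4 := pp_nonneg P δ Y X
      have h5 := mul_le_mul_of_nonneg_right h2 (show 0 ≤ dv P X ^ 2 * dv P Y ^ 2 *
          ((X:ℝ) ^ (-1 - 2 * δ) * (Y:ℝ) ^ (-1 - 2 * δ)) by positivity)
      rw [h3]
      linarith
    · have h2 := log_inv hY h1
      have h3 : pp P δ Y X = (X / ((X:ℝ) - Y)) * (dv P X ^ 2 * dv P Y ^ 2 *
          ((X:ℝ) ^ (-1 - 2 * δ) * (Y:ℝ) ^ (-1 - 2 * δ))) := by
        unfold pp
        rw [if_pos h1]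
        ring
      have h4 := pp_nonneg P δ X Y
      rw [abs_sub_comm] at h2
      have h5 := mul_le_mul_of_nonneg_right h2 (show 0 ≤ dv P X ^ 2 * dv P Y ^ 2 *
          ((X:ℝ) ^ (-1 - 2 * δ) * (Y:ℝ) ^ (-1 - 2 * δ)) by positivity)
      rw [h3]
      linarith
  rw [hpw]
  set W : ℝ := dv P g ^ 2 * (g:ℝ) ^ (-1 - 2 * δ) * (dv P h ^ 2 * (h:ℝ) ^ (-1 - 2 * δ)) with hW
  have hW0 : 0 ≤ W := by positivity
  set L : ℝ := |Real.log X - Real.log Y| with hL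
  have hL0 : 0 ≤ L := abs_nonneg _
  calc dv P (g * X) * dv P (h * Y) * dv P (g * Y) * dv P (h * X) *
        ((g:ℝ) ^ (-1 - 2 * δ) * (h:ℝ) ^ (-1 - 2 * δ) *
          ((X:ℝ) ^ (-1 - 2 * δ) * (Y:ℝ) ^ (-1 - 2 * δ))) / L ≤
      ((dv P g * dv P X) * (dv P h * dv P Y) * (dv P g * dv P Y) * (dv P h * dv P X)) *
        ((g:ℝ) ^ (-1 - 2 * δ) * (h:ℝ) ^ (-1 - 2 * δ) *
          ((X:ℝ) ^ (-1 - 2 * δ) * (Y:ℝ) ^ (-1 - 2 * δ))) / L := by
        refine div_le_div_of_nonneg_right ?_ hL0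
        exact mul_le_mul_of_nonneg_right hd (by positivity)
    _ = W * (1 / L * (dv P X ^ 2 * dv P Y ^ 2 *
          ((X:ℝ) ^ (-1 - 2 * δ) * (Y:ℝ) ^ (-1 - 2 * δ)))) := by
        rw [hW]
        ring
    _ ≤ W * (pp P δ X Y + pp P δ Y X) := mul_le_mul_of_nonneg_left hlp hW0
    _ = _ := by rw [hW]; ring

/-- the decomposition of a pair of factorisations -/
lemma decomp {n : ℕ} (hn : 1 ≤ n) {x y : ℕ × ℕ} (hx : x ∈ n.divisorsAntidiagonal)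
    (hy : y ∈ n.divisorsAntidiagonal) :
    ∃ g h X Y : ℕ, 1 ≤ g ∧ 1 ≤ h ∧ 1 ≤ X ∧ 1 ≤ Y ∧ x = (g * X, h * Y) ∧ y = (g * Y, h * X) ∧
      n = g * X * (h * Y) := by
  rw [Nat.mem_divisorsAntidiagonal] at hx hy
  obtain ⟨hx1, -⟩ := hx
  obtain ⟨hy1, -⟩ := hy
  have hxp : 0 < x.1 ∧ 0 < x.2 := by
    constructor
    · rcases Nat.eq_zero_or_pos x.1 with h | h
      · rw [h, zero_mul] at hx1; omega
      · exact h
    · rcases Nat.eq_zero_or_pos x.2 with h | h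
      · rw [h, mul_zero] at hx1; omega
      · exact h
  have hyp : 0 < y.1 ∧ 0 < y.2 := by
    constructor
    · rcases Nat.eq_zero_or_pos y.1 with h | h
      · rw [h, zero_mul] at hy1; omega
      · exact h
    · rcases Nat.eq_zero_or_pos y.2 with h | h
      · rw [h, mul_zero] at hy1; omega
      · exact h
  obtain ⟨g, X, Y, hg, hcop, hX, hY⟩ := Nat.exists_coprime' (m := x.1) (n := y.1)
    (Nat.gcd_pos_of_pos_left _ hxp.1)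
  have hX0 : 0 < X := by
    rcases Nat.eq_zero_or_pos X with h | h
    · rw [h, zero_mul] at hX; omega
    · exact h
  have hY0 : 0 < Y := by
    rcases Nat.eq_zero_or_pos Y with h | h
    · rw [h, zero_mul] at hY; omega
    · exact h
  have h1 : X * x.2 = Y * y.2 := by
    have h2 : g * (X * x.2) = g * (Y * y.2) := by
      calc g * (X * x.2) = X * g * x.2 := by ring
        _ = x.1 * x.2 := by rw [← hX]
        _ = y.1 * y.2 := by rw [hx1, hy1]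
        _ = Y * g * y.2 := by rw [← hY]
        _ = g * (Y * y.2) := by ring
    exact Nat.eq_of_mul_eq_mul_left hg h2
  have h2 : Y ∣ x.2 := by
    have h3 : Y ∣ X * x.2 := ⟨y.2, h1⟩
    exact hcop.symm.dvd_of_dvd_mul_left h3
  obtain ⟨h, hh⟩ := h2
  have h3 : y.2 = h * X := by
    have h4 : Y * y.2 = Y * (h * X) := by
      rw [← h1, hh]
      ring
    exact Nat.eq_of_mul_eq_mul_left hY0 h4
  refine ⟨g, h, X, Y, hg, ?_, hX0, hY0, ?_, ?_, ?_⟩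
  · rcases Nat.eq_zero_or_pos h with h5 | h5
    · rw [h5, mul_zero] at hh; omega
    · exact h5
  · refine Prod.ext ?_ ?_
    · simp only
      rw [hX, mul_comm]
    · simp only
      rw [hh, mul_comm]
  · refine Prod.ext ?_ ?_
    · simp only
      rw [hY, mul_comm]
    · simp only
      rw [h3]
  · rw [← hx1, hX, hh]
    ring

/-- **The nondiagonal sum.** -/
theorem off {P : ℕ} (hP : 1 ≤ P) {δ : ℝ} (hδ : 0 < δ) (hδ1 : δ ≤ 1) (N : ℕ) :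
    ∑ n ∈ Icc 1 N, ∑ x ∈ n.divisorsAntidiagonal, ∑ y ∈ n.divisorsAntidiagonal, ff P δ n x y ≤
      6 * (2 / δ) ^ (2 * P ^ 2 + P ^ 4 + 1) := by
  classical
  set S : Finset (ℕ × (ℕ × ℕ) × (ℕ × ℕ)) := (Icc 1 N).biUnion fun n =>
    ({n} : Finset ℕ) ×ˢ ((n.divisorsAntidiagonal ×ˢ n.divisorsAntidiagonal).filter
      fun p => p.1.1 ≠ p.2.1) with hS
  have hmem : ∀ p : ℕ × (ℕ × ℕ) × (ℕ × ℕ), p ∈ S ↔ p.1 ∈ Icc 1 N ∧
      p.2.1 ∈ p.1.divisorsAntidiagonal ∧ p.2.2 ∈ p.1.divisorsAntidiagonal ∧ p.2.1.1 ≠ p.2.2.1 := by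
    intro p
    rw [hS, mem_biUnion]
    constructor
    · rintro ⟨n, hn, h⟩
      rw [mem_product, mem_singleton, mem_filter, mem_product] at h
      obtain ⟨h1, ⟨h2, h3⟩, h4⟩ := h
      subst h1
      exact ⟨hn, h2, h3, h4⟩
    · rintro ⟨h1, h2, h3, h4⟩
      refine ⟨p.1, h1, ?_⟩
      rw [mem_product, mem_singleton, mem_filter, mem_product]
      exact ⟨rfl, ⟨h2, h3⟩, h4⟩
  have h1 : ∑ n ∈ Icc 1 N, ∑ x ∈ n.divisorsAntidiagonal, ∑ y ∈ n.divisorsAntidiagonal,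
      ff P δ n x y = ∑ p ∈ S, ff P δ p.1 p.2.1 p.2.2 := by
    rw [hS, sum_biUnion]
    · refine sum_congr rfl fun n _ => ?_
      rw [sum_product, sum_singleton, sum_filter, sum_product]
      refine sum_congr rfl fun x _ => sum_congr rfl fun y _ => ?_
      split_ifs with h
      · rfl
      · unfold ff
        rw [if_pos (not_not.1 h)]
    · intro n _ m _ hnm
      rw [Function.onFun, disjoint_left]
      intro p hp hp'
      rw [mem_product, mem_singleton] at hp hp'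
      exact hnm (hp.1.symm.trans hp'.1)
  have hex : ∀ p : ℕ × (ℕ × ℕ) × (ℕ × ℕ), ∃ q : ℕ × ℕ × ℕ × ℕ, p ∈ S →
      1 ≤ q.1 ∧ 1 ≤ q.2.1 ∧ 1 ≤ q.2.2.1 ∧ 1 ≤ q.2.2.2 ∧
      p = (q.1 * q.2.2.1 * (q.2.1 * q.2.2.2), (q.1 * q.2.2.1, q.2.1 * q.2.2.2),
        (q.1 * q.2.2.2, q.2.1 * q.2.2.1)) := by
    intro p
    by_cases hp : p ∈ S
    · obtain ⟨h2, h3, h4, -⟩ := (hmem p).1 hp
      obtain ⟨g, h, X, Y, a1, a2, a3, a4, a5, a6, a7⟩ := decomp (mem_Icc.1 h2).1 h3 h4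
      refine ⟨(g, h, X, Y), fun _ => ⟨a1, a2, a3, a4, ?_⟩⟩
      refine Prod.ext a7 (Prod.ext a5 a6)
    · exact ⟨(0, 0, 0, 0), fun h => absurd h hp⟩
  choose φ hφ using hex
  rw [h1]
  set F : ℕ × ℕ × ℕ × ℕ → ℝ := fun q => (dv P q.1 ^ 2 * (q.1:ℝ) ^ (-1 - 2 * δ)) *
    ((dv P q.2.1 ^ 2 * (q.2.1:ℝ) ^ (-1 - 2 * δ)) *
      (pp P δ q.2.2.1 q.2.2.2 + pp P δ q.2.2.2 q.2.2.1)) with hF
  have h2 : ∑ p ∈ S, ff P δ p.1 p.2.1 p.2.2 ≤
      ∑ q ∈ Icc 1 N ×ˢ (Icc 1 N ×ˢ (Icc 1 N ×ˢ Icc 1 N)), F q := by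
    refine sum_inj φ ?_ ?_ ?_ ?_
    · intro p hp
      obtain ⟨a1, a2, a3, a4, a5⟩ := hφ p hp
      have h3 := ((hmem p).1 hp).1
      rw [mem_Icc] at h3
      rw [a5] at h3
      simp only at h3
      have h4 : 1 ≤ (φ p).1 * (φ p).2.2.1 := Nat.mul_pos a1 a3
      have h5 : 1 ≤ (φ p).2.1 * (φ p).2.2.2 := Nat.mul_pos a2 a4
      rw [mem_product, mem_product, mem_product, mem_Icc, mem_Icc, mem_Icc, mem_Icc]
      refine ⟨⟨a1, ?_⟩, ⟨a2, ?_⟩, ⟨a3, ?_⟩, ⟨a4, ?_⟩⟩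
      · calc (φ p).1 ≤ (φ p).1 * (φ p).2.2.1 := Nat.le_mul_of_pos_right _ a3
          _ ≤ (φ p).1 * (φ p).2.2.1 * ((φ p).2.1 * (φ p).2.2.2) := Nat.le_mul_of_pos_right _ h5
          _ ≤ N := h3.2
      · calc (φ p).2.1 ≤ (φ p).2.1 * (φ p).2.2.2 := Nat.le_mul_of_pos_right _ a4
          _ ≤ (φ p).1 * (φ p).2.2.1 * ((φ p).2.1 * (φ p).2.2.2) := Nat.le_mul_of_pos_left _ h4
          _ ≤ N := h3.2
      · calc (φ p).2.2.1 ≤ (φ p).1 * (φ p).2.2.1 := Nat.le_mul_of_pos_left _ a1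
          _ ≤ (φ p).1 * (φ p).2.2.1 * ((φ p).2.1 * (φ p).2.2.2) := Nat.le_mul_of_pos_right _ h5
          _ ≤ N := h3.2
      · calc (φ p).2.2.2 ≤ (φ p).2.1 * (φ p).2.2.2 := Nat.le_mul_of_pos_left _ a2
          _ ≤ (φ p).1 * (φ p).2.2.1 * ((φ p).2.1 * (φ p).2.2.2) := Nat.le_mul_of_pos_left _ h4
          _ ≤ N := h3.2
    · intro p hp p' hp' h
      rw [(hφ p hp).2.2.2.2, (hφ p' hp').2.2.2.2, h]
    · intro q _
      have h3 := pp_nonneg P δ q.2.2.1 q.2.2.2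
      have h4 := pp_nonneg P δ q.2.2.2 q.2.2.1
      rw [hF]
      simp only
      positivity
    · intro p hp
      obtain ⟨a1, a2, a3, a4, a5⟩ := hφ p hp
      have h3 := ((hmem p).1 hp).2.2.2
      have h4 : (φ p).2.2.1 ≠ (φ p).2.2.2 := by
        intro h
        apply h3
        rw [a5]
        simp only
        rw [h]
      have h5 := ff_le hP δ a1 a2 a3 a4 h4
      conv_lhs => rw [a5]
      exact h5
  refine h2.trans ?_
  have h3 : ∑ q ∈ Icc 1 N ×ˢ (Icc 1 N ×ˢ (Icc 1 N ×ˢ Icc 1 N)), F q =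
      (∑ g ∈ Icc 1 N, dv P g ^ 2 * (g:ℝ) ^ (-1 - 2 * δ)) *
      ((∑ h ∈ Icc 1 N, dv P h ^ 2 * (h:ℝ) ^ (-1 - 2 * δ)) *
        ∑ X ∈ Icc 1 N, ∑ Y ∈ Icc 1 N, (pp P δ X Y + pp P δ Y X)) := by
    rw [sum_product, hF, sum_mul]
    refine sum_congr rfl fun g _ => ?_
    simp only
    rw [← mul_sum]
    congr 1
    rw [sum_product, sum_mul]
    refine sum_congr rfl fun h _ => ?_
    simp only
    rw [← mul_sum]
    congr 1
    rw [sum_product]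
  have hpw : ∀ n ∈ Icc 1 N, dv P n ^ 2 * (n:ℝ) ^ (-1 - 2 * δ) ≤ dv P n ^ 2 * (n:ℝ) ^ (-1 - δ) := by
    intro n hn
    rw [mem_Icc] at hn
    refine mul_le_mul_of_nonneg_left ?_ (by positivity)
    exact Real.rpow_le_rpow_of_exponent_le (by exact_mod_cast hn.1) (by linarith)
  have h4 : ∑ g ∈ Icc 1 N, dv P g ^ 2 * (g:ℝ) ^ (-1 - 2 * δ) ≤ (2 / δ) ^ (P ^ 2) :=
    (sum_le_sum hpw).trans (sum2 P hδ hδ1 _)
  have h5 : ∑ X ∈ Icc 1 N, ∑ Y ∈ Icc 1 N, (pp P δ X Y + pp P δ Y X) ≤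
      2 * (3 * (2 / δ) ^ (P ^ 4 + 1)) := by
    simp only [sum_add_distrib]
    rw [sum_comm (f := fun X Y => pp P δ Y X), ← two_mul]
    refine mul_le_mul_of_nonneg_left ?_ (by norm_num)
    rw [sum_comm]
    refine le_trans (le_of_eq ?_) (pairs P hδ hδ1 N)
    refine sum_congr rfl fun Y hY => ?_
    rw [mem_Icc] at hY
    have h6 : Ico 1 Y = (Icc 1 N).filter fun X => X < Y := by
      ext X
      rw [mem_Ico, mem_filter, mem_Icc]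
      omega
    rw [h6, sum_filter]
    refine sum_congr rfl fun X _ => ?_
    rfl
  rw [h3]
  have h6 : 0 ≤ ∑ X ∈ Icc 1 N, ∑ Y ∈ Icc 1 N, (pp P δ X Y + pp P δ Y X) :=
    sum_nonneg fun X _ => sum_nonneg fun Y _ => add_nonneg (pp_nonneg _ _ _ _) (pp_nonneg _ _ _ _)
  calc _ ≤ (2 / δ) ^ (P ^ 2) * ((2 / δ) ^ (P ^ 2) * (2 * (3 * (2 / δ) ^ (P ^ 4 + 1)))) := by
        refine mul_le_mul h4 (mul_le_mul h4 h5 h6 (by positivity)) ?_ (by positivity)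
        exact mul_nonneg (sum_nonneg fun _ _ => by positivity) h6
    _ = _ := by
        rw [show 2 * P ^ 2 + P ^ 4 + 1 = P ^ 2 + (P ^ 2 + (P ^ 4 + 1)) by ring, pow_add, pow_add]
        ring

end

end Run7.h518.SW
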