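import Pool.Agent.Run7.h518.SW.Untr
import Pool.Agent.Run7.h518.SW.Euler

/-!
# The windows of polylogarithmic length (helper518)
-/

set_option autoImplicit false

namespace Run7.h518.SW

open Finset MeasureTheory Complex
open Pool.Agent.H306R2 hiding wt
open Pool.Agent.Y746.OA Pool.Agent.Y746.CS

noncomputable section

/-- **All the windows longer than a power of the logarithm.** -/
theorem untr_D (k l : ℕ) : ∃ c : ℝ, 0 < c ∧ ∀ D : ℕ, ∃ (F : ℕ) (C T0 : ℝ), 2 ≤ C ∧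
    Real.exp (Real.exp 2) ≤ T0 ∧ ∀ T : ℝ, T0 ≤ T → ∀ δ : ℝ,
    C * Real.log (Real.log T) / Real.log T ≤ δ → δ ≤ 1 / 24 →
    Real.log T ^ F ≤ T ^ (c * δ) ∧
    ∀ (a : Fin k → ℝ) (b : Fin l → ℝ), (∀ j, |a j| ≤ T / 2) → (∀ j, |b j| ≤ T / 2) →
    volume {t | t ∈ Set.Ioc 0 T ∧ ∃ H : ℝ, Real.log T ^ F ≤ H ∧ H ≤ T ^ (c * δ) ∧
      1 / Real.log T ^ D < ‖wm (ZZ δ a b) H t - dd (Tk a) (Tk b) δ‖} ≤
      ENNReal.ofReal (T / Real.log T ^ D) := by
  obtain ⟨c, hc, h1⟩ := untr k l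
  refine ⟨c, hc, fun D => ?_⟩
  set K : ℕ := KK k l with hK
  have hR0 := R0_nonneg
  set F : ℕ := 2 * (K + 3 * D + 1) with hF
  obtain ⟨C, T0, hC, hT0, g⟩ := h1 F
  refine ⟨F, C, max T0 (Real.exp (48 * R0 + 2)), hC, hT0.trans (le_max_left _ _),
    fun T hT δ hδ hδ1 => ?_⟩
  have hTT : T0 ≤ T := (le_max_left _ _).trans hT
  have hTT2 : Real.exp (48 * R0 + 2) ≤ T := (le_max_right _ _).trans hT
  obtain ⟨hL3, hTp, hδ0, h2δ⟩ := params hC (hT0.trans hTT) hδ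
  have hLR : 48 * R0 + 2 ≤ Real.log T := (Real.le_log_iff_exp_le hTp).2 hTT2
  set L : ℝ := Real.log T with hL
  have hL0 : 0 < L := by linarith
  have hL1 : 1 ≤ L := by linarith
  refine ⟨(g T hTT δ hδ hδ1).1, ?_⟩
  intro a b ha hb
  have hF1 : 1 ≤ L ^ F := one_le_pow₀ hL1
  have hD0 : 0 < 1 / L ^ D := by positivity
  have g2 := (g T hTT δ hδ hδ1).2 a b ha hb (L ^ F) (1 / L ^ D) hF1 hD0
  refine g2.trans (ENNReal.ofReal_le_ofReal ?_)
  have hsq : Real.sqrt (L ^ F) = L ^ (K + 3 * D + 1) := by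
    rw [hF, mul_comm 2, pow_mul, Real.sqrt_sq (by positivity)]
  have hxK : (2 / δ) ^ K ≤ L ^ K := pow_le_pow_left₀ (by positivity) h2δ _
  rw [hsq]
  have e1 : (1:ℝ) / (1 / L ^ D) ^ 2 = L ^ (2 * D) := by
    rw [one_div_pow, one_div_one_div, ← pow_mul, mul_comm]
  rw [e1]
  have e2 : (2 / δ) ^ K / L ^ (K + 3 * D + 1) ≤ 1 / L ^ (3 * D + 1) := by
    rw [show K + 3 * D + 1 = K + (3 * D + 1) by ring, pow_add,
      div_le_div_iff₀ (by positivity) (by positivity), one_mul]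
    exact mul_le_mul_of_nonneg_right hxK (by positivity)
  have e4 : L ^ (2 * D) * (1 / L ^ (3 * D + 1)) = 1 / L ^ (D + 1) := by
    rw [show 3 * D + 1 = 2 * D + (D + 1) by ring, pow_add]
    field_simp
  have e6 : L ^ (2 * D) * (48 * R0 * ((2 / δ) ^ K / L ^ (K + 3 * D + 1)) +
      1 / L ^ F) + 1 / L ^ F ≤ (48 * R0 + 2) * (1 / L ^ (D + 1)) := by
    calc L ^ (2 * D) * (48 * R0 * ((2 / δ) ^ K / L ^ (K + 3 * D + 1)) +
          1 / L ^ F) + 1 / L ^ F ≤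
        L ^ (2 * D) * (48 * R0 * (1 / L ^ (3 * D + 1)) +
          1 / L ^ (3 * D + 1)) + 1 / L ^ (D + 1) := by
          gcongr
          all_goals omega
      _ = (48 * R0 + 1) * (L ^ (2 * D) * (1 / L ^ (3 * D + 1))) +
          1 / L ^ (D + 1) := by ring
      _ = _ := by
          rw [e4]
          ring
  calc T * (L ^ (2 * D) * (48 * R0 * ((2 / δ) ^ K / L ^ (K + 3 * D + 1)) +
        1 / L ^ F) + 1 / L ^ F) ≤ T * ((48 * R0 + 2) * (1 / L ^ (D + 1))) :=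
        mul_le_mul_of_nonneg_left e6 hTp.le
    _ ≤ T * (L * (1 / L ^ (D + 1))) := by gcongr
    _ = T / L ^ D := by
        rw [pow_succ]
        field_simp

end

end Run7.h518.SW
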