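import Pool.Agent.H402R2.SubMean

/-!
# From mean squares to maxima over windows

This is the file N748/HM/SUP of the starting library, with fewer imports (copied by helper518).
-/

set_option autoImplicit false

namespace Run7.h518.SW.SUP

open MeasureTheory Set Metric
open scoped ENNReal Real

/-- the square mean over a part of the strip, as a double integral -/
lemma rect_integral (f : ℂ → ℝ≥0∞) (hf : Measurable f) (a b c d : ℝ) :
    ∫⁻ z in {z : ℂ | z.re ∈ Ioo a b ∧ z.im ∈ Ioo c d}, f z =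
      ∫⁻ v in Ioo c d, ∫⁻ x in Ioo a b, f ((x : ℂ) + (v : ℂ) * Complex.I) := by
  have h1 := (Complex.volume_preserving_equiv_real_prod.symm).setLIntegral_comp_preimage_emb
    Complex.measurableEquivRealProd.symm.measurableEmbedding f
    {z : ℂ | z.re ∈ Ioo a b ∧ z.im ∈ Ioo c d}
  have h2 : Complex.measurableEquivRealProd.symm ⁻¹' {z : ℂ | z.re ∈ Ioo a b ∧ z.im ∈ Ioo c d} =
      Ioo a b ×ˢ Ioo c d := by
    ext p
    simp [Complex.measurableEquivRealProd]
  rw [h2] at h1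
  have h3 : ∀ p : ℝ × ℝ, Complex.measurableEquivRealProd.symm p =
      (p.1 : ℂ) + (p.2 : ℂ) * Complex.I := by
    intro p
    apply Complex.ext <;> simp [Complex.measurableEquivRealProd]
  rw [← h1]
  have hm : Measurable fun p : ℝ × ℝ => f ((p.1 : ℂ) + (p.2 : ℂ) * Complex.I) :=
    hf.comp (by fun_prop)
  rw [Measure.volume_eq_prod, ← Measure.prod_restrict]
  have h4 : ∫⁻ p : ℝ × ℝ, f (Complex.measurableEquivRealProd.symm p)
      ∂((volume.restrict (Ioo a b)).prod (volume.restrict (Ioo c d))) =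
      ∫⁻ p : ℝ × ℝ, f ((p.1 : ℂ) + (p.2 : ℂ) * Complex.I)
      ∂((volume.restrict (Ioo a b)).prod (volume.restrict (Ioo c d))) := by
    congr 1
    funext p
    rw [h3]
  rw [h4, lintegral_prod_symm _ hm.aemeasurable]

/-- the double integral over windows -/
lemma window (W : ℝ → ℝ≥0∞) (hW : Measurable W) (X1 X2 H : ℝ) :
    Measurable (fun t : ℝ => ∫⁻ v in Ioo (t - 1) (t + H + 1), W v) ∧
    ∫⁻ t in Icc (X1 + 1) (X2 - H - 1), ∫⁻ v in Ioo (t - 1) (t + H + 1), W v ≤
      ENNReal.ofReal (H + 2) * ∫⁻ v in Ioo X1 X2, W v := by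
  set S : Set (ℝ × ℝ) := {p | p.1 - 1 < p.2 ∧ p.2 < p.1 + H + 1} with hS
  have hSm : MeasurableSet S := by
    have h1 : IsOpen S := (isOpen_lt (continuous_fst.sub continuous_const) continuous_snd).inter
      (isOpen_lt continuous_snd ((continuous_fst.add continuous_const).add continuous_const))
    exact h1.measurableSet
  set F : ℝ × ℝ → ℝ≥0∞ := S.indicator fun p => W p.2 with hF
  have hFm : Measurable F := (hW.comp measurable_snd).indicator hSm
  have e1 : ∀ t : ℝ, ∫⁻ v in Ioo (t - 1) (t + H + 1), W v = ∫⁻ v, F (t, v) := by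
    intro t
    rw [← lintegral_indicator measurableSet_Ioo]
    congr 1
  constructor
  · simp only [e1]
    exact hFm.lintegral_prod_right'
  · simp only [e1]
    rw [lintegral_lintegral_swap (f := fun t v => F (t, v)) hFm.aemeasurable]
    have e2 : ENNReal.ofReal (H + 2) * ∫⁻ v in Ioo X1 X2, W v =
        ∫⁻ v, (Ioo X1 X2).indicator (fun v => ENNReal.ofReal (H + 2) * W v) v := by
      rw [lintegral_indicator measurableSet_Ioo, lintegral_const_mul _ hW]
    rw [e2]
    refine lintegral_mono fun v => ?_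
    by_cases hv : v ∈ Ioo X1 X2
    · rw [Set.indicator_of_mem hv]
      calc ∫⁻ t in Icc (X1 + 1) (X2 - H - 1), F (t, v) ≤ ∫⁻ t, F (t, v) :=
            setLIntegral_le_lintegral _ _
        _ = ∫⁻ t, (Ioo (v - H - 1) (v + 1)).indicator (fun _ => W v) t := by
            congr 1
            funext t
            by_cases ht : t ∈ Ioo (v - H - 1) (v + 1)
            · rw [Set.indicator_of_mem ht, hF, Set.indicator_of_mem]
              exact ⟨by linarith [ht.2], by linarith [ht.1]⟩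
            · rw [Set.indicator_of_notMem ht, hF, Set.indicator_of_notMem]
              rintro ⟨h1, h2⟩
              exact ht ⟨by simp only at h2; linarith, by simp only at h1; linarith⟩
        _ = ENNReal.ofReal (H + 2) * W v := by
            rw [lintegral_indicator measurableSet_Ioo, setLIntegral_const, Real.volume_Ioo,
              mul_comm]
            congr 2
            ring
        _ ≤ _ := le_rfl
    · rw [Set.indicator_of_notMem hv]
      have h3 : ∫⁻ t in Icc (X1 + 1) (X2 - H - 1), F (t, v) = 0 := by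
        rw [setLIntegral_congr_fun (g := fun _ => 0) measurableSet_Icc, lintegral_zero]
        intro t ht
        simp only [hF]
        rw [Set.indicator_of_notMem]
        rintro ⟨h1, h2⟩
        exact hv ⟨by simp only at h1; linarith [ht.1], by simp only at h2; linarith [ht.2]⟩
      rw [h3]

theorem main : ∃ C : ℝ, 0 < C ∧ ∀ Φ : ℂ → ℂ, DifferentiableOn ℂ Φ {s : ℂ | 1 / 2 < s.re ∧ s.re < 1} →
    ∀ δ X1 X2 B : ℝ, 0 < δ → δ ≤ 1 / 16 → X1 ≤ X2 → 0 ≤ B →
    (∀ δ' : ℝ, δ / 2 ≤ δ' → δ' ≤ 3 * δ / 2 →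
      ∫ t in X1..X2, ‖Φ (1 / 2 + δ' + t * Complex.I)‖ ^ 2 ≤ B) →
    ∀ H κ : ℝ, 0 ≤ H → 0 < κ →
    volume {t : ℝ | X1 + 1 ≤ t ∧ t + H + 1 ≤ X2 ∧ ∃ u : ℝ, t ≤ u ∧ u ≤ t + H ∧
      κ ≤ ‖Φ (1 / 2 + δ + u * Complex.I)‖} ≤ ENNReal.ofReal (C * (H + 2) * B / (δ * κ ^ 2)) := by
  classical
  refine ⟨4 / π, by positivity, ?_⟩
  intro Φ hΦ δ X1 X2 B hδ hδ2 hX hB hint H κ hH hκ
  set strip : Set ℂ := {s | 1 / 2 < s.re ∧ s.re < 1} with hstrip
  have hso : IsOpen strip := (isOpen_lt continuous_const Complex.continuous_re).inter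
    (isOpen_lt Complex.continuous_re continuous_const)
  set Ψ : ℂ → ℂ := strip.piecewise Φ (fun _ => 0) with hΨd
  have hΨm : Measurable Ψ :=
    ContinuousOn.measurable_piecewise hΦ.continuousOn continuousOn_const hso.measurableSet
  have hΨ : ∀ z ∈ strip, Ψ z = Φ z := fun z hz => Set.piecewise_eq_of_mem _ _ _ hz
  set f : ℂ → ℝ≥0∞ := fun z => ‖Ψ z‖ₑ ^ (2 : ℝ) with hf
  have hfm : Measurable f := hΨm.enorm.pow_const _
  set W : ℝ → ℝ≥0∞ := fun v => ∫⁻ x in Ioo (1 / 2 + δ / 2) (1 / 2 + 3 * δ / 2),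
    f ((x : ℂ) + (v : ℂ) * Complex.I) with hW
  have hfm2 : Measurable fun p : ℝ × ℝ => f ((p.1 : ℂ) + (p.2 : ℂ) * Complex.I) :=
    hfm.comp (by fun_prop)
  have hWm : Measurable W := by
    have : Measurable fun p : ℝ × ℝ => f ((p.2 : ℂ) + (p.1 : ℂ) * Complex.I) :=
      hfm.comp (by fun_prop)
    exact this.lintegral_prod_right'
  obtain ⟨hwm, hwin⟩ := window W hWm X1 X2 H
  set h : ℝ → ℝ≥0∞ := fun t => ∫⁻ v in Ioo (t - 1) (t + H + 1), W v with hh
  -- the values at the points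
  have keyA : ∀ t : ℝ, (∃ u : ℝ, t ≤ u ∧ u ≤ t + H ∧ κ ≤ ‖Φ (1 / 2 + δ + u * Complex.I)‖) →
      ENNReal.ofReal (κ ^ 2 * (π * (δ / 2) ^ 2)) ≤ h t := by
    rintro t ⟨u, hu1, hu2, hu3⟩
    set s0 : ℂ := 1 / 2 + δ + u * Complex.I with hs0
    have hre : s0.re = 1 / 2 + δ := by simp [hs0]
    have him : s0.im = u := by simp [hs0]
    have hball : ∀ z ∈ ball s0 (δ / 2), 1 / 2 + δ / 2 < z.re ∧ z.re < 1 / 2 + 3 * δ / 2 ∧
        t - 1 < z.im ∧ z.im < t + H + 1 := by
      intro z hz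
      rw [mem_ball, dist_eq_norm] at hz
      have h1 := (abs_lt.1 ((Complex.abs_re_le_norm (z - s0)).trans_lt hz))
      have h2 := (abs_lt.1 ((Complex.abs_im_le_norm (z - s0)).trans_lt hz))
      rw [Complex.sub_re, hre] at h1
      rw [Complex.sub_im, him] at h2
      refine ⟨by linarith [h1.1], by linarith [h1.2], by linarith [h2.1], by linarith [h2.2]⟩
    have hbs : ball s0 (δ / 2) ⊆ strip := fun z hz => by
      obtain ⟨h1, h2, -, -⟩ := hball z hz
      exact ⟨by linarith, by linarith⟩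
    have h1 := Pool.Agent.H402R2.SubMean.rpow_mul_le_lintegral (g := Φ) (w := s0) (ρ := δ / 2)
      (p := 2) (by positivity) two_pos (hΦ.mono hbs)
    have h2 : ENNReal.ofReal (κ ^ 2 * (π * (δ / 2) ^ 2)) ≤
        ENNReal.ofReal (‖Φ s0‖ ^ (2 : ℝ) * (π * (δ / 2) ^ 2)) := by
      apply ENNReal.ofReal_le_ofReal
      rw [Real.rpow_two]
      exact mul_le_mul_of_nonneg_right (pow_le_pow_left₀ hκ.le hu3 2) (by positivity)
    have h3 : ∫⁻ z in ball s0 (δ / 2), ‖Φ z‖ₑ ^ (2 : ℝ) = ∫⁻ z in ball s0 (δ / 2), f z := by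
      refine setLIntegral_congr_fun measurableSet_ball fun z hz => ?_
      simp only [hf]
      rw [hΨ z (hbs hz)]
    have h4 : ∫⁻ z in ball s0 (δ / 2), f z ≤
        ∫⁻ z in {z : ℂ | z.re ∈ Ioo (1 / 2 + δ / 2) (1 / 2 + 3 * δ / 2) ∧
          z.im ∈ Ioo (t - 1) (t + H + 1)}, f z := by
      refine lintegral_mono_set fun z hz => ?_
      obtain ⟨g1, g2, g3, g4⟩ := hball z hz
      exact ⟨⟨g1, g2⟩, ⟨g3, g4⟩⟩
    rw [rect_integral f hfm] at h4
    rw [h3] at h1
    exact h2.trans (h1.trans h4)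
  -- the mean
  have keyB : ∫⁻ v in Ioo X1 X2, W v ≤ ENNReal.ofReal (B * δ) := by
    have hsw : ∫⁻ v in Ioo X1 X2, W v =
        ∫⁻ x in Ioo (1 / 2 + δ / 2) (1 / 2 + 3 * δ / 2), ∫⁻ v in Ioo X1 X2,
          f ((x : ℂ) + (v : ℂ) * Complex.I) := by
      rw [lintegral_lintegral_swap]
      exact (hfm2.comp measurable_swap).aemeasurable
    rw [hsw]
    have hle : ∀ x ∈ Ioo (1 / 2 + δ / 2) (1 / 2 + 3 * δ / 2), ∫⁻ v in Ioo X1 X2,
          f ((x : ℂ) + (v : ℂ) * Complex.I) ≤ ENNReal.ofReal B := by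
      intro x hx
      have hmem : ∀ v : ℝ, (x : ℂ) + (v : ℂ) * Complex.I ∈ strip := by
        intro v
        have hr : ((x : ℂ) + (v : ℂ) * Complex.I).re = x := by simp
        exact ⟨by rw [hr]; linarith [hx.1], by rw [hr]; linarith [hx.2]⟩
      have hc : Continuous fun v : ℝ => ‖Φ ((x : ℂ) + (v : ℂ) * Complex.I)‖ ^ 2 := by
        have : Continuous fun v : ℝ => Φ ((x : ℂ) + (v : ℂ) * Complex.I) :=
          hΦ.continuousOn.comp_continuous (by fun_prop) hmem
        exact this.norm.pow 2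
      have e1 : ∫⁻ v in Ioo X1 X2, f ((x : ℂ) + (v : ℂ) * Complex.I) =
          ∫⁻ v in Ioo X1 X2, ENNReal.ofReal (‖Φ ((x : ℂ) + (v : ℂ) * Complex.I)‖ ^ 2) := by
        congr 1
        funext v
        simp only [hf]
        rw [hΨ _ (hmem v), ENNReal.ofReal_pow (norm_nonneg _), ofReal_norm, ENNReal.rpow_two]
      rw [e1, ← ofReal_integral_eq_lintegral_ofReal
        ((hc.integrableOn_Icc (a := X1) (b := X2)).mono_set Ioo_subset_Icc_self)
        (Filter.Eventually.of_forall fun v => by positivity)]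
      apply ENNReal.ofReal_le_ofReal
      have h5 := hint (x - 1 / 2) (by linarith [hx.1]) (by linarith [hx.2])
      rw [intervalIntegral.integral_of_le hX, integral_Ioc_eq_integral_Ioo] at h5
      refine le_trans (le_of_eq ?_) h5
      congr 1
      funext v
      congr 3
      push_cast
      ring
    calc ∫⁻ x in Ioo (1 / 2 + δ / 2) (1 / 2 + 3 * δ / 2), ∫⁻ v in Ioo X1 X2,
          f ((x : ℂ) + (v : ℂ) * Complex.I) ≤
          ∫⁻ _x in Ioo (1 / 2 + δ / 2) (1 / 2 + 3 * δ / 2), ENNReal.ofReal B :=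
          setLIntegral_mono' measurableSet_Ioo hle
      _ = ENNReal.ofReal (B * δ) := by
          rw [setLIntegral_const, Real.volume_Ioo, ENNReal.ofReal_mul hB]
          congr 2
          ring
  -- conclusion
  set m : ℝ := κ ^ 2 * (π * (δ / 2) ^ 2) with hm
  have hm0 : 0 < m := by positivity
  set A : Set ℝ := {t : ℝ | X1 + 1 ≤ t ∧ t + H + 1 ≤ X2 ∧ ∃ u : ℝ, t ≤ u ∧ u ≤ t + H ∧
    κ ≤ ‖Φ (1 / 2 + δ + u * Complex.I)‖} with hA
  have hAsub : A ⊆ {t | ENNReal.ofReal m ≤ h t} ∩ Icc (X1 + 1) (X2 - H - 1) := by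
    rintro t ⟨h1, h2, h3⟩
    exact ⟨keyA t h3, ⟨h1, by linarith⟩⟩
  have h6 : volume A ≤ (volume.restrict (Icc (X1 + 1) (X2 - H - 1)))
      {t | ENNReal.ofReal m ≤ h t} := by
    rw [Measure.restrict_apply (measurableSet_le measurable_const hwm)]
    exact measure_mono hAsub
  have h7 := meas_ge_le_lintegral_div (μ := volume.restrict (Icc (X1 + 1) (X2 - H - 1)))
    hwm.aemeasurable (ε := ENNReal.ofReal m) (by simpa using hm0) ENNReal.ofReal_ne_top
  refine h6.trans (h7.trans ?_)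
  rw [ENNReal.div_le_iff (by simpa using hm0) ENNReal.ofReal_ne_top]
  refine hwin.trans ?_
  calc ENNReal.ofReal (H + 2) * ∫⁻ v in Ioo X1 X2, W v ≤
        ENNReal.ofReal (H + 2) * ENNReal.ofReal (B * δ) := mul_le_mul_right keyB _
    _ = ENNReal.ofReal (4 / π * (H + 2) * B / (δ * κ ^ 2)) * ENNReal.ofReal m := by
        rw [← ENNReal.ofReal_mul (by linarith), ← ENNReal.ofReal_mul (by positivity)]
        congr 1
        rw [hm]
        field_simp
        ring

end Run7.h518.SW.SUP
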