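import Pool.Agent.Run7.h518.SW.Trunc
import Pool.Agent.Run7.h518.SW.Chain

/-!
# All lengths of the windows at once (helper518)
-/

set_option autoImplicit false

namespace Run7.h518.SW

open Finset MeasureTheory Complex
open Pool.Agent.H306R2 hiding wt
open Pool.Agent.Y746.OA Pool.Agent.Y746.CS

noncomputable section

/-- the constant of the sum over the dyadic scales -/
def R0 : ℝ := ∑' J : ℕ, ((J:ℝ) + 1) ^ 2 * (1 / Real.sqrt 2) ^ J

lemma sqrt2_lt : 0 < 1 / Real.sqrt 2 ∧ 1 / Real.sqrt 2 < 1 := by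
  have h : 1 < Real.sqrt 2 := by
    rw [Real.lt_sqrt (by norm_num)]
    norm_num
  refine ⟨by positivity, ?_⟩
  rw [div_lt_one (by linarith)]
  exact h

lemma R0_summable : Summable fun J : ℕ => ((J:ℝ) + 1) ^ 2 * (1 / Real.sqrt 2) ^ J := by
  obtain ⟨h1, h2⟩ := sqrt2_lt
  have h := summable_pow_mul_geometric_of_norm_lt_one 2 (r := 1 / Real.sqrt 2)
    (by rw [Real.norm_of_nonneg h1.le]; exact h2)
  have h3 := ((summable_nat_add_iff 1).2 h).mul_left ((1 / Real.sqrt 2)⁻¹)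
  refine h3.congr fun J => ?_
  push_cast
  have e : (1 / Real.sqrt 2)⁻¹ * (1 / Real.sqrt 2) = 1 := inv_mul_cancel₀ h1.ne'
  calc (1 / Real.sqrt 2)⁻¹ * (((J:ℝ) + 1) ^ 2 * (1 / Real.sqrt 2) ^ (J + 1)) =
      ((J:ℝ) + 1) ^ 2 * (1 / Real.sqrt 2) ^ J * ((1 / Real.sqrt 2)⁻¹ * (1 / Real.sqrt 2)) := by
        rw [pow_succ (1 / Real.sqrt 2) J]
        ring
    _ = _ := by rw [e, mul_one]

lemma R0_nonneg : 0 ≤ R0 := tsum_nonneg fun J => by positivity

lemma scale_sum {H0 : ℝ} (hH0 : 0 < H0) (S : Finset ℕ) (hS : ∀ J ∈ S, H0 ≤ 2 ^ J) :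
    ∑ J ∈ S, ((J:ℝ) + 1) ^ 2 / 2 ^ J ≤ R0 / Real.sqrt H0 := by
  have hs : 0 < Real.sqrt H0 := Real.sqrt_pos.2 hH0
  have h1 : ∀ J ∈ S, ((J:ℝ) + 1) ^ 2 / 2 ^ J ≤
      (((J:ℝ) + 1) ^ 2 * (1 / Real.sqrt 2) ^ J) * (1 / Real.sqrt H0) := by
    intro J hJ
    have h2 : (2:ℝ) ^ J = Real.sqrt 2 ^ J * Real.sqrt 2 ^ J := by
      rw [← mul_pow, Real.mul_self_sqrt (by norm_num)]
    have h3 : Real.sqrt H0 ≤ Real.sqrt 2 ^ J := by
      rw [Real.sqrt_le_iff]
      refine ⟨by positivity, ?_⟩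
      rw [sq, ← h2]
      exact hS J hJ
    have h4 : 0 < Real.sqrt 2 ^ J := by positivity
    rw [h2, one_div_pow]
    rw [show (((J:ℝ) + 1) ^ 2 * (1 / Real.sqrt 2 ^ J)) * (1 / Real.sqrt H0) =
      ((J:ℝ) + 1) ^ 2 / (Real.sqrt 2 ^ J * Real.sqrt H0) by field_simp]
    exact div_le_div_of_nonneg_left (by positivity) (by positivity)
      (mul_le_mul_of_nonneg_left h3 h4.le)
  refine (sum_le_sum h1).trans ?_
  rw [← sum_mul, show R0 / Real.sqrt H0 = R0 * (1 / Real.sqrt H0) by ring]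
  refine mul_le_mul_of_nonneg_right ?_ (by positivity)
  unfold R0
  exact Summable.sum_le_tsum S (fun J _ => by positivity) R0_summable

lemma wm_sw {F : ℝ → ℂ} (hF : Measurable F) {M : ℝ} (hM : ∀ t, ‖F t‖ ≤ M) (d : ℂ) {H : ℝ}
    (hH : 0 < H) (t : ℝ) : wm F H t - d = (1 / (H:ℂ)) * sw (fun u => F u - d) H t := by
  have hH0 : (H:ℂ) ≠ 0 := by exact_mod_cast hH.ne'
  unfold wm sw
  rw [intervalIntegral.integral_sub (bdd_int hF hM t 0 H) intervalIntegrable_const,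
    intervalIntegral.integral_const, intervalIntegral.integral_of_le hH.le, sub_zero,
    Complex.real_smul]
  field_simp

/-- **All lengths at once**, from the bounds for the windows of one length. -/
theorem sup_windows {F : ℝ → ℂ} (hF : Measurable F) {M : ℝ} (hM : ∀ t, ‖F t‖ ≤ M) (d : ℂ)
    {T X Q ε : ℝ} (hL : 3 ≤ Real.log T) (hT : 0 < T) (hX : X ≤ T) (hε : 0 ≤ ε) (hQ : 0 ≤ Q)
    (h0 : ∀ m : ℝ, 0 ≤ m → m ≤ X → ∫ t in Set.Ioc 0 T, ‖F (t + m) - d‖ ^ 2 ≤ Q)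
    (h1 : ∀ m h : ℝ, 0 ≤ m → 1 ≤ h → m + h ≤ X →
      ∫ t in Set.Ioc 0 T, ‖wm F h (t + m) - d‖ ^ 2 ≤ Q / h + ε)
    {H0 η : ℝ} (hH0 : 1 ≤ H0) (hη : 0 < η) :
    (volume.restrict (Set.Ioc 0 T)).real {t | ∃ H : ℝ, H0 ≤ H ∧ H ≤ X / 2 ∧
      η < ‖wm F H t - d‖} ≤ 1 / η ^ 2 * (4 * Q * (R0 / Real.sqrt H0) + 72 * Real.log T ^ 2 * ε) := by
  set G : ℝ → ℂ := fun u => F u - d with hG
  have hGm : Measurable G := hF.sub measurable_const
  have hGM : ∀ t, ‖G t‖ ≤ M + ‖d‖ := fun t => (norm_sub_le _ _).trans (add_le_add (hM t) le_rfl)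
  set ν : Measure ℝ := volume.restrict (Set.Ioc 0 T) with hν
  -- the sums of squares
  have hq0 : ∀ m : ℝ, 0 ≤ m → m + 1 ≤ X → ∫ t in Set.Ioc 0 T, q0 G (t + m) ≤ Q := by
    intro m hm hm1
    have hi : Integrable (Function.uncurry fun t u : ℝ => ‖G (t + m + u)‖ ^ 2)
        (ν.prod (volume.restrict (Set.Ioc 0 1))) := by
      have hm' : Measurable (Function.uncurry fun t u : ℝ => ‖G (t + m + u)‖ ^ 2) :=
        ((hGm.comp ((measurable_fst.add measurable_const).add measurable_snd)).norm).pow_const 2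
      refine Integrable.of_bound hm'.aestronglyMeasurable ((M + ‖d‖) ^ 2)
        (Filter.Eventually.of_forall fun p => ?_)
      show ‖‖G (p.1 + m + p.2)‖ ^ 2‖ ≤ _
      rw [Real.norm_of_nonneg (by positivity)]
      exact pow_le_pow_left₀ (norm_nonneg _) (hGM _) 2
    have e1 : ∫ t in Set.Ioc 0 T, q0 G (t + m) =
        ∫ u in Set.Ioc (0:ℝ) 1, ∫ t in Set.Ioc 0 T, ‖G (t + m + u)‖ ^ 2 := by
      rw [← integral_integral_swap hi]
      refine integral_congr_ae (Filter.Eventually.of_forall fun t => ?_)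
      show q0 G (t + m) = _
      unfold q0
      rw [intervalIntegral.integral_of_le zero_le_one]
    rw [e1]
    have h2 := norm_setIntegral_le_of_norm_le_const (μ := volume) (s := Set.Ioc (0:ℝ) 1)
      (f := fun u => ∫ t in Set.Ioc 0 T, ‖G (t + m + u)‖ ^ 2) (C := Q)
      (by rw [Real.volume_Ioc]; exact ENNReal.ofReal_lt_top) (fun u hu => by
        rw [Real.norm_of_nonneg (integral_nonneg fun t => by positivity)]
        refine le_trans (le_of_eq ?_) (h0 (m + u) (by linarith [hu.1]) (by linarith [hu.2]))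
        refine integral_congr_ae (Filter.Eventually.of_forall fun t => ?_)
        show ‖F (t + m + u) - d‖ ^ 2 = ‖F (t + (m + u)) - d‖ ^ 2
        rw [add_assoc])
    rw [Real.volume_real_Ioc_of_le zero_le_one, sub_zero, mul_one] at h2
    exact (Real.le_norm_self _).trans h2
  have hsw : ∀ m h : ℝ, 0 ≤ m → 1 ≤ h → m + h ≤ X →
      ∫ t in Set.Ioc 0 T, ‖sw G h (t + m)‖ ^ 2 ≤ Q * h + ε * h ^ 2 := by
    intro m h hm hh hmh
    have hh0 : 0 < h := by linarith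
    have e1 : ∀ t, ‖sw G h (t + m)‖ ^ 2 = h ^ 2 * ‖wm F h (t + m) - d‖ ^ 2 := by
      intro t
      rw [wm_sw hF hM d hh0, norm_mul, norm_div, norm_one, Complex.norm_real,
        Real.norm_of_nonneg hh0.le]
      field_simp
      rfl
    simp_rw [e1]
    rw [integral_const_mul]
    calc h ^ 2 * _ ≤ h ^ 2 * (Q / h + ε) := mul_le_mul_of_nonneg_left (h1 m h hm hh hmh) (by positivity)
      _ = _ := by
        field_simp
  have hQQ : ∀ J : ℕ, (2:ℝ) ^ J ≤ X →
      ∫ t in Set.Ioc 0 T, QQ G J t ≤ 2 ^ J * ((J + 1) * Q + 2 ^ (J + 1) * ε) := by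
    intro J hJ
    have h := QQ_mean hGm hGM hq0 hsw hε J 0 le_rfl (by rw [zero_add]; exact hJ)
    simpa using h
  -- the level sets
  set f : ℕ → ℝ → ℝ := fun J t => 4 * (J + 1) / 4 ^ J * QQ G J t with hf
  have hfi : ∀ J, Integrable (f J) ν := by
    intro J
    have h := (QQ_integrable hGm hGM J 0 T).const_mul (4 * ((J:ℝ) + 1) / 4 ^ J)
    simpa using h
  have hlev : ∀ J : ℕ, (2:ℝ) ^ J ≤ X → ν.real {t | η ^ 2 ≤ f J t} ≤
      1 / η ^ 2 * (4 * Q * (((J:ℝ) + 1) ^ 2 / 2 ^ J) + 8 * (J + 1) * ε) := by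
    intro J hJ
    have h2 := mul_meas_ge_le_integral_of_nonneg (μ := ν) (f := f J)
      (Filter.Eventually.of_forall fun t => by
        have := QQ_nonneg G J t
        show 0 ≤ 4 * ((J:ℝ) + 1) / 4 ^ J * QQ G J t
        positivity) (hfi J) (η ^ 2)
    have h3 : ∫ t, f J t ∂ν ≤ 4 * Q * (((J:ℝ) + 1) ^ 2 / 2 ^ J) + 8 * (J + 1) * ε := by
      rw [hf]
      simp only
      rw [integral_const_mul]
      have h4 := mul_le_mul_of_nonneg_left (hQQ J hJ)
        (show 0 ≤ 4 * ((J:ℝ) + 1) / 4 ^ J by positivity)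
      refine h4.trans (le_of_eq ?_)
      have e4 : (4:ℝ) ^ J = 2 ^ J * 2 ^ J := by
        rw [← mul_pow]
        norm_num
      rw [e4, pow_succ]
      field_simp
      ring
    rw [one_div, inv_mul_eq_div, le_div_iff₀ (by positivity), mul_comm]
    exact h2.trans h3
  -- the union
  set N : ℕ := ⌈2 * Real.log T⌉₊ with hN
  set S : Finset ℕ := (range N).filter fun J => H0 ≤ 2 ^ J ∧ (2:ℝ) ^ J ≤ X with hS
  have hJN : ∀ J : ℕ, (2:ℝ) ^ J ≤ X → J < N := by
    intro J hJ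
    have h2 : Real.log ((2:ℝ) ^ J) ≤ Real.log T := Real.log_le_log (by positivity) (hJ.trans hX)
    rw [Real.log_pow] at h2
    have h3 := Real.log_two_gt_d9
    have h4 : (J:ℝ) < 2 * Real.log T := by
      have hJ0 : (0:ℝ) ≤ J := Nat.cast_nonneg J
      nlinarith
    exact_mod_cast h4.trans_le (Nat.le_ceil _)
  have hsub : {t | ∃ H : ℝ, H0 ≤ H ∧ H ≤ X / 2 ∧ η < ‖wm F H t - d‖} ⊆
      ⋃ J ∈ S, {t | η ^ 2 ≤ f J t} := by
    rintro t ⟨H, hH1, hH2, hH3⟩
    obtain ⟨n, hn1, hn2⟩ := exists_nat_pow_near (x := H) (y := 2) (by linarith) (by norm_num)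
    have hH : 0 < H := by linarith
    have hp : (2:ℝ) ^ (n + 1) = 2 * 2 ^ n := by
      rw [pow_succ]
      ring
    refine Set.mem_biUnion (x := n + 1) ?_ ?_
    · have h3 : (2:ℝ) ^ (n + 1) ≤ X := by
        rw [hp]
        linarith
      rw [hS]
      refine mem_filter.2 ⟨mem_range.2 (hJN _ h3), by linarith, h3⟩
    · show η ^ 2 ≤ 4 * (((n + 1 : ℕ) : ℝ) + 1) / 4 ^ (n + 1) * QQ G (n + 1) t
      have h3 := chain hGm hGM (n + 1) t hH.le hn2.le
      have h4 : ‖wm F H t - d‖ = 1 / H * ‖sw G H t‖ := by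
        rw [wm_sw hF hM d hH, norm_mul, norm_div, norm_one, Complex.norm_real,
          Real.norm_of_nonneg hH.le]
      have h5 : η ^ 2 ≤ (1 / H * ‖sw G H t‖) ^ 2 := by
        rw [← h4]
        exact pow_le_pow_left₀ hη.le hH3.le 2
      have h6 : (1 / H) ^ 2 ≤ 4 / 4 ^ (n + 1) := by
        have e4 : (4:ℝ) ^ (n + 1) = (2 * 2 ^ n) * (2 * 2 ^ n) := by
          rw [← hp, ← mul_pow]
          norm_num
        rw [e4, one_div_pow, div_le_div_iff₀ (by positivity) (by positivity)]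
        have h7 : (2:ℝ) ^ n * 2 ^ n ≤ H ^ 2 := by
          rw [sq]
          exact mul_le_mul hn1 hn1 (by positivity) hH.le
        linarith
      have hq := QQ_nonneg G (n + 1) t
      calc η ^ 2 ≤ (1 / H) ^ 2 * ‖sw G H t‖ ^ 2 := by rw [← mul_pow]; exact h5
        _ ≤ (4 / 4 ^ (n + 1)) * ((((n + 1 : ℕ) : ℝ) + 1) * QQ G (n + 1) t) :=
            mul_le_mul h6 h3 (by positivity) (by positivity)
        _ = _ := by ring
  have hfin : ν Set.univ < ⊤ := by
    rw [hν, Measure.restrict_apply_univ, Real.volume_Ioc]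
    exact ENNReal.ofReal_lt_top
  have hνf : IsFiniteMeasure ν := ⟨hfin⟩
  have h2 : ν.real {t | ∃ H : ℝ, H0 ≤ H ∧ H ≤ X / 2 ∧ η < ‖wm F H t - d‖} ≤
      ∑ J ∈ S, ν.real {t | η ^ 2 ≤ f J t} :=
    (measureReal_mono hsub (measure_lt_top ν _).ne).trans (measureReal_biUnion_finset_le S _)
  refine h2.trans ((sum_le_sum fun J hJ => hlev J (mem_filter.1 hJ).2.2).trans ?_)
  rw [← mul_sum, sum_add_distrib, ← mul_sum]
  refine mul_le_mul_of_nonneg_left (add_le_add ?_ ?_) (by positivity)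
  · exact mul_le_mul_of_nonneg_left (scale_sum (by linarith) S fun J hJ =>
      (mem_filter.1 hJ).2.1) (by positivity)
  · have h3 : ∀ J ∈ S, 8 * ((J:ℝ) + 1) * ε ≤ 8 * N * ε := by
      intro J hJ
      have h4 : J < N := mem_range.1 (mem_filter.1 hJ).1
      have h5 : (J:ℝ) + 1 ≤ N := by exact_mod_cast h4
      refine mul_le_mul_of_nonneg_right ?_ hε
      linarith
    have h4 : ∑ J ∈ S, 8 * ((J:ℝ) + 1) * ε ≤ N * (8 * N * ε) := by
      refine (sum_le_card_nsmul S _ _ h3).trans ?_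
      rw [nsmul_eq_mul]
      refine mul_le_mul_of_nonneg_right ?_ (by positivity)
      have h5 : #S ≤ N := (card_filter_le _ _).trans (by rw [card_range])
      exact_mod_cast h5
    have h5 : (N:ℝ) ≤ 3 * Real.log T := by
      have := (Nat.ceil_lt_add_one (show 0 ≤ 2 * Real.log T by linarith)).le
      linarith
    have hN0 : (0:ℝ) ≤ N := Nat.cast_nonneg N
    refine h4.trans ?_
    have h6 : (N:ℝ) * N ≤ (3 * Real.log T) * (3 * Real.log T) :=
      mul_le_mul h5 h5 hN0 (by linarith)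
    calc (N:ℝ) * (8 * N * ε) = 8 * (N * N) * ε := by ring
      _ ≤ 8 * ((3 * Real.log T) * (3 * Real.log T)) * ε := by
          refine mul_le_mul_of_nonneg_right ?_ hε
          linarith
      _ = _ := by ring

end

end Run7.h518.SW
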