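import Pool.Agent.Run7.h518.SW.Var
import Pool.Agent.Y746.CS.Fin1

/-!
# The truncated shifted products and their correlations (helper518)
-/

set_option autoImplicit false

namespace Run7.h518.SW

open Finset MeasureTheory Complex
open Pool.Agent.H306R2 hiding wt
open Pool.Agent.Y746.OA Pool.Agent.Y746.CS

noncomputable section

/-- the points at which all the values are at most `V` -/
def gd (δ V : ℝ) {k l : ℕ} (a : Fin k → ℝ) (b : Fin l → ℝ) : Set ℝ :=
  {t | (∀ j, ‖riemannZeta (sp δ (t + a j))‖ ≤ V) ∧ ∀ j, ‖riemannZeta (sp δ (t + b j))‖ ≤ V}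

/-- the shifted product -/
def ZZ (δ : ℝ) {k l : ℕ} (a : Fin k → ℝ) (b : Fin l → ℝ) (t : ℝ) : ℂ :=
  (∏ j, riemannZeta (sp δ (t + a j))) * (starRingEnd ℂ) (∏ j, riemannZeta (sp δ (t + b j)))

/-- the truncated shifted product -/
def FF (δ V : ℝ) {k l : ℕ} (a : Fin k → ℝ) (b : Fin l → ℝ) (t : ℝ) : ℂ :=
  (gd δ V a b).indicator (ZZ δ a b) t

lemma zc {δ : ℝ} (hδ1 : δ ≤ 1 / 16) (c : ℝ) : Continuous fun t : ℝ => riemannZeta (sp δ (t + c)) :=
  (zeta_sp_cont hδ1).comp (continuous_id.add continuous_const)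

lemma gd_meas {δ : ℝ} (hδ1 : δ ≤ 1 / 16) (V : ℝ) {k l : ℕ} (a : Fin k → ℝ) (b : Fin l → ℝ) :
    MeasurableSet (gd δ V a b) := by
  have h : gd δ V a b = (⋂ j, {t | ‖riemannZeta (sp δ (t + a j))‖ ≤ V}) ∩
      ⋂ j, {t | ‖riemannZeta (sp δ (t + b j))‖ ≤ V} := by
    ext t
    simp [gd]
  rw [h]
  refine MeasurableSet.inter (MeasurableSet.iInter fun j => ?_) (MeasurableSet.iInter fun j => ?_)
  · exact (isClosed_le (zc hδ1 (a j)).norm continuous_const).measurableSet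
  · exact (isClosed_le (zc hδ1 (b j)).norm continuous_const).measurableSet

lemma ZZ_cont {δ : ℝ} (hδ1 : δ ≤ 1 / 16) {k l : ℕ} (a : Fin k → ℝ) (b : Fin l → ℝ) :
    Continuous (ZZ δ a b) := by
  unfold ZZ
  refine Continuous.mul (continuous_finsetProd _ fun j _ => zc hδ1 (a j)) ?_
  exact Complex.continuous_conj.comp (continuous_finsetProd _ fun j _ => zc hδ1 (b j))

lemma FF_meas {δ : ℝ} (hδ1 : δ ≤ 1 / 16) (V : ℝ) {k l : ℕ} (a : Fin k → ℝ) (b : Fin l → ℝ) :
    Measurable (FF δ V a b) :=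
  (ZZ_cont hδ1 a b).measurable.indicator (gd_meas hδ1 V a b)

lemma FF_le (δ : ℝ) {V : ℝ} (hV : 0 ≤ V) {k l : ℕ} (a : Fin k → ℝ) (b : Fin l → ℝ) (t : ℝ) :
    ‖FF δ V a b t‖ ≤ V ^ k * V ^ l := by
  unfold FF
  by_cases h : t ∈ gd δ V a b
  · rw [Set.indicator_of_mem h]
    unfold ZZ
    rw [norm_mul, RCLike.norm_conj, norm_prod, norm_prod]
    have h1 : ∏ j, ‖riemannZeta (sp δ (t + a j))‖ ≤ V ^ k := by
      refine (prod_le_prod (fun j _ => norm_nonneg _) fun j _ => h.1 j).trans ?_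
      rw [prod_const, card_univ, Fintype.card_fin]
    have h2 : ∏ j, ‖riemannZeta (sp δ (t + b j))‖ ≤ V ^ l := by
      refine (prod_le_prod (fun j _ => norm_nonneg _) fun j _ => h.2 j).trans ?_
      rw [prod_const, card_univ, Fintype.card_fin]
    exact mul_le_mul h1 h2 (prod_nonneg fun j _ => norm_nonneg _) (by positivity)
  · rw [Set.indicator_of_notMem h, norm_zero]
    positivity

lemma forall_append {k l : ℕ} (x : Fin k → ℝ) (y : Fin l → ℝ) (p : ℝ → Prop) :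
    (∀ j, p (Fin.append x y j)) ↔ (∀ j, p (x j)) ∧ ∀ j, p (y j) := by
  constructor
  · intro h
    refine ⟨fun j => ?_, fun j => ?_⟩
    · have := h (Fin.castAdd l j)
      rwa [Fin.append_left] at this
    · have := h (Fin.natAdd k j)
      rwa [Fin.append_right] at this
  · rintro ⟨h1, h2⟩ j
    refine Fin.addCases (fun i => ?_) (fun i => ?_) j
    · rw [Fin.append_left]
      exact h1 i
    · rw [Fin.append_right]
      exact h2 i

lemma prod_append {M : Type} [CommMonoid M] {k l : ℕ} (x : Fin k → ℝ) (y : Fin l → ℝ) (f : ℝ → M) :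
    ∏ j, f (Fin.append x y j) = (∏ j, f (x j)) * ∏ j, f (y j) := by
  rw [Fin.prod_univ_add]
  simp_rw [Fin.append_left, Fin.append_right]

lemma Tk_append {k l : ℕ} (x : Fin k → ℝ) (y : Fin l → ℝ) :
    Tk (Fin.append x y) = Tk x * Tk y := prod_append x y fun c => tw1 1 c

lemma twc_one (u : ℝ) : twc u 1 = 1 := by
  ext n
  rw [twc_apply]
  by_cases h : n = 1
  · subst h
    simp
  · rw [ArithmeticFunction.one_apply_ne h, zero_mul]

lemma twc_mul (u : ℝ) (A B : ArithmeticFunction ℂ) : twc u (A * B) = twc u A * twc u B := by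
  ext n
  rw [twc_apply, ArithmeticFunction.mul_apply, ArithmeticFunction.mul_apply, sum_mul]
  refine sum_congr rfl fun x hx => ?_
  obtain ⟨x1, x2, x3, -⟩ := pos_of_mem hx
  rw [twc_apply, twc_apply, ← x3, Nat.cast_mul, Complex.natCast_mul_natCast_cpow]
  ring

lemma twc_tw1 (u c : ℝ) : tw1 1 (c + u) = twc u (tw1 1 c) := by
  ext n
  rw [twc_apply, tw1_apply, tw1_apply, mul_assoc]
  rcases Nat.eq_zero_or_pos n with h | h
  · subst h
    simp [dv]
  · have hn0 : (n:ℂ) ≠ 0 := by exact_mod_cast (by omega : n ≠ 0)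
    rw [← Complex.cpow_add _ _ hn0]
    congr 2
    push_cast
    ring

lemma Tk_shift {k : ℕ} (a : Fin k → ℝ) (u : ℝ) : Tk (fun j => a j + u) = twc u (Tk a) := by
  unfold Tk
  have h : ∀ S : Finset (Fin k), ∏ j ∈ S, tw1 1 (a j + u) = twc u (∏ j ∈ S, tw1 1 (a j)) := by
    intro S
    induction S using Finset.induction_on with
    | empty => rw [prod_empty, prod_empty, twc_one]
    | insert j S hj ih => rw [prod_insert hj, prod_insert hj, twc_mul, ih, twc_tw1]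
  exact h univ

lemma wt_w (δ : ℝ) (n : ℕ) : wt δ n = w δ n := by
  unfold wt w
  congr 2
  ring

/-- the product of two values of the truncated product -/
lemma FF_corr (δ V : ℝ) {k l : ℕ} (a : Fin k → ℝ) (b : Fin l → ℝ) (u v t : ℝ) :
    FF δ V a b (t + u) * (starRingEnd ℂ) (FF δ V a b (t + v)) =
      FF δ V (Fin.append (fun j => a j + u) (fun j => b j + v))
        (Fin.append (fun j => b j + u) (fun j => a j + v)) t := by
  have hm : t ∈ gd δ V (Fin.append (fun j => a j + u) (fun j => b j + v))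
        (Fin.append (fun j => b j + u) (fun j => a j + v)) ↔
      t + u ∈ gd δ V a b ∧ t + v ∈ gd δ V a b := by
    unfold gd
    simp only [Set.mem_ofPred_eq]
    rw [forall_append _ _ fun c => ‖riemannZeta (sp δ (t + c))‖ ≤ V,
      forall_append _ _ fun c => ‖riemannZeta (sp δ (t + c))‖ ≤ V]
    have e : ∀ x y : ℝ, t + (x + y) = t + y + x := fun x y => by ring
    simp only [e]
    tauto
  unfold FF
  by_cases h1 : t + u ∈ gd δ V a b
  · by_cases h2 : t + v ∈ gd δ V a b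
    · rw [Set.indicator_of_mem h1, Set.indicator_of_mem h2, Set.indicator_of_mem (hm.2 ⟨h1, h2⟩)]
      unfold ZZ
      rw [prod_append _ _ fun c => riemannZeta (sp δ (t + c)),
        prod_append _ _ fun c => riemannZeta (sp δ (t + c))]
      have e : ∀ x y : ℝ, t + (x + y) = t + y + x := fun x y => by ring
      simp only [e, map_mul, Complex.conj_conj]
      ring
    · rw [Set.indicator_of_notMem h2, map_zero, mul_zero, Set.indicator_of_notMem]
      intro h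
      exact h2 (hm.1 h).2
  · rw [Set.indicator_of_notMem h1, zero_mul, Set.indicator_of_notMem]
    intro h
    exact h1 (hm.1 h).1

lemma FF_shift (δ V : ℝ) {k l : ℕ} (a : Fin k → ℝ) (b : Fin l → ℝ) (u t : ℝ) :
    FF δ V a b (t + u) = FF δ V (fun j => a j + u) (fun j => b j + u) t := by
  have e : ∀ x : ℝ, t + (x + u) = t + u + x := fun x => by ring
  unfold FF
  have hm : t ∈ gd δ V (fun j => a j + u) (fun j => b j + u) ↔ t + u ∈ gd δ V a b := by
    unfold gd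
    simp only [Set.mem_ofPred_eq, e]
  by_cases h : t + u ∈ gd δ V a b
  · rw [Set.indicator_of_mem h, Set.indicator_of_mem (hm.2 h)]
    unfold ZZ
    simp only [e]
  · rw [Set.indicator_of_notMem h, Set.indicator_of_notMem (fun h' => h (hm.1 h'))]

lemma FF_int {δ : ℝ} (hδ1 : δ ≤ 1 / 16) (V T : ℝ) {k l : ℕ} (a : Fin k → ℝ) (b : Fin l → ℝ) :
    ∫ t in Set.Ioc 0 T, FF δ V a b t = ∫ t in {t | t ∈ Set.Ioc 0 T ∧
      (∀ j, ‖riemannZeta (sp δ (t + a j))‖ ≤ V) ∧ ∀ j, ‖riemannZeta (sp δ (t + b j))‖ ≤ V},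
        (∏ j, riemannZeta (sp δ (t + a j))) *
          (starRingEnd ℂ) (∏ j, riemannZeta (sp δ (t + b j))) := by
  unfold FF
  rw [setIntegral_indicator (gd_meas hδ1 V a b)]
  rfl

/-- the diagonal sum is invariant under a common shift -/
lemma dd_shift {k l : ℕ} (a : Fin k → ℝ) (b : Fin l → ℝ) (u δ : ℝ) :
    dd (Tk fun j => a j + u) (Tk fun j => b j + u) δ = dd (Tk a) (Tk b) δ := by
  unfold dd
  refine tsum_congr fun n => ?_
  rw [Tk_shift, Tk_shift, twc_apply, twc_apply, map_mul]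
  rcases Nat.eq_zero_or_pos n with h | h
  · subst h
    simp
  · rw [cpow_ex h]
    have e : ex (Real.log n) u * (starRingEnd ℂ) (ex (Real.log n) u) = 1 := by
      rw [Complex.mul_conj, Complex.normSq_eq_norm_sq, ex_norm]
      norm_num
    calc Tk a n * ex (Real.log n) u * ((starRingEnd ℂ) (Tk b n) *
          (starRingEnd ℂ) (ex (Real.log n) u)) * w δ n =
        Tk a n * (starRingEnd ℂ) (Tk b n) * w δ n *
          (ex (Real.log n) u * (starRingEnd ℂ) (ex (Real.log n) u)) := by ring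
      _ = _ := by rw [e, mul_one]

/-- the parameters -/
lemma params {C T δ : ℝ} (hC : 2 ≤ C) (hT : Real.exp (Real.exp 2) ≤ T)
    (hδ : C * Real.log (Real.log T) / Real.log T ≤ δ) :
    3 ≤ Real.log T ∧ 0 < T ∧ 0 < δ ∧ 2 / δ ≤ Real.log T := by
  have hT0 : 0 < T := (Real.exp_pos _).trans_le hT
  have h1 : Real.exp 2 ≤ Real.log T := (Real.le_log_iff_exp_le hT0).2 hT
  have h2 : (3:ℝ) ≤ Real.exp 2 := by
    have := Real.add_one_le_exp (2:ℝ)
    linarith
  have hL0 : 0 < Real.log T := by linarith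
  have h3 : 2 ≤ Real.log (Real.log T) := (Real.le_log_iff_exp_le hL0).2 h1
  have h4 : 2 / Real.log T ≤ δ := by
    refine le_trans ?_ hδ
    refine div_le_div_of_nonneg_right ?_ hL0.le
    nlinarith
  have h5 : 0 < δ := (by positivity : 0 < 2 / Real.log T).trans_le h4
  refine ⟨h2.trans h1, hT0, h5, ?_⟩
  rw [div_le_iff₀ hL0] at h4
  rw [div_le_iff₀ h5]
  linarith

/-- the exponent -/
def KK (k l : ℕ) : ℕ := 2 * (k + l + 1) ^ 2 + (k + l + 1) ^ 4 + 1

/-- **The variance over the windows of one length.** -/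
theorem win_var (k l : ℕ) : ∃ c : ℝ, 0 < c ∧ ∀ B : ℕ, ∃ (A : ℕ) (C T0 : ℝ), 2 ≤ C ∧
    Real.exp (Real.exp 2) ≤ T0 ∧ ∀ T : ℝ, T0 ≤ T → ∀ δ : ℝ,
    C * Real.log (Real.log T) / Real.log T ≤ δ → δ ≤ 1 / 16 →
    ∀ V : ℝ, Real.log T ^ A ≤ V → V ≤ T ^ (c * δ) →
    ∀ (a : Fin k → ℝ) (b : Fin l → ℝ) (H : ℝ), 0 < H → (∀ j, |a j| + H ≤ T) →
    (∀ j, |b j| + H ≤ T) →
    (∫ t in Set.Ioc 0 T, ‖wm (FF δ V a b) H t - dd (Tk a) (Tk b) δ‖ ^ 2 ≤
      T * (12 * (2 / δ) ^ KK k l / H) + T / Real.log T ^ B) ∧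
    (∫ t in Set.Ioc 0 T, ‖FF δ V a b t‖ ^ 2 ≤
      T * (2 / δ) ^ (4 * (k + l + 1) ^ 2) + T / Real.log T ^ B) ∧
    ‖dd (Tk a) (Tk b) δ‖ ≤ (2 / δ) ^ ((k + l + 1) ^ 2) := by
  obtain ⟨c1, hc1, h1⟩ := cx (k + l) (l + k)
  obtain ⟨c2, hc2, h2⟩ := cx k l
  refine ⟨min c1 c2, lt_min hc1 hc2, fun B => ?_⟩
  set P : ℕ := k + l + 1 with hP
  set B' : ℕ := B + (P ^ 2 + 1) with hB'
  obtain ⟨A1, C1, T1, hC1, g1⟩ := h1 B'
  obtain ⟨A2, C2, T2, hC2, g2⟩ := h2 B'
  refine ⟨max A1 A2, max (max C1 C2) 2, max (max T1 T2) (Real.exp (Real.exp 2)),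
    le_max_right _ _, le_max_right _ _, fun T hT δ hδ hδ1 V hV1 hV2 a b H hH ha hb => ?_⟩
  have hTe : Real.exp (Real.exp 2) ≤ T := (le_max_right _ _).trans hT
  obtain ⟨hL3, hT0, hδ0, h2δ⟩ := params (le_max_right _ _) hTe hδ
  have hTT : T1 ≤ T ∧ T2 ≤ T := by
    have := (le_max_left _ _).trans hT
    exact ⟨(le_max_left _ _).trans this, (le_max_right _ _).trans this⟩
  set L : ℝ := Real.log T with hL
  have hL0 : 0 < L := by linarith
  have hLL : 0 ≤ Real.log L := Real.log_nonneg (by linarith)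
  have hT1 : 1 ≤ T := by
    have := Real.one_le_exp (Real.exp_pos 2).le
    linarith
  have hδC1 : C1 * Real.log L / L ≤ δ := by
    refine le_trans ?_ hδ
    refine div_le_div_of_nonneg_right ?_ hL0.le
    exact mul_le_mul_of_nonneg_right ((le_max_left _ _).trans (le_max_left _ _)) hLL
  have hδC2 : C2 * Real.log L / L ≤ δ := by
    refine le_trans ?_ hδ
    refine div_le_div_of_nonneg_right ?_ hL0.le
    exact mul_le_mul_of_nonneg_right ((le_max_right _ _).trans (le_max_left _ _)) hLL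
  have hVA1 : L ^ A1 ≤ V := (pow_le_pow_right₀ (by linarith) (le_max_left _ _)).trans hV1
  have hVA2 : L ^ A2 ≤ V := (pow_le_pow_right₀ (by linarith) (le_max_right _ _)).trans hV1
  have hVc1 : V ≤ T ^ (c1 * δ) := hV2.trans (Real.rpow_le_rpow_of_exponent_le hT1
    (mul_le_mul_of_nonneg_right (min_le_left _ _) hδ0.le))
  have hVc2 : V ≤ T ^ (c2 * δ) := hV2.trans (Real.rpow_le_rpow_of_exponent_le hT1
    (mul_le_mul_of_nonneg_right (min_le_right _ _) hδ0.le))
  have hV0 : 0 ≤ V := (pow_nonneg hL0.le _).trans hVA1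
  have hδle : δ ≤ 1 := by linarith
  have hA : ∀ n, ‖Tk a n‖ ≤ dv P n := fun n => (Tk_le a n).trans
    (dv_mono (Nat.cast_nonneg k) (by exact_mod_cast (by omega : k ≤ P)) n)
  have hB : ∀ n, ‖Tk b n‖ ≤ dv P n := fun n => (Tk_le b n).trans
    (dv_mono (Nat.cast_nonneg l) (by exact_mod_cast (by omega : l ≤ P)) n)
  -- the correlations
  have hcorr : ∀ u v : ℝ, 0 ≤ u → u ≤ H → 0 ≤ v → v ≤ H →
      ‖(∫ t in Set.Ioc 0 T, FF δ V a b (t + u) * (starRingEnd ℂ) (FF δ V a b (t + v))) -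
        T * DD (Tk a) (Tk b) δ (u, v)‖ ≤ T / L ^ B' := by
    intro u v hu0 hu1 hv0 hv1
    have hs : ∀ (m : ℕ) (x : Fin m → ℝ) (y : ℝ), (∀ j, |x j| + H ≤ T) → 0 ≤ y → y ≤ H →
        ∀ j, |x j + y| ≤ T := by
      intro m x y hx hy0 hy1 j
      have := abs_add_le (x j) y
      rw [abs_of_nonneg hy0] at this
      linarith [hx j]
    have g := (g1 T hTT.1 δ hδC1 hδ1 V hVA1 hVc1 (Fin.append (fun j => a j + u) (fun j => b j + v))
      (Fin.append (fun j => b j + u) (fun j => a j + v))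
      ((forall_append _ _ fun c => |c| ≤ T).2 ⟨hs k a u ha hu0 hu1, hs l b v hb hv0 hv1⟩)
      ((forall_append _ _ fun c => |c| ≤ T).2 ⟨hs l b u hb hu0 hu1, hs k a v ha hv0 hv1⟩)).1
    rw [← FF_int hδ1] at g
    simp_rw [FF_corr]
    have e : ∑' n : ℕ, Tk (Fin.append (fun j => a j + u) (fun j => b j + v)) n *
        (starRingEnd ℂ) (Tk (Fin.append (fun j => b j + u) (fun j => a j + v)) n) * wt δ n =
        DD (Tk a) (Tk b) δ (u, v) := by
      unfold DD gn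
      simp_rw [Tk_append, Tk_shift, wt_w]
    rw [e] at g
    exact g
  have hmean : ∀ u : ℝ, 0 ≤ u → u ≤ H →
      ‖(∫ t in Set.Ioc 0 T, FF δ V a b (t + u)) - T * dd (Tk a) (Tk b) δ‖ ≤ T / L ^ B' := by
    intro u hu0 hu1
    have hs : ∀ (m : ℕ) (x : Fin m → ℝ), (∀ j, |x j| + H ≤ T) → ∀ j, |x j + u| ≤ T := by
      intro m x hx j
      have := abs_add_le (x j) u
      rw [abs_of_nonneg hu0] at this
      linarith [hx j]
    have g := (g2 T hTT.2 δ hδC2 hδ1 V hVA2 hVc2 (fun j => a j + u) (fun j => b j + u)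
      (hs k a ha) (hs l b hb)).1
    rw [← FF_int hδ1] at g
    simp_rw [FF_shift]
    have e : ∑' n : ℕ, Tk (fun j => a j + u) n * (starRingEnd ℂ) (Tk (fun j => b j + u) n) *
        wt δ n = dd (Tk a) (Tk b) δ := by
      rw [← dd_shift a b u δ]
      unfold dd
      simp_rw [wt_w]
    rw [e] at g
    exact g
  have hdd := dd_norm hA hB hδ0 hδle
  have hP1 : 1 ≤ P := by omega
  have hLB : 0 < L ^ B := by positivity
  have h1L : (1:ℝ) ≤ L ^ (P ^ 2 + 1) := one_le_pow₀ (by linarith)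
  refine ⟨?_, ?_, hdd⟩
  · have hv := var_expand (FF_meas hδ1 V a b) (FF_le δ hV0 a b) hH hT0 (dd (Tk a) (Tk b) δ)
      (DD_int hA hB hδ0 hδle H) (E := T / L ^ B')
      (fun u hu v hv => hcorr u v hu.1.le hu.2 hv.1.le hv.2) (fun u hu => hmean u hu.1.le hu.2)
    have ha2 := avg hP1 hA hB hδ0 hδle hH
    refine hv.trans (add_le_add (mul_le_mul_of_nonneg_left ha2 hT0.le) ?_)
    have e1 : 1 + 2 * ‖dd (Tk a) (Tk b) δ‖ ≤ L ^ (P ^ 2 + 1) := by
      have e2 : ‖dd (Tk a) (Tk b) δ‖ ≤ L ^ (P ^ 2) :=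
        hdd.trans (pow_le_pow_left₀ (by positivity) h2δ _)
      have e3 : (1:ℝ) ≤ L ^ (P ^ 2) := one_le_pow₀ (by linarith)
      rw [pow_succ]
      nlinarith
    calc T / L ^ B' * (1 + 2 * ‖dd (Tk a) (Tk b) δ‖) ≤ T / L ^ B' * L ^ (P ^ 2 + 1) :=
          mul_le_mul_of_nonneg_left e1 (by positivity)
      _ = T / L ^ B := by
          rw [hB', pow_add L B]
          field_simp
  · have h3 := hcorr 0 0 le_rfl hH.le le_rfl hH.le
    have h4 : ‖DD (Tk a) (Tk b) δ (0, 0)‖ ≤ (2 / δ) ^ (4 * P ^ 2) := by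
      have h5 : ‖DD (Tk a) (Tk b) δ (0, 0)‖ ≤ ∑' n, ub P δ n :=
        tsum_of_norm_bounded (ub_summable P hδ0 hδle).hasSum fun n => gn_le hA hB δ n (0, 0)
      refine h5.trans ((ub_summable P hδ0 hδle).tsum_le_of_sum_le fun F => ?_)
      have h6 := sum2' (P + P) hδ0 hδle F
      rw [show 4 * P ^ 2 = (P + P) ^ 2 by ring]
      exact h6
    have h5 : ((∫ t in Set.Ioc 0 T, ‖FF δ V a b t‖ ^ 2 : ℝ) : ℂ) =
        ∫ t in Set.Ioc 0 T, FF δ V a b (t + 0) * (starRingEnd ℂ) (FF δ V a b (t + 0)) := by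
      rw [← integral_complex_ofReal]
      refine integral_congr_ae (Filter.Eventually.of_forall fun t => ?_)
      show ((‖FF δ V a b t‖ ^ 2 : ℝ) : ℂ) = FF δ V a b (t + 0) * (starRingEnd ℂ) (FF δ V a b (t + 0))
      rw [add_zero, Complex.mul_conj, Complex.normSq_eq_norm_sq]
    have h6 : 0 ≤ ∫ t in Set.Ioc 0 T, ‖FF δ V a b t‖ ^ 2 := integral_nonneg fun t => by positivity
    have h7 : ∫ t in Set.Ioc 0 T, ‖FF δ V a b t‖ ^ 2 =
        ‖((∫ t in Set.Ioc 0 T, ‖FF δ V a b t‖ ^ 2 : ℝ) : ℂ)‖ := by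
      rw [Complex.norm_real, Real.norm_of_nonneg h6]
    rw [h7, h5]
    have h8 := norm_sub_norm_le (∫ t in Set.Ioc 0 T, FF δ V a b (t + 0) *
      (starRingEnd ℂ) (FF δ V a b (t + 0))) (T * DD (Tk a) (Tk b) δ (0, 0))
    have h9 : ‖(T:ℂ) * DD (Tk a) (Tk b) δ (0, 0)‖ ≤ T * (2 / δ) ^ (4 * P ^ 2) := by
      rw [norm_mul, Complex.norm_real, Real.norm_of_nonneg hT0.le]
      exact mul_le_mul_of_nonneg_left h4 hT0.le
    have h10 : T / L ^ B' ≤ T / L ^ B := by
      refine div_le_div_of_nonneg_left hT0.le hLB ?_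
      exact pow_le_pow_right₀ (by linarith) (by omega)
    linarith

end

end Run7.h518.SW
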