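import Pool.Agent.Run7.h518.SW.Win

/-!
# The recipe in almost all windows, without truncation (helper518)
-/

set_option autoImplicit false

namespace Run7.h518.SW

open Finset MeasureTheory Complex
open Pool.Agent.H306R2 hiding wt
open Pool.Agent.Y746.OA Pool.Agent.Y746.CS

noncomputable section

/-- the truncation does not matter if all the values in the window are small -/
lemma wm_eq {δ V : ℝ} {k l : ℕ} (a : Fin k → ℝ) (b : Fin l → ℝ) {H H1 t : ℝ} (hH : H ≤ H1)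
    (ha : ∀ j, ∀ u : ℝ, t ≤ u → u ≤ t + H1 → ‖riemannZeta (sp δ (u + a j))‖ < V)
    (hb : ∀ j, ∀ u : ℝ, t ≤ u → u ≤ t + H1 → ‖riemannZeta (sp δ (u + b j))‖ < V) :
    wm (ZZ δ a b) H t = wm (FF δ V a b) H t := by
  unfold wm
  congr 1
  refine setIntegral_congr_fun measurableSet_Ioc fun u hu => ?_
  show ZZ δ a b (t + u) = FF δ V a b (t + u)
  unfold FF
  rw [Set.indicator_of_mem]
  have h1 : t ≤ t + u := by linarith [hu.1]
  have h2 : t + u ≤ t + H1 := by linarith [hu.2]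
  exact ⟨fun j => (ha j _ h1 h2).le, fun j => (hb j _ h1 h2).le⟩

/-- **The recipe in almost all windows.** -/
theorem untr (k l : ℕ) : ∃ c : ℝ, 0 < c ∧ ∀ B : ℕ, ∃ C T0 : ℝ, 2 ≤ C ∧
    Real.exp (Real.exp 2) ≤ T0 ∧ ∀ T : ℝ, T0 ≤ T → ∀ δ : ℝ,
    C * Real.log (Real.log T) / Real.log T ≤ δ → δ ≤ 1 / 24 →
    Real.log T ^ B ≤ T ^ (c * δ) ∧
    ∀ (a : Fin k → ℝ) (b : Fin l → ℝ), (∀ j, |a j| ≤ T / 2) → (∀ j, |b j| ≤ T / 2) →
    ∀ H0 η : ℝ, 1 ≤ H0 → 0 < η →
    volume {t | t ∈ Set.Ioc 0 T ∧ ∃ H : ℝ, H0 ≤ H ∧ H ≤ T ^ (c * δ) ∧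
      η < ‖wm (ZZ δ a b) H t - dd (Tk a) (Tk b) δ‖} ≤
      ENNReal.ofReal (T * (1 / η ^ 2 * (48 * R0 * ((2 / δ) ^ KK k l / Real.sqrt H0) +
        1 / Real.log T ^ B) + 1 / Real.log T ^ B)) := by
  obtain ⟨c0, hc0, h⟩ := trunc_sup k l
  set c : ℝ := min c0 1 with hcd
  have hc : 0 < c := lt_min hc0 one_pos
  refine ⟨c, hc, fun B => ?_⟩
  obtain ⟨A, C, T0, hC, hT0, h1⟩ := h B
  obtain ⟨C3, T3, hC3, hT3, h3⟩ := rare
  set A' : ℕ := max A (B + 4) with hA'
  set q : ℝ := 2 * (k + l) * C3 with hq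
  refine ⟨max C (A' / c), max (max T0 T3) (Real.exp q), hC.trans (le_max_left _ _),
    hT0.trans ((le_max_left _ _).trans (le_max_left _ _)), fun T hT δ hδ hδ1 => ?_⟩
  have hTT0 : T0 ≤ T := ((le_max_left _ _).trans (le_max_left _ _)).trans hT
  have hTT3 : T3 ≤ T := ((le_max_right _ _).trans (le_max_left _ _)).trans hT
  have hTTq : Real.exp q ≤ T := (le_max_right _ _).trans hT
  obtain ⟨hL3, hTp, hδ0, h2δ⟩ := params (hC.trans (le_max_left _ _)) (hT0.trans hTT0) hδ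
  have hqL : q ≤ Real.log T := (Real.le_log_iff_exp_le hTp).2 hTTq
  have hT64 : 64 ≤ T := by
    have h2 := Real.one_le_exp (show (0:ℝ) ≤ 1 by norm_num)
    have h3 : Real.exp 2 = Real.exp 1 * Real.exp 1 := by
      rw [← Real.exp_add]
      norm_num
    have h4 := Real.exp_one_gt_d9
    have h5 : (6:ℝ) ≤ Real.exp 2 := by nlinarith
    have h6 : Real.exp 6 ≤ Real.exp (Real.exp 2) := Real.exp_le_exp.2 h5
    have h7 : Real.exp 6 = Real.exp 1 ^ 6 := by
      rw [← Real.exp_nat_mul]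
      norm_num
    have h8 : (2:ℝ) ^ 6 ≤ Real.exp 1 ^ 6 := pow_le_pow_left₀ (by norm_num) (by linarith) 6
    have h9 := hT0.trans hTT0
    norm_num at h8
    linarith
  set L : ℝ := Real.log T with hL
  have hL0 : 0 < L := by linarith
  have hL1 : 1 ≤ L := by linarith
  have hLL : 0 ≤ Real.log L := Real.log_nonneg hL1
  have hδC : C * Real.log L / L ≤ δ := by
    refine le_trans ?_ hδ
    refine div_le_div_of_nonneg_right ?_ hL0.le
    exact mul_le_mul_of_nonneg_right (le_max_left _ _) hLL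
  have hδA : A' / c * Real.log L / L ≤ δ := by
    refine le_trans ?_ hδ
    refine div_le_div_of_nonneg_right ?_ hL0.le
    exact mul_le_mul_of_nonneg_right (le_max_right _ _) hLL
  set V : ℝ := T ^ (c * δ) with hV
  have hVp : 0 < V := Real.rpow_pos_of_pos hTp _
  have hVA' : L ^ A' ≤ V := by
    have e1 : L ^ A' = Real.exp (A' * Real.log L) := by
      rw [mul_comm, Real.exp_mul, Real.exp_log hL0, Real.rpow_natCast]
    rw [e1, hV, Real.rpow_def_of_pos hTp]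
    refine Real.exp_le_exp.2 ?_
    rw [div_le_iff₀ hL0, div_mul_eq_mul_div, div_le_iff₀ hc] at hδA
    linarith
  have hVA : L ^ A ≤ V := (pow_le_pow_right₀ hL1 (le_max_left _ _)).trans hVA'
  have hVB : L ^ (B + 4) ≤ V := (pow_le_pow_right₀ hL1 (le_max_right _ _)).trans hVA'
  have hVc : V ≤ T ^ (c0 * δ) := Real.rpow_le_rpow_of_exponent_le (by linarith)
    (mul_le_mul_of_nonneg_right (min_le_left _ _) hδ0.le)
  have hV8 : V ≤ T / 8 := by
    have h2 : c * δ ≤ 1 / 2 := by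
      have h4 : c ≤ 1 := min_le_right _ _
      nlinarith
    have h4 : V ≤ T ^ ((1:ℝ) / 2) := Real.rpow_le_rpow_of_exponent_le (by linarith) h2
    have h5 : T ^ ((1:ℝ) / 2) = Real.sqrt T := (Real.sqrt_eq_rpow T).symm
    have h6 : 8 ≤ Real.sqrt T := by
      rw [Real.le_sqrt (by norm_num) (by linarith)]
      linarith
    have h7 : Real.sqrt T * Real.sqrt T = T := Real.mul_self_sqrt hTp.le
    rw [h5] at h4
    rw [le_div_iff₀ (by norm_num)]
    nlinarith
  refine ⟨(pow_le_pow_right₀ hL1 (by omega)).trans hVB, fun a b ha hb H0 η hH0 hη => ?_⟩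
  set bad : Set ℝ := {t | ∃ H : ℝ, H0 ≤ H ∧ H ≤ T / 8 ∧
      η < ‖wm (FF δ V a b) H t - dd (Tk a) (Tk b) δ‖} with hbad
  set W : ℝ → Set ℝ := fun y => {t : ℝ | t ∈ Set.Ioc 0 T ∧ ∃ u : ℝ, t ≤ u ∧ u ≤ t + V ∧
      V ≤ ‖riemannZeta (sp δ (u + y))‖} with hW
  have hsub : {t | t ∈ Set.Ioc 0 T ∧ ∃ H : ℝ, H0 ≤ H ∧ H ≤ V ∧
      η < ‖wm (ZZ δ a b) H t - dd (Tk a) (Tk b) δ‖} ⊆
      (bad ∩ Set.Ioc 0 T) ∪ ((⋃ j, W (a j)) ∪ ⋃ j, W (b j)) := by
    rintro t ⟨ht, H, hH1, hH2, hH3⟩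
    by_cases g : t ∈ (⋃ j, W (a j)) ∪ ⋃ j, W (b j)
    · exact Or.inr g
    · left
      rw [Set.mem_union, Set.mem_iUnion, Set.mem_iUnion, not_or, not_exists, not_exists] at g
      have e : wm (ZZ δ a b) H t = wm (FF δ V a b) H t := by
        refine wm_eq a b hH2 (fun j u hu1 hu2 => ?_) fun j u hu1 hu2 => ?_
        · by_contra hc
          exact g.1 j ⟨ht, u, hu1, hu2, not_lt.1 hc⟩
        · by_contra hc
          exact g.2 j ⟨ht, u, hu1, hu2, not_lt.1 hc⟩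
      rw [e] at hH3
      exact ⟨⟨H, hH1, hH2.trans hV8, hH3⟩, ht⟩
  set b1 : ℝ := T * (1 / η ^ 2 * (48 * R0 * ((2 / δ) ^ KK k l / Real.sqrt H0) + 1 / L ^ B)) with hb1
  set b2 : ℝ := C3 * (V + 2) * (T * L) / (δ * V ^ 2) with hb2
  have hb10 : 0 ≤ b1 := by
    have := R0_nonneg
    positivity
  have hb20 : 0 ≤ b2 := by positivity
  have m1 : volume (bad ∩ Set.Ioc 0 T) ≤ ENNReal.ofReal b1 := by
    rw [← Measure.restrict_apply' measurableSet_Ioc, ← ofReal_measureReal]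
    exact ENNReal.ofReal_le_ofReal (h1 T hTT0 δ hδC (by linarith) V hVA hVc a b ha hb H0 η hH0 hη)
  have m2 : ∀ y : ℝ, |y| ≤ T / 2 → volume (W y) ≤ ENNReal.ofReal b2 := by
    intro y hy
    exact h3 T hTT3 δ h2δ hδ0 hδ1 y V V (by linarith) hVp.le (by linarith) hVp
  have m3 : ∀ (m : ℕ) (y : Fin m → ℝ), (∀ j, |y j| ≤ T / 2) →
      volume (⋃ j, W (y j)) ≤ ENNReal.ofReal (m * b2) := by
    intro m y hy
    refine (measure_iUnion_fintype_le _ _).trans ?_
    refine (sum_le_sum fun j _ => m2 (y j) (hy j)).trans (le_of_eq ?_)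
    rw [sum_const, card_univ, Fintype.card_fin, nsmul_eq_mul, ENNReal.ofReal_mul (Nat.cast_nonneg m),
      ENNReal.ofReal_natCast]
  have hb2T : (k + l) * b2 ≤ T * (1 / L ^ B) := by
    have hV1 : 1 ≤ V := (one_le_pow₀ hL1).trans hVB
    have e1 : V + 2 ≤ 3 * V := by linarith
    have e2 : 1 / δ ≤ L := by
      have : 2 / δ = 2 * (1 / δ) := by ring
      have h5 : 0 < 1 / δ := by positivity
      linarith
    have e4 : b2 ≤ 3 * C3 * T / L ^ (B + 2) := by
      have e5 : b2 = C3 * (V + 2) * (T * L) * (1 / δ) / V ^ 2 := by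
        rw [hb2]
        field_simp
      rw [e5, div_le_div_iff₀ (by positivity) (by positivity)]
      calc C3 * (V + 2) * (T * L) * (1 / δ) * L ^ (B + 2) ≤
          C3 * (3 * V) * (T * L) * L * L ^ (B + 2) := by gcongr
        _ = 3 * C3 * T * (V * L ^ (B + 4)) := by ring
        _ ≤ 3 * C3 * T * (V * V) := by gcongr
        _ = 3 * C3 * T * V ^ 2 := by ring
    have e6 : (k + l) * (3 * C3) ≤ L ^ 2 := by
      have h5 : (k + l) * (3 * C3) = 3 / 2 * q := by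
        rw [hq]
        ring
      rw [h5]
      nlinarith
    calc ((k:ℝ) + l) * b2 ≤ (k + l) * (3 * C3 * T / L ^ (B + 2)) :=
          mul_le_mul_of_nonneg_left e4 (by positivity)
      _ = (k + l) * (3 * C3) * (T / L ^ (B + 2)) := by ring
      _ ≤ L ^ 2 * (T / L ^ (B + 2)) := mul_le_mul_of_nonneg_right e6 (by positivity)
      _ = T * (1 / L ^ B) := by
          rw [pow_add]
          field_simp
  refine (measure_mono hsub).trans ((measure_union_le _ _).trans ?_)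
  refine (add_le_add m1 ((measure_union_le _ _).trans (add_le_add (m3 k a ha) (m3 l b hb)))).trans ?_
  rw [← ENNReal.ofReal_add (by positivity) (by positivity), ← ENNReal.ofReal_add hb10 (by positivity)]
  refine ENNReal.ofReal_le_ofReal ?_
  have e : T * (1 / η ^ 2 * (48 * R0 * ((2 / δ) ^ KK k l / Real.sqrt H0) +
        1 / L ^ B) + 1 / L ^ B) = b1 + T * (1 / L ^ B) := by
    rw [hb1]
    ring
  rw [e]
  linarith

end

end Run7.h518.SW
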