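import Pool.Agent.Run7.h518.SW.Avg

/-!
# The variance of the mean over a window in terms of the correlations (helper518)
-/

set_option autoImplicit false

namespace Run7.h518.SW

open Finset MeasureTheory Complex

noncomputable section

/-- the mean over a window -/
def wm (F : ℝ → ℂ) (H t : ℝ) : ℂ := (1 / (H:ℂ)) * ∫ u in Set.Ioc 0 H, F (t + u)

lemma meas2 {F : ℝ → ℂ} (hF : Measurable F) : Measurable fun p : ℝ × ℝ => F (p.1 + p.2) :=
  hF.comp (measurable_fst.add measurable_snd)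

lemma wm_meas {F : ℝ → ℂ} (hF : Measurable F) (H : ℝ) : Measurable (wm F H) := by
  unfold wm
  refine Measurable.const_mul ?_ _
  have h : StronglyMeasurable (Function.uncurry fun t u : ℝ => F (t + u)) :=
    (meas2 hF).stronglyMeasurable
  exact (StronglyMeasurable.integral_prod_right (ν := volume.restrict (Set.Ioc 0 H)) h).measurable

lemma wm_le {F : ℝ → ℂ} {M : ℝ} (hM : ∀ t, ‖F t‖ ≤ M) {H : ℝ} (hH : 0 < H) (t : ℝ) :
    ‖wm F H t‖ ≤ M := by
  unfold wm
  have h := norm_setIntegral_le_of_norm_le_const (μ := volume) (s := Set.Ioc 0 H)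
    (f := fun u => F (t + u)) (C := M) (by rw [Real.volume_Ioc]; exact ENNReal.ofReal_lt_top)
    (fun u _ => hM _)
  rw [Real.volume_real_Ioc_of_le hH.le, sub_zero] at h
  rw [norm_mul, norm_div, norm_one, Complex.norm_real, Real.norm_of_nonneg hH.le]
  calc 1 / H * ‖∫ u in Set.Ioc 0 H, F (t + u)‖ ≤ 1 / H * (M * H) :=
        mul_le_mul_of_nonneg_left h (by positivity)
    _ = M := by field_simp

lemma mu_ae {H : ℝ} {p : ℝ × ℝ → Prop} (h : ∀ u ∈ Set.Ioc 0 H, ∀ v ∈ Set.Ioc 0 H, p (u, v)) :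
    ∀ᵐ x ∂(mu H), p x := by
  unfold mu
  rw [Measure.prod_restrict]
  refine ae_restrict_of_forall_mem (measurableSet_Ioc.prod measurableSet_Ioc) fun x hx => ?_
  exact h x.1 hx.1 x.2 hx.2

lemma mu_univ {H : ℝ} (hH : 0 ≤ H) : (mu H).real Set.univ = H ^ 2 := by
  unfold mu
  rw [Measure.prod_restrict, measureReal_restrict_apply MeasurableSet.univ, Set.univ_inter,
    Measure.real, Measure.prod_prod, Real.volume_Ioc, sub_zero,
    ENNReal.toReal_mul, ENNReal.toReal_ofReal hH, sq]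

/-- **The variance of the mean over a window in terms of the correlations.** -/
theorem var_expand {F : ℝ → ℂ} (hF : Measurable F) {M : ℝ} (hM : ∀ t, ‖F t‖ ≤ M) {H T : ℝ}
    (hH : 0 < H) (hT : 0 < T) (d : ℂ) {D : ℝ × ℝ → ℂ} (hD : Integrable D (mu H)) {E : ℝ}
    (h1 : ∀ u ∈ Set.Ioc 0 H, ∀ v ∈ Set.Ioc 0 H,
      ‖(∫ t in Set.Ioc 0 T, F (t + u) * (starRingEnd ℂ) (F (t + v))) - T * D (u, v)‖ ≤ E)
    (h2 : ∀ u ∈ Set.Ioc 0 H, ‖(∫ t in Set.Ioc 0 T, F (t + u)) - T * d‖ ≤ E) :
    ∫ t in Set.Ioc 0 T, ‖wm F H t - d‖ ^ 2 ≤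
      T * ‖(1 / (H:ℂ) ^ 2) * ∫ p, D p ∂(mu H) - d * (starRingEnd ℂ) d‖ + E * (1 + 2 * ‖d‖) := by
  have hH0 : (H:ℂ) ≠ 0 := by exact_mod_cast hH.ne'
  have hM0 : 0 ≤ M := (norm_nonneg _).trans (hM 0)
  set ν : Measure ℝ := volume.restrict (Set.Ioc 0 T) with hν
  have hνf : IsFiniteMeasure ν := by
    rw [hν]
    infer_instance
  set f : ℝ → ℂ := wm F H with hf
  have hfm : Measurable f := wm_meas hF H
  have hfb : ∀ t, ‖f t‖ ≤ M := fun t => wm_le hM hH t
  have hfi : Integrable f ν := Integrable.of_bound hfm.aestronglyMeasurable M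
    (Filter.Eventually.of_forall hfb)
  have hcm : Measurable fun t => (starRingEnd ℂ) (f t) :=
    Complex.continuous_conj.measurable.comp hfm
  have hci : Integrable (fun t => (starRingEnd ℂ) (f t)) ν :=
    Integrable.of_bound hcm.aestronglyMeasurable M
      (Filter.Eventually.of_forall fun t => by rw [RCLike.norm_conj]; exact hfb t)
  have hfci : Integrable (fun t => f t * (starRingEnd ℂ) (f t)) ν :=
    Integrable.of_bound (hfm.mul hcm).aestronglyMeasurable (M * M)
      (Filter.Eventually.of_forall fun t => by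
        rw [norm_mul, RCLike.norm_conj]
        exact mul_le_mul (hfb t) (hfb t) (norm_nonneg _) hM0)
  -- the first mean
  have hb : ‖(∫ t, f t ∂ν) - T * d‖ ≤ E := by
    have hi : Integrable (Function.uncurry fun t u : ℝ => F (t + u))
        (ν.prod (volume.restrict (Set.Ioc 0 H))) :=
      Integrable.of_bound (meas2 hF).aestronglyMeasurable M
        (Filter.Eventually.of_forall fun p => hM _)
    have e1 : ∫ t, f t ∂ν = (1 / (H:ℂ)) * ∫ u in Set.Ioc 0 H, ∫ t, F (t + u) ∂ν := by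
      rw [hf]
      unfold wm
      rw [integral_const_mul, integral_integral_swap hi]
    have hi2 : Integrable (fun u => ∫ t, F (t + u) ∂ν) (volume.restrict (Set.Ioc 0 H)) :=
      hi.integral_prod_right
    have e2 : (∫ t, f t ∂ν) - T * d =
        (1 / (H:ℂ)) * ∫ u in Set.Ioc 0 H, ((∫ t, F (t + u) ∂ν) - T * d) := by
      rw [integral_sub hi2 (integrable_const _), setIntegral_const, e1,
        Real.volume_real_Ioc_of_le hH.le, sub_zero, Complex.real_smul]
      field_simp
    rw [e2, norm_mul, norm_div, norm_one, Complex.norm_real, Real.norm_of_nonneg hH.le]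
    have h := norm_setIntegral_le_of_norm_le_const (μ := volume) (s := Set.Ioc 0 H)
      (f := fun u => (∫ t, F (t + u) ∂ν) - T * d) (C := E)
      (by rw [Real.volume_Ioc]; exact ENNReal.ofReal_lt_top) h2
    rw [Real.volume_real_Ioc_of_le hH.le, sub_zero] at h
    calc 1 / H * _ ≤ 1 / H * (E * H) := mul_le_mul_of_nonneg_left h (by positivity)
      _ = E := by field_simp
  -- the second mean
  have ha : ‖(∫ t, f t * (starRingEnd ℂ) (f t) ∂ν) -
      T * ((1 / (H:ℂ) ^ 2) * ∫ p, D p ∂(mu H))‖ ≤ E := by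
    set G : ℝ → ℝ × ℝ → ℂ := fun t p => F (t + p.1) * (starRingEnd ℂ) (F (t + p.2)) with hG
    have hGm : Measurable (Function.uncurry G) := by
      have m1 : Measurable fun q : ℝ × (ℝ × ℝ) => F (q.1 + q.2.1) :=
        hF.comp (measurable_fst.add (measurable_fst.comp measurable_snd))
      have m2 : Measurable fun q : ℝ × (ℝ × ℝ) => F (q.1 + q.2.2) :=
        hF.comp (measurable_fst.add (measurable_snd.comp measurable_snd))
      exact m1.mul (Complex.continuous_conj.measurable.comp m2)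
    have hGb : ∀ t p, ‖G t p‖ ≤ M * M := by
      intro t p
      rw [hG]
      simp only
      rw [norm_mul, RCLike.norm_conj]
      exact mul_le_mul (hM _) (hM _) (norm_nonneg _) hM0
    have hi : Integrable (Function.uncurry G) (ν.prod (mu H)) :=
      Integrable.of_bound hGm.aestronglyMeasurable (M * M)
        (Filter.Eventually.of_forall fun q => hGb _ _)
    have e0 : ∀ t, f t * (starRingEnd ℂ) (f t) = (1 / (H:ℂ) ^ 2) * ∫ p, G t p ∂(mu H) := by
      intro t
      rw [hG]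
      simp only
      unfold mu
      rw [integral_prod_mul (fun u => F (t + u)) (fun u => (starRingEnd ℂ) (F (t + u))),
        integral_conj, hf]
      unfold wm
      rw [map_mul, map_div₀, map_one, Complex.conj_ofReal]
      field_simp
    have e1 : ∫ t, f t * (starRingEnd ℂ) (f t) ∂ν =
        (1 / (H:ℂ) ^ 2) * ∫ p, ∫ t, G t p ∂ν ∂(mu H) := by
      simp_rw [e0]
      rw [integral_const_mul, integral_integral_swap hi]
    have hi2 : Integrable (fun p => ∫ t, G t p ∂ν) (mu H) := hi.integral_prod_right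
    have e2 : (∫ t, f t * (starRingEnd ℂ) (f t) ∂ν) - T * ((1 / (H:ℂ) ^ 2) * ∫ p, D p ∂(mu H)) =
        (1 / (H:ℂ) ^ 2) * ∫ p, ((∫ t, G t p ∂ν) - T * D p) ∂(mu H) := by
      rw [integral_sub hi2 (hD.const_mul _), e1, integral_const_mul]
      ring
    rw [e2, norm_mul, norm_div, norm_one, norm_pow, Complex.norm_real, Real.norm_of_nonneg hH.le]
    have h := norm_integral_le_of_norm_le_const (μ := mu H)
      (f := fun p => (∫ t, G t p ∂ν) - T * D p) (C := E) (mu_ae h1)
    rw [mu_univ hH.le] at h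
    calc 1 / H ^ 2 * _ ≤ 1 / H ^ 2 * (E * H ^ 2) := mul_le_mul_of_nonneg_left h (by positivity)
      _ = E := by field_simp
  -- the expansion
  set a : ℂ := ∫ t, f t * (starRingEnd ℂ) (f t) ∂ν with ha'
  set b : ℂ := ∫ t, f t ∂ν with hb'
  set X : ℂ := (1 / (H:ℂ) ^ 2) * ∫ p, D p ∂(mu H) with hX
  have hcb : ∫ t, (starRingEnd ℂ) (f t) ∂ν = (starRingEnd ℂ) b := by
    rw [integral_conj]
  have hS : (((∫ t, ‖f t - d‖ ^ 2 ∂ν : ℝ)) : ℂ) = a - (starRingEnd ℂ) d * b -
      d * (starRingEnd ℂ) b + T * (d * (starRingEnd ℂ) d) := by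
    rw [← integral_complex_ofReal]
    have e1 : ∀ t, ((‖f t - d‖ ^ 2 : ℝ) : ℂ) = (f t * (starRingEnd ℂ) (f t) -
        (starRingEnd ℂ) d * f t) - d * (starRingEnd ℂ) (f t) + d * (starRingEnd ℂ) d := by
      intro t
      rw [← Complex.normSq_eq_norm_sq, ← Complex.mul_conj, map_sub]
      ring
    simp_rw [e1]
    have i1 : Integrable (fun t => (starRingEnd ℂ) d * f t) ν := hfi.const_mul _
    have i2 : Integrable (fun t => d * (starRingEnd ℂ) (f t)) ν := hci.const_mul _
    have i3 : Integrable (fun t => f t * (starRingEnd ℂ) (f t) - (starRingEnd ℂ) d * f t) ν :=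
      hfci.sub i1
    have i4 : Integrable (fun t => f t * (starRingEnd ℂ) (f t) - (starRingEnd ℂ) d * f t -
      d * (starRingEnd ℂ) (f t)) ν := i3.sub i2
    rw [integral_add i4 (integrable_const _), integral_sub i3 i2, integral_sub hfci i1,
      integral_const_mul, integral_const_mul, hcb,
      hν, setIntegral_const, Real.volume_real_Ioc_of_le hT.le, sub_zero, Complex.real_smul]
  have hexp : (((∫ t, ‖f t - d‖ ^ 2 ∂ν : ℝ)) : ℂ) = (a - T * X) - (starRingEnd ℂ) d * (b - T * d) -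
      d * (starRingEnd ℂ) (b - T * d) + T * (X - d * (starRingEnd ℂ) d) := by
    rw [hS, map_sub, map_mul, Complex.conj_ofReal]
    ring
  have hnn : 0 ≤ ∫ t, ‖f t - d‖ ^ 2 ∂ν := integral_nonneg fun t => by positivity
  have hnorm : ∫ t, ‖f t - d‖ ^ 2 ∂ν = ‖(((∫ t, ‖f t - d‖ ^ 2 ∂ν : ℝ)) : ℂ)‖ := by
    rw [Complex.norm_real, Real.norm_of_nonneg hnn]
  rw [hnorm, hexp]
  have t1 : ‖(starRingEnd ℂ) d * (b - T * d)‖ ≤ ‖d‖ * E := by
    rw [norm_mul, RCLike.norm_conj]
    exact mul_le_mul_of_nonneg_left hb (norm_nonneg _)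
  have t2 : ‖d * (starRingEnd ℂ) (b - T * d)‖ ≤ ‖d‖ * E := by
    rw [norm_mul, RCLike.norm_conj]
    exact mul_le_mul_of_nonneg_left hb (norm_nonneg _)
  have t3 : ‖(T:ℂ) * (X - d * (starRingEnd ℂ) d)‖ = T * ‖X - d * (starRingEnd ℂ) d‖ := by
    rw [norm_mul, Complex.norm_real, Real.norm_of_nonneg hT.le]
  have s1 := norm_add_le ((a - T * X) - (starRingEnd ℂ) d * (b - T * d) -
      d * (starRingEnd ℂ) (b - T * d)) (T * (X - d * (starRingEnd ℂ) d))
  have s2 := norm_sub_le ((a - T * X) - (starRingEnd ℂ) d * (b - T * d))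
      (d * (starRingEnd ℂ) (b - T * d))
  have s3 := norm_sub_le (a - T * X) ((starRingEnd ℂ) d * (b - T * d))
  nlinarith

end

end Run7.h518.SW
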