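import Pool.Agent.Run7.h518.SW.SupH
import Pool.Agent.Run7.h518.SW.SUP

/-!
# The recipe in almost all windows (helper518)
-/

set_option autoImplicit false

namespace Run7.h518.SW

open Finset MeasureTheory Complex
open Pool.Agent.H306R2 hiding wt
open Pool.Agent.Y746.OA Pool.Agent.Y746.CS

noncomputable section

lemma wm_shift (F : ℝ → ℂ) (H t m : ℝ) : wm F H (t + m) = wm (fun u => F (u + m)) H t := by
  unfold wm
  congr 1
  refine integral_congr_ae (Filter.Eventually.of_forall fun u => ?_)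
  show F (t + m + u) = F (t + u + m)
  congr 1
  ring

/-- **All the windows at once**, for the truncated products. -/
theorem trunc_sup (k l : ℕ) : ∃ c : ℝ, 0 < c ∧ ∀ B : ℕ, ∃ (A : ℕ) (C T0 : ℝ), 2 ≤ C ∧
    Real.exp (Real.exp 2) ≤ T0 ∧ ∀ T : ℝ, T0 ≤ T → ∀ δ : ℝ,
    C * Real.log (Real.log T) / Real.log T ≤ δ → δ ≤ 1 / 16 →
    ∀ V : ℝ, Real.log T ^ A ≤ V → V ≤ T ^ (c * δ) →
    ∀ (a : Fin k → ℝ) (b : Fin l → ℝ), (∀ j, |a j| ≤ T / 2) → (∀ j, |b j| ≤ T / 2) →
    ∀ H0 η : ℝ, 1 ≤ H0 → 0 < η →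
    (volume.restrict (Set.Ioc 0 T)).real {t | ∃ H : ℝ, H0 ≤ H ∧ H ≤ T / 8 ∧
      η < ‖wm (FF δ V a b) H t - dd (Tk a) (Tk b) δ‖} ≤
      T * (1 / η ^ 2 * (48 * R0 * ((2 / δ) ^ KK k l / Real.sqrt H0) + 1 / Real.log T ^ B)) := by
  obtain ⟨c, hc, h⟩ := win_var k l
  refine ⟨c, hc, fun B => ?_⟩
  obtain ⟨A, C, T0, hC, hT0, h1⟩ := h (B + 6)
  refine ⟨A, C, T0, hC, hT0, fun T hT δ hδ hδ1 V hV1 hV2 a b ha hb H0 η hH0 hη => ?_⟩
  obtain ⟨hL3, hTp, hδ0, h2δ⟩ := params hC (hT0.trans hT) hδ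
  set L : ℝ := Real.log T with hL
  set x : ℝ := 2 / δ with hx
  have hx1 : 1 ≤ x := by
    rw [hx, le_div_iff₀ hδ0]
    linarith
  set P : ℕ := k + l + 1 with hP
  have hT8 : 8 ≤ T := by
    have h2 := Real.add_one_le_exp (Real.exp 2)
    have h3 : Real.exp 2 = Real.exp 1 * Real.exp 1 := by
      rw [← Real.exp_add]
      norm_num
    have h4 := Real.exp_one_gt_d9
    nlinarith [hT0.trans hT]
  have hK1 : 4 * P ^ 2 ≤ KK k l := by
    unfold KK
    rw [← hP]
    zify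
    nlinarith [sq_nonneg ((P:ℤ) ^ 2 - 1)]
  have hK2 : P ^ 2 * 2 ≤ KK k l := by
    refine le_trans ?_ hK1
    nlinarith [Nat.zero_le (P ^ 2)]
  have hV0 : 0 ≤ V := (pow_nonneg (by linarith) _).trans hV1
  have hLB : 0 < L ^ (B + 6) := by positivity
  have hshift : ∀ (i : ℕ) (y : Fin i → ℝ) (m h : ℝ), (∀ j, |y j| ≤ T / 2) → 0 ≤ m → m + h ≤ T / 2 →
      ∀ j, |y j + m| + h ≤ T := by
    intro i y m h hy hm hmh j
    have h2 := abs_add_le (y j) m
    rw [abs_of_nonneg hm] at h2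
    linarith [hy j]
  have hmain := sup_windows (X := T / 4) (FF_meas hδ1 V a b) (FF_le δ hV0 a b) (dd (Tk a) (Tk b) δ)
    (Q := 12 * T * x ^ KK k l) (ε := T / L ^ (B + 6)) hL3 hTp (by linarith) (by positivity)
    (by positivity) (by
      intro m hm hmX
      have g := h1 T hT δ hδ hδ1 V hV1 hV2 (fun j => a j + m) (fun j => b j + m) 1 one_pos
        (hshift k a m 1 ha hm (by linarith)) (hshift l b m 1 hb hm (by linarith))
      rw [dd_shift] at g
      obtain ⟨-, g2, g3⟩ := g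
      have i1 : Integrable (fun t => 2 * ‖FF δ V (fun j => a j + m) (fun j => b j + m) t‖ ^ 2)
          (volume.restrict (Set.Ioc 0 T)) := by
        refine Integrable.of_bound ((((FF_meas hδ1 V _ _).norm.pow_const 2).const_mul
          2).aestronglyMeasurable) (2 * (V ^ k * V ^ l) ^ 2) (Filter.Eventually.of_forall fun t => ?_)
        rw [Real.norm_of_nonneg (by positivity)]
        exact mul_le_mul_of_nonneg_left (pow_le_pow_left₀ (norm_nonneg _) (FF_le δ hV0 _ _ t) 2)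
          (by norm_num)
      have e1 : ∫ t in Set.Ioc 0 T, ‖FF δ V a b (t + m) - dd (Tk a) (Tk b) δ‖ ^ 2 ≤
          ∫ t in Set.Ioc 0 T, (2 * ‖FF δ V (fun j => a j + m) (fun j => b j + m) t‖ ^ 2 +
            2 * ‖dd (Tk a) (Tk b) δ‖ ^ 2) := by
        refine integral_mono_of_nonneg (Filter.Eventually.of_forall fun t => by positivity)
          (i1.add (integrable_const _)) (Filter.Eventually.of_forall fun t => ?_)
        show ‖FF δ V a b (t + m) - dd (Tk a) (Tk b) δ‖ ^ 2 ≤ _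
        rw [FF_shift]
        have h2 := norm_sub_le (FF δ V (fun j => a j + m) (fun j => b j + m) t)
          (dd (Tk a) (Tk b) δ)
        have h3 := pow_le_pow_left₀ (norm_nonneg _) h2 2
        nlinarith [sq_nonneg (‖FF δ V (fun j => a j + m) (fun j => b j + m) t‖ -
          ‖dd (Tk a) (Tk b) δ‖)]
      rw [integral_add i1 (integrable_const _), integral_const_mul, setIntegral_const,
        Real.volume_real_Ioc_of_le hTp.le, sub_zero, smul_eq_mul] at e1
      have p1 : x ^ (4 * P ^ 2) ≤ x ^ KK k l := pow_le_pow_right₀ hx1 hK1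
      have p2 : ‖dd (Tk a) (Tk b) δ‖ ^ 2 ≤ x ^ KK k l := by
        calc ‖dd (Tk a) (Tk b) δ‖ ^ 2 ≤ (x ^ (P ^ 2)) ^ 2 := pow_le_pow_left₀ (norm_nonneg _) g3 2
          _ = x ^ (P ^ 2 * 2) := by rw [← pow_mul]
          _ ≤ x ^ KK k l := pow_le_pow_right₀ hx1 hK2
      have p3 : (1:ℝ) ≤ x ^ KK k l := one_le_pow₀ hx1
      have p4 : T / L ^ (B + 6) ≤ T * x ^ KK k l := by
        have h2 : (1:ℝ) ≤ L ^ (B + 6) := one_le_pow₀ (by linarith)
        calc T / L ^ (B + 6) ≤ T / 1 := div_le_div_of_nonneg_left hTp.le one_pos h2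
          _ = T * 1 := by ring
          _ ≤ T * x ^ KK k l := mul_le_mul_of_nonneg_left p3 hTp.le
      have p5 := mul_le_mul_of_nonneg_left p1 hTp.le
      have p6 := mul_le_mul_of_nonneg_left p2 hTp.le
      nlinarith) (by
      intro m h hm hh hmh
      have g := (h1 T hT δ hδ hδ1 V hV1 hV2 (fun j => a j + m) (fun j => b j + m) h (by linarith)
        (hshift k a m h ha hm (by linarith)) (hshift l b m h hb hm (by linarith))).1
      rw [dd_shift] at g
      refine le_trans (le_of_eq ?_) (g.trans (le_of_eq ?_))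
      · refine integral_congr_ae (Filter.Eventually.of_forall fun t => ?_)
        show ‖wm (FF δ V a b) h (t + m) - dd (Tk a) (Tk b) δ‖ ^ 2 = _
        have e : (fun u => FF δ V a b (u + m)) = FF δ V (fun j => a j + m) (fun j => b j + m) :=
          funext fun u => FF_shift δ V a b m u
        rw [wm_shift, e]
      · rw [hx]
        ring) hH0 hη
  rw [show T / 4 / 2 = T / 8 by ring] at hmain
  refine hmain.trans ?_
  have h72 : 72 * L ^ 2 * (T / L ^ (B + 6)) ≤ T * (1 / L ^ B) := by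
    have h2 : 72 * L ^ 2 ≤ L ^ 6 := by
      have h3 : (81:ℝ) ≤ L ^ 4 := by
        calc (81:ℝ) = 3 ^ 4 := by norm_num
          _ ≤ L ^ 4 := pow_le_pow_left₀ (by norm_num) hL3 4
      nlinarith [sq_nonneg L]
    rw [pow_add]
    have h4 : 0 < L ^ B := by positivity
    have h5 : 0 < L ^ 6 := by positivity
    calc 72 * L ^ 2 * (T / (L ^ B * L ^ 6)) ≤ L ^ 6 * (T / (L ^ B * L ^ 6)) :=
          mul_le_mul_of_nonneg_right h2 (by positivity)
      _ = T * (1 / L ^ B) := by field_simp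
  have h73 : 0 ≤ 1 / η ^ 2 := by positivity
  calc 1 / η ^ 2 * (4 * (12 * T * x ^ KK k l) * (R0 / Real.sqrt H0) +
        72 * L ^ 2 * (T / L ^ (B + 6))) ≤
      1 / η ^ 2 * (4 * (12 * T * x ^ KK k l) * (R0 / Real.sqrt H0) + T * (1 / L ^ B)) := by
        refine mul_le_mul_of_nonneg_left ?_ h73
        linarith
    _ = _ := by ring

/-- the mean square of zeta over shifted lines -/
lemma ms_zeta : ∃ C T0 : ℝ, 0 < C ∧ 4 ≤ T0 ∧ ∀ T : ℝ, T0 ≤ T → ∀ δ : ℝ, 1 / Real.log T ≤ δ →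
    δ ≤ 1 / 16 → ∀ c : ℝ, |c| ≤ T →
    ∫ t in (0:ℝ)..T, ‖riemannZeta (sp δ (t + c))‖ ^ 2 ≤ C * (T * Real.log T) := by
  obtain ⟨C, T0, hC, hT0, h⟩ := zeta_ms_shift
  refine ⟨2 * C + 2, T0, by positivity, hT0, fun T hT δ hδ hδ1 c hc => ?_⟩
  have g := h T hT 1 le_rfl (by norm_num; linarith) δ hδ hδ1 c hc
  have hT4 : 4 ≤ T := hT0.trans hT
  have hL1 : 1 ≤ Real.log T := by
    rw [Real.le_log_iff_exp_le (by linarith)]
    linarith [Real.exp_one_lt_d9]
  have hD : ∀ s : ℂ, Dy 1 1 s = 1 := by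
    intro s
    rw [Dy1_eq]
    simp
  simp only [hD, Nat.cast_one, Real.one_rpow, mul_one] at g
  have c1 : Continuous fun t : ℝ => 2 * ‖riemannZeta (sp δ (t + c)) - 1‖ ^ 2 + 2 :=
    (continuous_const.mul ((((zc hδ1 c).sub continuous_const).norm).pow 2)).add continuous_const
  have c2 : Continuous fun t : ℝ => ‖riemannZeta (sp δ (t + c))‖ ^ 2 := ((zc hδ1 c).norm).pow 2
  have c3 : Continuous fun t : ℝ => 2 * ‖riemannZeta (sp δ (t + c)) - 1‖ ^ 2 :=
    continuous_const.mul ((((zc hδ1 c).sub continuous_const).norm).pow 2)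
  have e1 : ∫ t in (0:ℝ)..T, ‖riemannZeta (sp δ (t + c))‖ ^ 2 ≤
      ∫ t in (0:ℝ)..T, (2 * ‖riemannZeta (sp δ (t + c)) - 1‖ ^ 2 + 2) := by
    refine intervalIntegral.integral_mono_on (by linarith) (c2.intervalIntegrable _ _)
      (c1.intervalIntegrable _ _) fun t _ => ?_
    have h2 : ‖riemannZeta (sp δ (t + c))‖ ≤ ‖riemannZeta (sp δ (t + c)) - 1‖ + 1 := by
      have := norm_add_le (riemannZeta (sp δ (t + c)) - 1) 1
      rwa [sub_add_cancel, norm_one] at this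
    have h3 := pow_le_pow_left₀ (norm_nonneg _) h2 2
    nlinarith [sq_nonneg (‖riemannZeta (sp δ (t + c)) - 1‖ - 1)]
  rw [intervalIntegral.integral_add (c3.intervalIntegrable _ _) intervalIntegrable_const,
    intervalIntegral.integral_const_mul, intervalIntegral.integral_const, sub_zero,
    smul_eq_mul] at e1
  have e2 : T ≤ T * Real.log T := le_mul_of_one_le_right (by linarith) hL1
  linarith

/-- **Large values of zeta are rare in windows.** -/
theorem rare : ∃ C T0 : ℝ, 0 < C ∧ 4 ≤ T0 ∧ ∀ T : ℝ, T0 ≤ T → ∀ δ : ℝ, 2 / δ ≤ Real.log T →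
    0 < δ → δ ≤ 1 / 24 → ∀ c H κ : ℝ, |c| ≤ T → 0 ≤ H → H ≤ T → 0 < κ →
    volume {t : ℝ | t ∈ Set.Ioc 0 T ∧ ∃ u : ℝ, t ≤ u ∧ u ≤ t + H ∧
      κ ≤ ‖riemannZeta (sp δ (u + c))‖} ≤
        ENNReal.ofReal (C * (H + 2) * (T * Real.log T) / (δ * κ ^ 2)) := by
  obtain ⟨C1, T1, hC1, hT1, h1⟩ := ms_zeta
  obtain ⟨C2, hC2, h2⟩ := SUP.main
  refine ⟨C2 * (8 * C1), T1, by positivity, hT1, fun T hT δ h2δ hδ0 hδ1 c H κ hc hH hHT hκ => ?_⟩
  have hT4 : 4 ≤ T := hT1.trans hT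
  have hL1 : 1 ≤ Real.log T := by
    rw [Real.le_log_iff_exp_le (by linarith)]
    linarith [Real.exp_one_lt_d9]
  have hlog : Real.log (4 * T) ≤ 2 * Real.log T := by
    rw [Real.log_mul (by norm_num) (by linarith)]
    have : Real.log 4 ≤ Real.log T := Real.log_le_log (by norm_num) hT4
    linarith
  have hlog2 : Real.log T ≤ Real.log (4 * T) := Real.log_le_log (by linarith) (by linarith)
  set Φ : ℂ → ℂ := fun s => riemannZeta (s + ((c - 1 : ℝ) : ℂ) * I) with hΦ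
  have hd : DifferentiableOn ℂ Φ {s : ℂ | 1 / 2 < s.re ∧ s.re < 1} := by
    intro s hs
    have hs1 : s + ((c - 1 : ℝ) : ℂ) * I ≠ 1 := by
      intro h
      have h3 := congrArg Complex.re h
      simp at h3
      have := hs.2
      linarith
    have h3 : DifferentiableAt ℂ Φ s :=
      (differentiableAt_riemannZeta hs1).comp s (differentiableAt_id.add_const _)
    exact h3.differentiableWithinAt
  have hval : ∀ δ' t : ℝ, Φ (1 / 2 + δ' + t * I) = riemannZeta (sp δ' (t + (c - 1))) := by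
    intro δ' t
    rw [hΦ]
    simp only
    congr 1
    unfold sp
    push_cast
    ring
  have hms : ∀ δ' : ℝ, δ / 2 ≤ δ' → δ' ≤ 3 * δ / 2 →
      ∫ t in (0:ℝ)..(4 * T), ‖Φ (1 / 2 + δ' + t * I)‖ ^ 2 ≤ 8 * C1 * (T * Real.log T) := by
    intro δ' hδ' hδ'2
    have hcc : |c - 1| ≤ 4 * T := by
      have h3 := abs_sub c 1
      rw [abs_one] at h3
      linarith
    have hδ3 : 1 / Real.log (4 * T) ≤ δ' := by
      refine le_trans ?_ hδ'
      rw [div_le_iff₀ (by linarith)]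
      rw [div_le_iff₀ hδ0] at h2δ
      nlinarith
    have g := h1 (4 * T) (by linarith) δ' hδ3 (by linarith) (c - 1) hcc
    simp_rw [hval]
    refine g.trans ?_
    have h3 : 4 * T * Real.log (4 * T) ≤ 4 * T * (2 * Real.log T) :=
      mul_le_mul_of_nonneg_left hlog (by linarith)
    calc C1 * (4 * T * Real.log (4 * T)) ≤ C1 * (4 * T * (2 * Real.log T)) :=
          mul_le_mul_of_nonneg_left h3 hC1.le
      _ = _ := by ring
  have g := h2 Φ hd δ 0 (4 * T) (8 * C1 * (T * Real.log T)) hδ0 (by linarith) (by linarith)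
    (by positivity) hms H κ hH hκ
  have hsub : {t : ℝ | t ∈ Set.Ioc 0 T ∧ ∃ u : ℝ, t ≤ u ∧ u ≤ t + H ∧
      κ ≤ ‖riemannZeta (sp δ (u + c))‖} ⊆ (fun t => t + 1) ⁻¹' {t : ℝ | 0 + 1 ≤ t ∧
        t + H + 1 ≤ 4 * T ∧ ∃ u : ℝ, t ≤ u ∧ u ≤ t + H ∧ κ ≤ ‖Φ (1 / 2 + δ + u * I)‖} := by
    rintro t ⟨⟨t0, t1⟩, u, hu1, hu2, hu3⟩
    refine ⟨by linarith, by linarith, u + 1, by linarith, by linarith, ?_⟩
    have h3 := hval δ (u + 1)
    rw [h3]
    convert hu3 using 4
    ring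
  refine (measure_mono hsub).trans ?_
  rw [measure_preimage_add_right]
  refine g.trans (ENNReal.ofReal_le_ofReal (le_of_eq ?_))
  ring

end

end Run7.h518.SW
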